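import Pool.Agent.W619.Y.Cond

/-! Groups permuting the curves: equivariant data, transcendence bases, forms on `Y`. -/

set_option autoImplicit false
set_option linter.overlappingInstances false
set_option linter.unusedSectionVars false

universe u v

open Polynomial FF IntermediateField Pool.Agent.W619.PQ Pool.Agent.W619.PL Pool.Agent.W619.TW
  Pool.Agent.W619.X

namespace Pool.Agent.W619.Y

open Pool.Agent.W603.LV

section

variable {k : Type v} {L : Type u} [Field k] [Field L] [Algebra k L]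

/-- The place of `F` which corresponds to a place of `F'` under an isomorphism. -/
noncomputable def pullPlace {F F' : IntermediateField k L} (e : F ≃ₐ[k] F') (w : Place k F') :
    Place k F where
  ord f := w.ord (e f)
  ord_zero := by rw [map_zero, w.ord_zero]
  ord_mul := by
    intro f g hf hg
    rw [map_mul, w.ord_mul (by simpa using hf) (by simpa using hg)]
  ord_add := by
    intro f g hf hg hfg
    rw [map_add]
    exact w.ord_add (by simpa using hf) (by simpa using hg)
      (by rw [← map_add]; exact (map_ne_zero_iff _ e.injective).2 hfg)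
  ord_const := by intro c hc; rw [AlgEquiv.commutes, w.ord_const hc]
  surj := by
    obtain ⟨t, h0, ht⟩ := w.surj
    exact ⟨e.symm t, by simpa using h0, by simpa using ht⟩

/-- The derivation of `F'` which corresponds to a derivation of `F` under an isomorphism. -/
noncomputable def pushDer {F F' : IntermediateField k L} (e : F ≃ₐ[k] F') (D : Derivation k F F) :
    Derivation k F' F' :=
  Derivation.mk' ((e.toLinearMap.comp (D : F →ₗ[k] F)).comp e.symm.toLinearMap) (by
    intro a b
    change e (D (e.symm (a * b))) = a • e (D (e.symm b)) + b • e (D (e.symm a))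
    rw [map_mul, D.leibniz, map_add, smul_eq_mul, smul_eq_mul, map_mul, map_mul,
      AlgEquiv.apply_symm_apply, AlgEquiv.apply_symm_apply, smul_eq_mul, smul_eq_mul])

theorem elliptic_of_equiv {F F' : IntermediateField k L} (e : F ≃ₐ[k] F') (h : IsElliptic F) :
    IsElliptic F' := by
  obtain ⟨D, hD⟩ := h
  refine ⟨pushDer e D, fun w t ht => ?_⟩
  have h1 := hD (pullPlace e w) (e.symm t) (by
    change w.ord (e (e.symm t)) = 1
    rw [AlgEquiv.apply_symm_apply]; exact ht)
  change e (D (e.symm t)) ≠ 0 ∧ w.ord (e (D (e.symm t))) = 0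
  exact ⟨(map_ne_zero_iff _ e.injective).2 h1.1, h1.2⟩

variable {n : ℕ} {G : Subgroup (L ≃ₐ[k] L)} {σ : G →* Equiv.Perm (Fin n)}
  {F : Fin n → IntermediateField k L}

/-- The isomorphism of two curves in the same orbit. -/
noncomputable def mapCurve (hσ : ∀ (g : G) i, ∀ z ∈ F i, (g : L ≃ₐ[k] L) z ∈ F (σ g i)) (g : G)
    (i : Fin n) : F i ≃ₐ[k] F (σ g i) :=
  AlgEquiv.ofBijective
    ((((g : L ≃ₐ[k] L) : L →ₐ[k] L).comp (F i).val).codRestrict (F (σ g i)).toSubalgebra
      fun z => hσ g i z z.2) (by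
    constructor
    · intro a b hab
      have h1 : (g : L ≃ₐ[k] L) (a : L) = (g : L ≃ₐ[k] L) (b : L) := congrArg Subtype.val hab
      exact Subtype.ext ((g : L ≃ₐ[k] L).injective h1)
    · intro z
      refine ⟨⟨(g : L ≃ₐ[k] L).symm z, ?_⟩, ?_⟩
      · rw [mem_F_iff hσ g i, AlgEquiv.apply_symm_apply]
        exact z.2
      · exact Subtype.ext ((g : L ≃ₐ[k] L).apply_symm_apply z))

theorem elliptic_inv (hσ : ∀ (g : G) i, ∀ z ∈ F i, (g : L ≃ₐ[k] L) z ∈ F (σ g i)) (g : G)
    (i : Fin n) (h : ¬ IsElliptic (F i)) : ¬ IsElliptic (F (σ g i)) :=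
  fun h' => h (elliptic_of_equiv (mapCurve hσ g i).symm h')

theorem basis_append {d : ℕ} (M : IntermediateField k L) (F : Fin n → IntermediateField k L)
    [∀ i, IsFF k (F i)] (halg : Algebra.IsAlgebraic ↥(M ⊔ ⨆ i, F i) L)
    (hn : Algebra.trdeg k L = (d + n : ℕ)) (y : Fin d → M) (hy : IsTranscendenceBasis k y)
    (x : ∀ i, F i) (hx : ∀ i, Transcendental k (x i)) :
    IsTranscendenceBasis k (Fin.append (fun l => (y l : L)) (fun i => (x i : L))) := by
  have h1 : Algebra.IsAlgebraic (Algebra.adjoin k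
      (Set.range (Fin.append (fun l => (y l : L)) (fun i => (x i : L))))) L := by
    refine alg_adjoin fun z => ?_
    let S : IntermediateField k L :=
      adjoin k (Set.range (Fin.append (fun l => (y l : L)) (fun i => (x i : L))))
    let A : IntermediateField S L := algebraicClosure S L
    have hyS : ∀ l, (y l : L) ∈ S := fun l => subset_adjoin k _
      ⟨Fin.castAdd n l, by rw [Fin.append_left]⟩
    have hxS : ∀ i, (x i : L) ∈ S := fun i => subset_adjoin k _
      ⟨Fin.natAdd d i, by rw [Fin.append_right]⟩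
    have hM : ∀ z ∈ M, z ∈ A := by
      intro z hz
      rw [mem_algebraicClosure_iff]
      have h2 : IsAlgebraic (IntermediateField.adjoin k (Set.range y)) (⟨z, hz⟩ : M) :=
        hy.isAlgebraic_field.isAlgebraic _
      have hle : ∀ w : IntermediateField.adjoin k (Set.range y), ((w : M) : L) ∈ S := by
        have h3 : IntermediateField.adjoin k (Set.range y) ≤ S.comap M.val := by
          rw [adjoin_le_iff]
          rintro _ ⟨l, rfl⟩
          exact hyS l
        exact fun w => h3 w.2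
      let f : IntermediateField.adjoin k (Set.range y) →+* S :=
        ((M.val : M →+* L).comp (algebraMap (IntermediateField.adjoin k (Set.range y)) M)).codRestrict
          S fun w => hle w
      exact h2.ringHom_of_comp_eq f (M.val : M →+* L) f.injective (by ext w; rfl)
    have hF : ∀ i, ∀ z ∈ F i, z ∈ A := by
      intro i z hz
      rw [mem_algebraicClosure_iff]
      exact alg_of_mem (F i) (hx i) S (hxS i) ⟨z, hz⟩
    have hA : ∀ z ∈ M ⊔ ⨆ i, F i, z ∈ A := by
      have h2 : M ⊔ ⨆ i, F i ≤ A.restrictScalars k :=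
        sup_le (fun z hz => hM z hz) (iSup_le fun i z hz => hF i z hz)
      exact fun z hz => h2 hz
    let f : ↥(M ⊔ ⨆ i, F i) →+* A := ((M ⊔ ⨆ i, F i).val : ↥(M ⊔ ⨆ i, F i) →+* L).codRestrict A
      fun y => hA _ y.2
    have h2 : IsAlgebraic A z := by
      have h3 := halg.isAlgebraic z
      refine h3.ringHom_of_comp_eq f (RingHom.id L) f.injective (by ext y; rfl)
    have h4 : Algebra.IsAlgebraic S A := algebraicClosure.isAlgebraic S L
    exact IsAlgebraic.restrictScalars S h2
  refine Algebra.IsAlgebraic.isTranscendenceBasis_of_lift_le_trdeg_of_finite k _ ?_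
  rw [hn]
  simp

theorem exists_fin_basis {K : Type*} [Field K] [Algebra k K] (d : ℕ)
    (hd : Algebra.trdeg k K = d) : ∃ y : Fin d → K, IsTranscendenceBasis k y := by
  obtain ⟨ι, z, hz⟩ := exists_isTranscendenceBasis' k K
  have h1 := hz.cardinalMk_eq_trdeg
  rw [hd] at h1
  have h2 : Finite ι := Cardinal.mk_lt_aleph0_iff.1 (by rw [h1]; exact Cardinal.natCast_lt_aleph0)
  obtain ⟨m, ⟨e⟩⟩ := Finite.exists_equiv_fin ι
  have h3 : m = d := by
    have h4 : Cardinal.mk ι = (m : Cardinal) := by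
      have h5 := Cardinal.lift_mk_eq'.2 ⟨e⟩
      simpa using h5
    rw [h4] at h1
    exact_mod_cast h1
  subst h3
  exact ⟨z ∘ e.symm, (isTranscendenceBasis_equiv e.symm).2 hz⟩

theorem fin_over {K : Type*} [Field K] [Algebra k K] [Algebra.EssFiniteType k K] {d : ℕ}
    (y : Fin d → K) (hy : IsTranscendenceBasis k y) :
    FiniteDimensional (IntermediateField.adjoin k (Set.range y)) K := by
  set K0 := IntermediateField.adjoin k (Set.range y) with hK0
  have hess : Algebra.EssFiniteType K0 K := Algebra.EssFiniteType.of_comp k K0 K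
  have halg1 : Algebra.IsAlgebraic K0 K := hy.isAlgebraic_field
  obtain ⟨s, hs⟩ := IntermediateField.fg_top K0 K
  have h1 : FiniteDimensional K0 (IntermediateField.adjoin K0 (s : Set K)) :=
    IntermediateField.finiteDimensional_adjoin fun x _ =>
      (halg1.isAlgebraic x).isIntegral
  rw [hs] at h1
  exact h1.equiv IntermediateField.topEquiv.toLinearEquiv

/-- The value of a pluricanonical form in terms of a frame. -/
theorem pluri_frame {K : Type*} [Field K] [CharZero k] [Algebra k K] {d m : ℕ}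
    {ω : (Fin d → Derivation k K K) → K} (hω : IsPluriForm k K d m ω) (y : Fin d → K)
    (hy : IsTranscendenceBasis k y) (E : Fin d → Derivation k K K)
    (hE : ∀ i j, E i (y j) = if i = j then 1 else 0) (D : Fin d → Derivation k K K) :
    ω D = (Matrix.of fun a b => D a (y b)).det ^ m * ω E := by
  have h1 := hω (Matrix.of fun a b => D a (y b)) E
  rw [← h1]
  congr 1
  funext a
  have h2 : ∀ f, (D a - ∑ j, (Matrix.of fun a b => D a (y b)) a j • E j) f = 0 := by
    refine der_zero _ y hy fun i => ?_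
    rw [Derivation.sub_apply]
    have h3 : ∀ (s : Finset (Fin d)), (∑ j ∈ s, (Matrix.of fun a b => D a (y b)) a j • E j) (y i) =
        ∑ j ∈ s, D a (y j) * E j (y i) := by
      intro s
      classical
      induction s using Finset.induction_on with
      | empty => simp
      | insert a s ha ih =>
        rw [Finset.sum_insert ha, Finset.sum_insert ha, Derivation.add_apply, ih]
        rfl
    rw [h3]
    simp only [hE, mul_ite, mul_one, mul_zero, Finset.sum_ite_eq', Finset.mem_univ, if_true]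
    rw [sub_self]
  ext f
  have h3 := h2 f
  rw [Derivation.sub_apply, sub_eq_zero] at h3
  exact h3

theorem YGood.pow {d m : ℕ} {w : Place k L} {y : Fin d → L} {a : L} (h : YGood d m w y a) (r : ℕ) :
    YGood d (r * m) w y (a ^ r) := by
  obtain ⟨Z, z, h1, h2, h3⟩ := h
  refine ⟨Z, z, h1, h2, ?_⟩
  have h4 : a ^ r * Z.det ^ (r * m) = (a * Z.det ^ m) ^ r := by
    rw [mul_pow, ← pow_mul, mul_comm m r]
  rw [h4]
  have h5 := h3.pow r
  simpa using h5

end

section

variable {k : Type v} {L : Type u} [Field k] [CharZero k] [IsAlgClosed k] [Field L] [Algebra k L]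
  {n : ℕ}

/-- Equivariant data. -/
theorem eqv_data (hEQV : S_EQV.{u})
    (F : Fin n → IntermediateField k L)
    (G : Subgroup (L ≃ₐ[k] L)) [Finite G] (σ : G →* Equiv.Perm (Fin n))
    (hσ : ∀ (g : G) i, ∀ z ∈ F i, (g : L ≃ₐ[k] L) z ∈ F (σ g i))
    (N m1 : ℕ) (hm1 : 1 ≤ m1)
    (H : Set (Fin n)) (hH : ∀ (g : G) i, i ∈ H → σ g i ∈ H)
    (hdata : ∀ i, ∃ (m : ℕ) (x b b' : L), 1 ≤ m ∧ x ∈ Quo G σ F i ∧ Transcendental k x ∧
      b ∈ Quo G σ F i ∧ b ≠ 0 ∧ b' ∈ Quo G σ F i ∧ b' ≠ 0 ∧
      GoodAt (Quo G σ F i) N m x b ∧ GoodAt (Quo G σ F i) N m x b' ∧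
      (i ∈ H → Transcendental k (b' / b))) :
    ∃ (r : ℕ) (x c c' : Fin n → L), 1 ≤ r ∧
      (∀ i, x i ∈ Quo G σ F i) ∧ (∀ i, Transcendental k (x i)) ∧
      (∀ (g : G) i, (g : L ≃ₐ[k] L) (x i) = x (σ g i)) ∧
      (∀ i, c i ∈ Quo G σ F i) ∧ (∀ i, c i ≠ 0) ∧ (∀ i, c' i ∈ Quo G σ F i) ∧ (∀ i, c' i ≠ 0) ∧
      (∀ (g : G) i, (g : L ≃ₐ[k] L) (c i) = c (σ g i)) ∧
      (∀ (g : G) i, (g : L ≃ₐ[k] L) (c' i) = c' (σ g i)) ∧
      (∀ i, GoodAt (Quo G σ F i) N (2 * r * m1) (x i) (c i)) ∧
      (∀ i, GoodAt (Quo G σ F i) N (2 * r * m1) (x i) (c' i)) ∧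
      (∀ i ∈ H, Transcendental k (c' i / c i)) := by
  choose m0 x0 b0 b0' hm0 hx0 hxt0 hb0 hb0ne hb0' hb0ne' hg0 hg0' htr0 using hdata
  let r : ℕ := ∏ i, m0 i
  let m : ℕ := 2 * r * m1
  have hprod : 1 ≤ ∏ i, m0 i := Finset.one_le_prod' fun i _ => hm0 i
  let a : Fin n → ℕ := fun i => 2 * (∏ j ∈ Finset.univ.erase i, m0 j) * m1
  have ham : ∀ i, a i * m0 i = m := fun i => by
    have h1 : (∏ j ∈ Finset.univ.erase i, m0 j) * m0 i = r :=
      Finset.prod_erase_mul _ _ (Finset.mem_univ i)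
    simp only [a, m]
    rw [← h1]
    ring
  have ha1 : ∀ i, 1 ≤ a i := fun i => by
    have h1 : 1 ≤ ∏ j ∈ Finset.univ.erase i, m0 j := Finset.one_le_prod' fun j _ => hm0 j
    simp only [a]
    exact Nat.one_le_iff_ne_zero.2 (by positivity)
  let R : Fin n → (L × L × L) → Prop := fun i t =>
    t.1 ∈ Quo G σ F i ∧ Transcendental k t.1 ∧ t.2.1 ∈ Quo G σ F i ∧ t.2.1 ≠ 0 ∧
      t.2.2 ∈ Quo G σ F i ∧ t.2.2 ≠ 0 ∧ GoodAt (Quo G σ F i) N m t.1 t.2.1 ∧
      GoodAt (Quo G σ F i) N m t.1 t.2.2 ∧ (i ∈ H → Transcendental k (t.2.2 / t.2.1))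
  have htrans : ∀ (g : G) (z : L), Transcendental k z → Transcendental k ((g : L ≃ₐ[k] L) z) :=
    fun g z hz h => hz ((isAlgebraic_algHom_iff (g : L ≃ₐ[k] L).toAlgHom
      (g : L ≃ₐ[k] L).injective).1 h)
  obtain ⟨t, ht, hteq⟩ := hEQV G n σ (L × L × L) R
    (fun g i t ht => by
      obtain ⟨h1, h2, h3, h4, h5, h6, h7, h8, h9⟩ := ht
      have hq := mem_Quo_iff hσ g i
      refine ⟨(hq _).1 h1, htrans g _ h2, (hq _).1 h3, ?_, (hq _).1 h5, ?_, h7.map _ hq,
        h8.map _ hq, fun hi => ?_⟩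
      · exact fun h => h4 ((map_eq_zero_iff _ (g : L ≃ₐ[k] L).injective).1 h)
      · exact fun h => h6 ((map_eq_zero_iff _ (g : L ≃ₐ[k] L).injective).1 h)
      · have h10 : i ∈ H := by
          have := hH g⁻¹ (σ g i) hi
          rwa [map_inv, inv_self] at this
        have h11 := htrans g _ (h9 h10)
        rw [map_div₀] at h11
        exact h11)
    (fun i t ht g hg => by
      obtain ⟨h1, h2, h3, h4, h5, h6, h7, h8, h9⟩ := ht
      exact Prod.ext (quo_fix i g hg h1) (Prod.ext (quo_fix i g hg h3) (quo_fix i g hg h5)))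
    (fun i => ⟨(x0 i, b0 i ^ a i, b0' i ^ a i), hx0 i, hxt0 i, pow_mem (hb0 i) _,
      pow_ne_zero _ (hb0ne i), pow_mem (hb0' i) _, pow_ne_zero _ (hb0ne' i), by
        have := (hg0 i).pow (a i) (ha1 i)
        rwa [ham i] at this, by
        have := (hg0' i).pow (a i) (ha1 i)
        rwa [ham i] at this, fun hi => by
        change Transcendental k (b0' i ^ a i / b0 i ^ a i)
        rw [← div_pow]
        intro halg
        exact htr0 i hi (halg.of_pow (ha1 i))⟩)
  exact ⟨r, fun i => (t i).1, fun i => (t i).2.1, fun i => (t i).2.2, hprod,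
    fun i => (ht i).1, fun i => (ht i).2.1, fun g i => congrArg Prod.fst (hteq g i),
    fun i => (ht i).2.2.1, fun i => (ht i).2.2.2.1, fun i => (ht i).2.2.2.2.1,
    fun i => (ht i).2.2.2.2.2.1, fun g i => congrArg (fun t => t.2.1) (hteq g i),
    fun g i => congrArg (fun t => t.2.2) (hteq g i),
    fun i => (ht i).2.2.2.2.2.2.1, fun i => (ht i).2.2.2.2.2.2.2.1,
    fun i hi => (ht i).2.2.2.2.2.2.2.2 hi⟩

end

end Pool.Agent.W619.Y
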