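import Pool.Agent.W619.Y.LDefs

/-! Quotients of `Y × C 1 × ... × C n`, with boundary: `A¹`-uniruledness. -/

set_option autoImplicit false
set_option linter.overlappingInstances false
set_option linter.unusedSectionVars false

universe u v

open FF IntermediateField Pool.Agent.W619.PQ Pool.Agent.W619.PL Pool.Agent.W619.TW
  Pool.Agent.W603.LV

namespace Pool.Agent.W619.Y

/-- If `Y` is uniruled, then `Y × C 1 × ... × C n` is `A¹`-uniruled, through curves in the fibres of
the projection to the product of the curves. -/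
def S_UNIA : Prop := ∀ (k : Type v) (L : Type u) [Field k] [CharZero k] [IsAlgClosed k]
  [Field L] [Algebra k L] (d n : ℕ) (M : IntermediateField k L)
  (F : Fin n → IntermediateField k L) [∀ i, IsFF k (F i)],
    Algebra.trdeg k M = d → Algebra.trdeg k L = (d + n : ℕ) → M ⊔ (⨆ i, F i) = ⊤ →
    IsUniruled k M d →
      IsA1Uniruled k L (d + n) (fun w => ∃ i, ∃ z ∈ F i, w.ord z ≠ 0)

/-- If one of the curves is rational, with at most one boundary point, then `Y × C 1 × ... × C n` is
`A¹`-uniruled, through curves in the fibres of the projection to the other factors. -/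
def S_NEGA : Prop := ∀ (k : Type v) (L : Type u) [Field k] [CharZero k] [IsAlgClosed k]
  [Field L] [Algebra k L] (d n : ℕ) (M : IntermediateField k L)
  (F : Fin n → IntermediateField k L) [∀ i, IsFF k (F i)] [Algebra.EssFiniteType k M],
    Algebra.trdeg k M = d → Algebra.trdeg k L = (d + n : ℕ) → M ⊔ (⨆ i, F i) = ⊤ →
    ∀ (i : Fin n) (BF : Place k (F i) → Prop), (∃ t : F i, k⟮t⟯ = ⊤) →
      (∀ p p', BF p → BF p' → p = p') →
      IsA1Uniruled k L (d + n) (fun w => (∃ j, j ≠ i ∧ ∃ z ∈ F j, w.ord z ≠ 0) ∨
        ∃ (p : Place k (F i)) (e : ℕ), Over w p e ∧ BF p)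

end Pool.Agent.W619.Y
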