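import Pool.Agent.W619.Y.Stm5

/-! Kodaira dimension through algebraically independent ratios of forms. -/

set_option autoImplicit false
set_option linter.overlappingInstances false
set_option linter.unusedSectionVars false

universe u v

open FF IntermediateField Pool.Agent.W619.PQ Pool.Agent.W619.PL Pool.Agent.W619.TW
  Pool.Agent.W603.LV

namespace Pool.Agent.W619.Y

/-- The Kodaira dimension is at least `h`: for some `m ≥ 1` there are `h + 1` regular `m`-fold
pluricanonical forms whose ratios `ω l / ω 0`, `l = 1, ..., h`, are algebraically independent. -/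
def KodTr (k : Type*) (K : Type*) [Field k] [Field K] [Algebra k K] (n h : ℕ) : Prop :=
  ∃ m : ℕ, 1 ≤ m ∧ ∃ ω : Fin (h + 1) → (Fin n → Derivation k K K) → K,
    (∀ l, IsSec k K n (fun _ => False) {1} m 0 (ω l)) ∧
    ∃ D, (∀ l, ω l D ≠ 0) ∧ AlgebraicIndependent k (fun l : Fin h => ω l.succ D / ω 0 D)

/-- Growth from algebraically independent ratios. -/
def S_TRGE : Prop := ∀ (k : Type v) (K : Type u) [Field k] [CharZero k] [Field K] [Algebra k K]
  (n h : ℕ), Algebra.trdeg k K = n → KodTr k K n h → KodGe k K n (fun _ => False) h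

/-- Pluricanonical forms on quotients of `Y × C 1 × ... × C n` with algebraically independent
ratios; the `a l (dy) ^ m` are forms on `Y`. -/
def S_KOD2T : Prop := ∀ (k : Type v) (L : Type u) [Field k] [CharZero k] [IsAlgClosed k]
  [Field L] [Algebra k L] (d n A : ℕ) (M : IntermediateField k L)
  (F : Fin n → IntermediateField k L) [∀ i, IsFF k (F i)]
  (G : Subgroup (L ≃ₐ[k] L)) [Finite G] (σ : G →* Equiv.Perm (Fin n)),
    Algebra.trdeg k M = d → Algebra.trdeg k L = (d + n : ℕ) →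
    Algebra.IsAlgebraic ↥(M ⊔ ⨆ i, F i) L →
    (∀ (g : G) i, ∀ z ∈ F i, (g : L ≃ₐ[k] L) z ∈ F (σ g i)) →
    ∀ (N m : ℕ), 2 ≤ N → FreeIn N G σ F → 1 ≤ m → Even m →
    ∀ (H : Set (Fin n)) (x c c' : Fin n → L), (∀ (g : G) i, i ∈ H → σ g i ∈ H) →
      (∀ i, x i ∈ Quo G σ F i) → (∀ i, Transcendental k (x i)) →
      (∀ (g : G) i, (g : L ≃ₐ[k] L) (x i) = x (σ g i)) →
      (∀ i, c i ∈ Quo G σ F i) → (∀ i, c i ≠ 0) → (∀ i, c' i ∈ Quo G σ F i) → (∀ i, c' i ≠ 0) →
      (∀ (g : G) i, (g : L ≃ₐ[k] L) (c i) = c (σ g i)) →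
      (∀ (g : G) i, (g : L ≃ₐ[k] L) (c' i) = c' (σ g i)) →
      (∀ i, GoodAt (Quo G σ F i) N m (x i) (c i)) →
      (∀ i, GoodAt (Quo G σ F i) N m (x i) (c' i)) →
      (∀ i ∈ H, Transcendental k (c' i / c i)) →
    ∀ (y : Fin d → M) (a : Fin (A + 1) → M), IsTranscendenceBasis k y → (∀ l, a l ≠ 0) →
      (∀ l, ∀ w : Place k L, IsDivisorial w (d + n) → YGood d m w (fun l => (y l : L)) (a l : L)) →
      AlgebraicIndependent k (fun l : Fin A => a l.succ / a 0) →
      KodTr k (fixedField G) (d + n) (A + H.ncard)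

end Pool.Agent.W619.Y
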