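import Pool.Agent.W619.Y.Up
import Pool.Agent.W619.Y.Stm6

/-! Groups permuting the curves: the conditions on the curves and their quotients. -/

set_option autoImplicit false
set_option linter.overlappingInstances false
set_option linter.unusedSectionVars false

universe u v

open Polynomial FF IntermediateField Pool.Agent.W619.PQ Pool.Agent.W619.PL Pool.Agent.W619.TW
  Pool.Agent.W619.X

namespace Pool.Agent.W619.Y

open Pool.Agent.W603.LV

section

variable {k : Type v} {L : Type u} [Field k] [Field L] [Algebra k L] {n : ℕ}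

/-- Condition for nonvanishing, for a finite group `G` permuting the curves through `σ`: for some
`N ≥ 2`, the fixed locus of each `g ≠ 1` on the product of the curves is empty or of codimension at
least `N`, and for each of the curves, with its quotient by its stabilizer, one of the following
holds: `N ≥ 6` (`4` if `3` does not divide the order of `G`, `3` if the order is odd); or the
quotient is `Wide 4` (irrational or with at least `4` branch points); or there is an orbifold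
divisor of nonnegative degree on the quotient with coefficients at most `1 - 1 / N`; or the curve is
rational. -/
def MixedNonneg (G : Subgroup (L ≃ₐ[k] L)) (σ : G →* Equiv.Perm (Fin n))
    (F : Fin n → IntermediateField k L) : Prop :=
  ∃ N : ℕ, 2 ≤ N ∧ FreeIn N G σ F ∧ ∀ i,
    (6 ≤ N ∨ (4 ≤ N ∧ ¬ 3 ∣ Nat.card G) ∨ (3 ≤ N ∧ ¬ 2 ∣ Nat.card G)) ∨
    Wide 4 (inf_le_left : F i ⊓ fixedField (stb G σ i) ≤ F i) ∅ ∨
    (∃ δ, OrbGe (inf_le_left : F i ⊓ fixedField (stb G σ i) ≤ F i) ∅ δ ∧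
      ∀ q, δ q ≤ 1 - 1 / (N : ℚ)) ∨
    ∃ t : F i, k⟮t⟯ = ⊤

/-- Condition for abundance, for a finite group `G` permuting the curves through `σ`: for some
`N ≥ 2`, the fixed locus of each `g ≠ 1` on the product of the curves is empty or of codimension at
least `N`, and for each of the curves, with its quotient by its stabilizer, one of the following
holds: `N ≥ 7` (`5` if `3` does not divide the order of `G`, `4` if the order is odd); or the
quotient is `Wide 5` (irrational or with at least `5` branch points), or `Wide 4` if the curve is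
elliptic; or there is an orbifold divisor of positive degree (nonnegative degree if the curve is
elliptic) on the quotient with coefficients at most `1 - 1 / N`; or the curve is rational. -/
def MixedPos (G : Subgroup (L ≃ₐ[k] L)) (σ : G →* Equiv.Perm (Fin n))
    (F : Fin n → IntermediateField k L) : Prop :=
  ∃ N : ℕ, 2 ≤ N ∧ FreeIn N G σ F ∧ ∀ i,
    (7 ≤ N ∨ (5 ≤ N ∧ ¬ 3 ∣ Nat.card G) ∨ (4 ≤ N ∧ ¬ 2 ∣ Nat.card G)) ∨
    (Wide 5 (inf_le_left : F i ⊓ fixedField (stb G σ i) ≤ F i) ∅ ∨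
      (IsElliptic (F i) ∧ Wide 4 (inf_le_left : F i ⊓ fixedField (stb G σ i) ≤ F i) ∅)) ∨
    (∃ δ, (OrbGt (inf_le_left : F i ⊓ fixedField (stb G σ i) ≤ F i) ∅ δ ∨
      (IsElliptic (F i) ∧ OrbGe (inf_le_left : F i ⊓ fixedField (stb G σ i) ≤ F i) ∅ δ)) ∧
      ∀ q, δ q ≤ 1 - 1 / (N : ℚ)) ∨
    ∃ t : F i, k⟮t⟯ = ⊤

end

section

variable {k : Type v} {L : Type u} [Field k] [CharZero k] [IsAlgClosed k] [Field L] [Algebra k L]
  {n : ℕ}

theorem index_stb (F : IntermediateField k L) [hF : IsFF k F]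
    (G H : Subgroup (L ≃ₐ[k] L)) [Finite G] [Finite H] (hHG : H ≤ G)
    (hst : ∀ g ∈ H, ∀ z ∈ F, g z ∈ F) {r : ℕ} (hr : ¬ r ∣ Nat.card G) (w : Place k F)
    (q : Place k ↥(F ⊓ fixedField H)) : ¬ LiesOver inf_le_left w q r := by
  intro h
  exact hr (((delta_exists F (hF := hF) H hst ∅ Set.finite_empty 1 le_rfl).2.1 w q r h).trans
    (Subgroup.card_dvd_of_le hHG))

/-- The data for nonvanishing. -/
theorem nonneg_data (G : Subgroup (L ≃ₐ[k] L)) [Finite G] (σ : G →* Equiv.Perm (Fin n))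
    (F : Fin n → IntermediateField k L) [hF : ∀ i, IsFF k (F i)]
    (hσ : ∀ (g : G) i, ∀ z ∈ F i, (g : L ≃ₐ[k] L) z ∈ F (σ g i)) (N : ℕ) (hN : 2 ≤ N) (i : Fin n)
    (hirr : ¬ ∃ t : F i, k⟮t⟯ = ⊤)
    (h : (6 ≤ N ∨ (4 ≤ N ∧ ¬ 3 ∣ Nat.card G) ∨ (3 ≤ N ∧ ¬ 2 ∣ Nat.card G)) ∨
      Wide 4 (inf_le_left : F i ⊓ fixedField (stb G σ i) ≤ F i) ∅ ∨
      (∃ δ, OrbGe (inf_le_left : F i ⊓ fixedField (stb G σ i) ≤ F i) ∅ δ ∧
        ∀ q, δ q ≤ 1 - 1 / (N : ℚ))) :
    ∃ (m : ℕ) (x b : L), 1 ≤ m ∧ x ∈ Quo G σ F i ∧ Transcendental k x ∧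
      b ∈ Quo G σ F i ∧ b ≠ 0 ∧ GoodAt (Quo G σ F i) N m x b := by
  have hst := stb_stable (G := G) (σ := σ) hσ i
  have hδ : ∃ δ : Place k ↥(F i ⊓ fixedField (stb G σ i)) → ℚ,
      (∀ p, 1 / (N : ℚ) ≤ 1 - δ p) ∧
      OrbNonneg (inf_le_left : F i ⊓ fixedField (stb G σ i) ≤ F i) ∅ δ := by
    have hidx : ∀ {r : ℕ}, ¬ r ∣ Nat.card G → ∀ (w : Place k (F i))
        (q : Place k ↥(F i ⊓ fixedField (stb G σ i))), ¬ LiesOver inf_le_left w q r :=
      fun hr w q => index_stb (F i) G (stb G σ i) (stb_le G σ i) hst hr w q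
    rcases h with h | h | h
    · obtain ⟨⟨δ, h1, h2, h3⟩, -⟩ := delta_exists (F i) (hF := hF i) (stb G σ i) hst ∅
        Set.finite_empty N (by omega)
      refine ⟨δ, fun p => h3 p (Set.notMem_empty p), h1, Or.inr ⟨N, h2, ?_⟩⟩
      rcases h with h | ⟨h, h'⟩ | ⟨h, h'⟩
      · exact Or.inl h
      · exact Or.inr (Or.inl ⟨h, fun w q => hidx h' w q⟩)
      · exact Or.inr (Or.inr (Or.inl ⟨h, fun w q => hidx h' w q⟩))
    · obtain ⟨δ, h1, h2, h3, -⟩ := half_factor (F i) (hF := hF i) (stb G σ i) hst ∅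
        Set.finite_empty
      refine ⟨δ, fun p => ?_, h3 h⟩
      have h4 := h2 p (Set.notMem_empty p)
      have h5 : 1 / (N : ℚ) ≤ 1 / 2 :=
        one_div_le_one_div_of_le (by norm_num) (by exact_mod_cast hN)
      linarith
    · obtain ⟨δ, h1, h2⟩ := h
      exact ⟨δ, fun p => by linarith [h2 p], h1.nonneg⟩
  obtain ⟨δ, h1, h2⟩ := hδ
  exact data_nonneg (F i) (hF := hF i) hirr (stb G σ i) hst N (by omega) δ h1 h2

/-- The data for abundance. -/
theorem pos_data (G : Subgroup (L ≃ₐ[k] L)) [Finite G] (σ : G →* Equiv.Perm (Fin n))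
    (F : Fin n → IntermediateField k L) [hF : ∀ i, IsFF k (F i)]
    (hσ : ∀ (g : G) i, ∀ z ∈ F i, (g : L ≃ₐ[k] L) z ∈ F (σ g i)) (N : ℕ) (hN : 2 ≤ N) (i : Fin n)
    (hirr : ¬ ∃ t : F i, k⟮t⟯ = ⊤)
    (h : (7 ≤ N ∨ (5 ≤ N ∧ ¬ 3 ∣ Nat.card G) ∨ (4 ≤ N ∧ ¬ 2 ∣ Nat.card G)) ∨
    (Wide 5 (inf_le_left : F i ⊓ fixedField (stb G σ i) ≤ F i) ∅ ∨
      (IsElliptic (F i) ∧ Wide 4 (inf_le_left : F i ⊓ fixedField (stb G σ i) ≤ F i) ∅)) ∨
    (∃ δ, (OrbGt (inf_le_left : F i ⊓ fixedField (stb G σ i) ≤ F i) ∅ δ ∨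
      (IsElliptic (F i) ∧ OrbGe (inf_le_left : F i ⊓ fixedField (stb G σ i) ≤ F i) ∅ δ)) ∧
      ∀ q, δ q ≤ 1 - 1 / (N : ℚ))) :
    ∃ (m : ℕ) (x b b' : L), 1 ≤ m ∧ x ∈ Quo G σ F i ∧ Transcendental k x ∧
      b ∈ Quo G σ F i ∧ b ≠ 0 ∧ b' ∈ Quo G σ F i ∧ b' ≠ 0 ∧
      GoodAt (Quo G σ F i) N m x b ∧ GoodAt (Quo G σ F i) N m x b' ∧
      (¬ IsElliptic (F i) → Transcendental k (b' / b)) := by
  have hst := stb_stable (G := G) (σ := σ) hσ i
  by_cases hell : IsElliptic (F i)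
  · obtain ⟨m, x, b, h1, h2, h3, h4, h5, h6⟩ := nonneg_data G σ F hσ N hN i hirr (by
      rcases h with h | h | ⟨δ, h, h'⟩
      · left
        rcases h with h | h | h
        · left; omega
        · right; left; exact ⟨by omega, h.2⟩
        · right; right; exact ⟨by omega, h.2⟩
      · right; left
        rcases h with h | ⟨-, h⟩
        · exact h.imp id fun h8 => by omega
        · exact h
      · right; right
        refine ⟨δ, ?_, h'⟩
        rcases h with ⟨h1, d, h2, h3⟩ | ⟨-, h⟩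
        · exact ⟨h1, d, h2, h3.le⟩
        · exact h)
    exact ⟨m, x, b, b, h1, h2, h3, h4, h5, h4, h5, h6, h6, fun h => absurd hell h⟩
  have hδ : ∃ δ : Place k ↥(F i ⊓ fixedField (stb G σ i)) → ℚ,
      (∀ p, 1 / (N : ℚ) ≤ 1 - δ p) ∧
      OrbPos (inf_le_left : F i ⊓ fixedField (stb G σ i) ≤ F i) ∅ δ := by
    have hidx : ∀ {r : ℕ}, ¬ r ∣ Nat.card G → ∀ (w : Place k (F i))
        (q : Place k ↥(F i ⊓ fixedField (stb G σ i))), ¬ LiesOver inf_le_left w q r :=
      fun hr w q => index_stb (F i) G (stb G σ i) (stb_le G σ i) hst hr w q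
    rcases h with h | h | h
    · obtain ⟨⟨δ, h1, h2, h3⟩, -⟩ := delta_exists (F i) (hF := hF i) (stb G σ i) hst ∅
        Set.finite_empty N (by omega)
      refine ⟨δ, fun p => h3 p (Set.notMem_empty p), h1, Or.inr ⟨N, h2, ?_⟩⟩
      rcases h with h | ⟨h, h'⟩ | ⟨h, h'⟩
      · exact Or.inl h
      · exact Or.inr (Or.inl ⟨h, fun w q => hidx h' w q⟩)
      · exact Or.inr (Or.inr (Or.inl ⟨h, fun w q => hidx h' w q⟩))
    · obtain ⟨δ, h1, h2, -, h3⟩ := half_factor (F i) (hF := hF i) (stb G σ i) hst ∅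
        Set.finite_empty
      have h6 : Wide 5 (inf_le_left : F i ⊓ fixedField (stb G σ i) ≤ F i) ∅ := by
        rcases h with h | h
        · exact h
        · exact absurd h.1 hell
      refine ⟨δ, fun p => ?_, h3 h6 ?_ ?_⟩
      · have h4 := h2 p (Set.notMem_empty p)
        have h5 : 1 / (N : ℚ) ≤ 1 / 2 :=
          one_div_le_one_div_of_le (by norm_num) (by exact_mod_cast hN)
        linarith
      · rw [isNegative_iff]; exact hirr
      · rw [isFlat_iff]; exact hell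
    · obtain ⟨δ, h1, h2⟩ := h
      rcases h1 with h1 | ⟨h1, -⟩
      · exact ⟨δ, fun p => by linarith [h2 p], h1.pos⟩
      · exact absurd h1 hell
  obtain ⟨δ, h1, h2⟩ := hδ
  obtain ⟨m, x, b, b', h3, h4, h5, h6, h7, h8, h9, h10, h11, h12⟩ :=
    data_pos (F i) (hF := hF i) hirr hell (stb G σ i) hst N (by omega) δ h1 h2
  exact ⟨m, x, b, b', h3, h4, h5, h6, h7, h8, h9, h10, h11, fun _ => h12⟩

end

end Pool.Agent.W619.Y
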