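import Pool.Agent.W619.Y.Loc
import Pool.Agent.W619.X.Fin

/-! Existence of good forms on the quotient curves. -/

set_option autoImplicit false
set_option linter.overlappingInstances false
set_option linter.unusedSectionVars false

universe u v

open Polynomial FF IntermediateField Pool.Agent.W619.PQ Pool.Agent.W619.PL Pool.Agent.W619.TW
  Pool.Agent.W619.X

namespace Pool.Agent.W619.Y

open Pool.Agent.W603.LV

section

variable {k : Type v} {L : Type u} [Field k] [CharZero k] [IsAlgClosed k] [Field L] [Algebra k L]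

theorem data_nonneg (F : IntermediateField k L) [hF : IsFF k F] (hirr : ¬ ∃ t : F, k⟮t⟯ = ⊤)
    (H : Subgroup (L ≃ₐ[k] L)) [Finite H] (hst : ∀ g ∈ H, ∀ z ∈ F, g z ∈ F) (N : ℕ) (hN : 1 ≤ N)
    (δ : Place k ↥(F ⊓ fixedField H) → ℚ) (hδN : ∀ p, 1 / (N : ℚ) ≤ 1 - δ p)
    (hδ : OrbNonneg (inf_le_left : F ⊓ fixedField H ≤ F) ∅ δ) :
    ∃ (m : ℕ) (x b : L), 1 ≤ m ∧ x ∈ F ⊓ fixedField H ∧ Transcendental k x ∧
      b ∈ F ⊓ fixedField H ∧ b ≠ 0 ∧ GoodAt (F ⊓ fixedField H) N m x b := by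
  classical
  let _ : Algebra ↥(F ⊓ fixedField H) F :=
    (inclusion (inf_le_left : F ⊓ fixedField H ≤ F)).toRingHom.toAlgebra
  have t1 : IsScalarTower k ↥(F ⊓ fixedField H) F := IsScalarTower.of_algebraMap_eq fun c => rfl
  have f1 : FiniteDimensional ↥(F ⊓ fixedField H) F := inf_finite H F hst fun z => rfl
  have f2 : IsFF k ↥(F ⊓ fixedField H) := isFF_down (E := F)
  have hfix : ∀ (g : H) (z : ↥(F ⊓ fixedField H)),
      rho H F hst g (algebraMap ↥(F ⊓ fixedField H) F z) = algebraMap ↥(F ⊓ fixedField H) F z := by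
    intro g z
    apply Subtype.ext
    exact z.2.2 g
  have hinv : ∀ z : F, (∀ g, rho H F hst g z = z) →
      ∃ z0, algebraMap ↥(F ⊓ fixedField H) F z0 = z := by
    intro z hz
    refine ⟨⟨(z : L), z.2, fun g => ?_⟩, rfl⟩
    exact congrArg (Subtype.val : F → L) (hz g)
  obtain ⟨⟨hfin, h01⟩, hadm⟩ := hδ
  obtain ⟨m, D0, c, hm, hD0, hc, hg⟩ := exists_goodX (E := F) (rho H F hst) hfix hinv
    (fun _ => False) (hasLog_of_nonrational (E0 := ↥(F ⊓ fixedField H)) (E := F) _ hirr) δ hfin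
    (fun q => ⟨(h01 q).1, (h01 q).2.1⟩) (by
      rcases hadm with ⟨d, ⟨D, o, hD, ho, hd⟩, hd0⟩ | ⟨M, hat, hM⟩
      · exact Or.inl ⟨D, o, hD, ho, by rw [← hd]; exact hd0⟩
      · refine Or.inr ⟨M, fun q => ⟨fun h => h.elim, fun _ w e he =>
          (hat q).2 (Set.notMem_empty q) w e he⟩, ?_⟩
        rcases hM with h | ⟨h, h'⟩ | ⟨h, h'⟩ | ⟨h, h'⟩
        · exact Or.inl h
        · exact Or.inr (Or.inl ⟨h, fun w q hw => h' w q hw⟩)
        · exact Or.inr (Or.inr (Or.inl ⟨h, fun w q hw => h' w q hw⟩))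
        · exact absurd h' Set.not_nonempty_empty)
  obtain ⟨x, hx⟩ := IsFF.exists_transcendental (k := k) (K := ↥(F ⊓ fixedField H))
  refine ⟨m, x, _, hm, x.2, transcendental_map' hx, (c / (D0 x) ^ m).2, ?_,
    loc F H hst N m hN (fun q => 1 - δ q) D0 c x hδN ?_ hD0 hc hx hg⟩
  · intro h
    have h1 : c / (D0 x) ^ m = 0 := Subtype.ext h
    exact div_ne_zero hc (pow_ne_zero _ (der_ne_zero hD0 hx)) h1
  · intro p q e he
    have h1 := (h01 p).2.2 (Set.notMem_empty p) q e he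
    have h2 : (0 : ℚ) < e := by exact_mod_cast he.1
    have h3 : (e : ℚ) * (1 / e) ≤ e * (1 - δ p) := mul_le_mul_of_nonneg_left (by linarith) h2.le
    rw [mul_one_div_cancel h2.ne'] at h3
    exact h3

theorem data_pos (F : IntermediateField k L) [hF : IsFF k F] (hirr : ¬ ∃ t : F, k⟮t⟯ = ⊤)
    (hell : ¬ IsElliptic F)
    (H : Subgroup (L ≃ₐ[k] L)) [Finite H] (hst : ∀ g ∈ H, ∀ z ∈ F, g z ∈ F) (N : ℕ) (hN : 1 ≤ N)
    (δ : Place k ↥(F ⊓ fixedField H) → ℚ) (hδN : ∀ p, 1 / (N : ℚ) ≤ 1 - δ p)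
    (hδ : OrbPos (inf_le_left : F ⊓ fixedField H ≤ F) ∅ δ) :
    ∃ (m : ℕ) (x b b' : L), 1 ≤ m ∧ x ∈ F ⊓ fixedField H ∧ Transcendental k x ∧
      b ∈ F ⊓ fixedField H ∧ b ≠ 0 ∧ b' ∈ F ⊓ fixedField H ∧ b' ≠ 0 ∧
      GoodAt (F ⊓ fixedField H) N m x b ∧ GoodAt (F ⊓ fixedField H) N m x b' ∧
      Transcendental k (b' / b) := by
  classical
  let _ : Algebra ↥(F ⊓ fixedField H) F :=
    (inclusion (inf_le_left : F ⊓ fixedField H ≤ F)).toRingHom.toAlgebra
  have t1 : IsScalarTower k ↥(F ⊓ fixedField H) F := IsScalarTower.of_algebraMap_eq fun c => rfl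
  have f1 : FiniteDimensional ↥(F ⊓ fixedField H) F := inf_finite H F hst fun z => rfl
  have f2 : IsFF k ↥(F ⊓ fixedField H) := isFF_down (E := F)
  have hfix : ∀ (g : H) (z : ↥(F ⊓ fixedField H)),
      rho H F hst g (algebraMap ↥(F ⊓ fixedField H) F z) = algebraMap ↥(F ⊓ fixedField H) F z := by
    intro g z
    apply Subtype.ext
    exact z.2.2 g
  have hinv : ∀ z : F, (∀ g, rho H F hst g z = z) →
      ∃ z0, algebraMap ↥(F ⊓ fixedField H) F z0 = z := by
    intro z hz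
    refine ⟨⟨(z : L), z.2, fun g => ?_⟩, rfl⟩
    exact congrArg (Subtype.val : F → L) (hz g)
  have hUB : (UB1 F (fun _ : Place k ↥(F ⊓ fixedField H) => False)).Finite := by
    have : UB1 F (fun _ : Place k ↥(F ⊓ fixedField H) => False) = ∅ := by
      ext q
      simp [UB1]
    rw [this]
    exact Set.finite_empty
  have hpos : 0 < canDeg k F +
      (UB1 F (fun _ : Place k ↥(F ⊓ fixedField H) => False)).ncard := by
    have h1 : (UB1 F (fun _ : Place k ↥(F ⊓ fixedField H) => False)).ncard = 0 := by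
      have : UB1 F (fun _ : Place k ↥(F ⊓ fixedField H) => False) = ∅ := by
        ext q
        simp [UB1]
      rw [this, Set.ncard_empty]
    have h2 := canDeg_nonneg hirr
    have h3 : canDeg k F + (UB1 F (fun _ : Place k ↥(F ⊓ fixedField H) => False)).ncard ≠ 0 := by
      intro h0
      apply hell
      obtain ⟨D', hD'⟩ := der_of_flat (E := F) hUB
        (hasLog_of_nonrational (E0 := ↥(F ⊓ fixedField H)) (E := F) _ hirr) h0
      refine ⟨D', fun w t ht => ?_⟩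
      obtain ⟨a1, a2, a3⟩ := hD' w t ht
      refine ⟨a1, a3 ?_⟩
      rintro ⟨p, r, -, h⟩
      exact h
    rw [h1] at h3 ⊢
    push_cast at h3 ⊢
    omega
  obtain ⟨⟨hfin, h01⟩, hadm⟩ := hδ
  obtain ⟨m, D0, c, c', hm, hD0, hc, hc', hg, hg', htr⟩ := exists_two_goodX (E := F)
    (rho H F hst) hfix hinv (fun _ => False) hUB hpos δ hfin
    (fun q => ⟨(h01 q).1, (h01 q).2.1⟩) (by
      rcases hadm with ⟨d, ⟨D, o, hD, ho, hd⟩, hd0⟩ | ⟨M, hat, hM⟩
      · exact Or.inl ⟨D, o, hD, ho, by rw [← hd]; exact hd0⟩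
      · refine Or.inr ⟨M, fun q => ⟨fun h => h.elim, fun _ w e he =>
          (hat q).2 (Set.notMem_empty q) w e he⟩, ?_⟩
        rcases hM with h | ⟨h, h'⟩ | ⟨h, h'⟩ | ⟨h, h'⟩
        · exact Or.inl h
        · exact Or.inr (Or.inl ⟨h, fun w q hw => h' w q hw⟩)
        · exact Or.inr (Or.inr (Or.inl ⟨h, fun w q hw => h' w q hw⟩))
        · exact absurd h' Set.not_nonempty_empty)
  obtain ⟨x, hx⟩ := IsFF.exists_transcendental (k := k) (K := ↥(F ⊓ fixedField H))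
  have hXe : ∀ p (q : Place k F) e, LiesOver (inf_le_left : F ⊓ fixedField H ≤ F) q p e →
      1 ≤ (e : ℚ) * (1 - δ p) := by
    intro p q e he
    have h1 := (h01 p).2.2 (Set.notMem_empty p) q e he
    have h2 : (0 : ℚ) < e := by exact_mod_cast he.1
    have h3 : (e : ℚ) * (1 / e) ≤ e * (1 - δ p) := mul_le_mul_of_nonneg_left (by linarith) h2.le
    rw [mul_one_div_cancel h2.ne'] at h3
    exact h3
  have hDx := der_ne_zero hD0 hx
  have hne : ∀ c : ↥(F ⊓ fixedField H), c ≠ 0 →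
      ((c / (D0 x) ^ m : ↥(F ⊓ fixedField H)) : L) ≠ 0 := by
    intro c hc h
    have h1 : c / (D0 x) ^ m = 0 := Subtype.ext h
    exact div_ne_zero hc (pow_ne_zero _ hDx) h1
  refine ⟨m, x, ((c / (D0 x) ^ m : ↥(F ⊓ fixedField H)) : L),
    ((c' / (D0 x) ^ m : ↥(F ⊓ fixedField H)) : L), hm, x.2, transcendental_map' hx,
    (c / (D0 x) ^ m).2, hne c hc, (c' / (D0 x) ^ m).2, hne c' hc',
    loc F H hst N m hN (fun q => 1 - δ q) D0 c x hδN hXe hD0 hc hx hg,
    loc F H hst N m hN (fun q => 1 - δ q) D0 c' x hδN hXe hD0 hc' hx hg', ?_⟩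
  have h1 : ((c' / (D0 x) ^ m : ↥(F ⊓ fixedField H)) : L) /
      ((c / (D0 x) ^ m : ↥(F ⊓ fixedField H)) : L) = ((c' / c : ↥(F ⊓ fixedField H)) : L) := by
    have h2 : c' / (D0 x) ^ m / (c / (D0 x) ^ m) = c' / c := by
      have := pow_ne_zero m hDx
      field_simp
    rw [← h2]
    rfl
  rw [h1]
  exact transcendental_map' htr

end

end Pool.Agent.W619.Y
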