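import Pool.Agent.W619.TW.NDefs

/-! Groups permuting the factors: definitions. -/

set_option autoImplicit false
set_option linter.overlappingInstances false
set_option linter.unusedSectionVars false

universe u v

open FF IntermediateField Pool.Agent.W619.PQ Pool.Agent.W619.PL Pool.Agent.W619.TW

namespace Pool.Agent.W619.Y

section

variable {k : Type v} {L : Type u} [Field k] [Field L] [Algebra k L] {n : ℕ}

/-- The group of the elements of `G` which map the `i`-th curve to itself, where `G` permutes the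
curves through `σ`. -/
def stb (G : Subgroup (L ≃ₐ[k] L)) (σ : G →* Equiv.Perm (Fin n)) (i : Fin n) :
    Subgroup (L ≃ₐ[k] L) where
  carrier := {g | ∃ h : G, σ h i = i ∧ (h : L ≃ₐ[k] L) = g}
  mul_mem' := by
    rintro _ _ ⟨a, ha, rfl⟩ ⟨b, hb, rfl⟩
    exact ⟨a * b, by rw [map_mul, Equiv.Perm.mul_apply, hb, ha], rfl⟩
  one_mem' := ⟨1, by rw [map_one]; rfl, rfl⟩
  inv_mem' := by
    rintro _ ⟨a, ha, rfl⟩
    exact ⟨a⁻¹, by rw [map_inv, Equiv.Perm.inv_eq_iff_eq, ha], rfl⟩

/-- The dimension of the fixed locus of `g` on the product of the curves (if `g` has a fixed point):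
the number of orbits of the powers of `g` on the curves such that the powers of `g` which map a
curve of the orbit to itself are trivial on it. The orbits are counted by their least elements. -/
noncomputable def fixDim (G : Subgroup (L ≃ₐ[k] L)) (σ : G →* Equiv.Perm (Fin n))
    (F : Fin n → IntermediateField k L) (g : G) : ℕ :=
  {i | (∀ r : ℕ, i ≤ σ (g ^ r) i) ∧
    ∀ r : ℕ, σ (g ^ r) i = i → ∀ z ∈ F i, ((g ^ r : G) : L ≃ₐ[k] L) z = z}.ncard

/-- `g` has a fixed point on the product of the curves: each power of `g` which maps one of the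
curves to itself has a fixed point on it. -/
def HasFix (G : Subgroup (L ≃ₐ[k] L)) (σ : G →* Equiv.Perm (Fin n))
    (F : Fin n → IntermediateField k L) (g : G) : Prop :=
  ∀ (i : Fin n) (r : ℕ), σ (g ^ r) i = i →
    (∀ z ∈ F i, ((g ^ r : G) : L ≃ₐ[k] L) z = z) ∨
    ∃ q : Place k (F i), ∀ z z' : F i, ((g ^ r : G) : L ≃ₐ[k] L) z = z' → q.ord z' = q.ord z

/-- The fixed locus of each `g ≠ 1` in `G` on the product of the curves is empty or of codimension
at least `N`. -/
def FreeIn (N : ℕ) (G : Subgroup (L ≃ₐ[k] L)) (σ : G →* Equiv.Perm (Fin n))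
    (F : Fin n → IntermediateField k L) : Prop :=
  ∀ g : G, g ≠ 1 → HasFix G σ F g → fixDim G σ F g + N ≤ n

/-- The `i`-th quotient curve, as a subfield of `L`. -/
def Quo (G : Subgroup (L ≃ₐ[k] L)) (σ : G →* Equiv.Perm (Fin n))
    (F : Fin n → IntermediateField k L) (i : Fin n) : IntermediateField k L :=
  F i ⊓ fixedField (stb G σ i)

/-- The `m`-form `b (dx) ^ m` on the curve `Q` has, at every place `w` of `L` which is not trivial on
`Q` (with `u` in `Q` a uniformizer there), logarithmic order at least `m w(u) / N` and at least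
`m`. -/
def GoodAt (Q : IntermediateField k L) (N m : ℕ) (x b : L) : Prop :=
  ∀ (w : Place k L) (u : L), u ∈ Q → 0 < w.ord u → (∀ z ∈ Q, z ≠ 0 → w.ord u ∣ w.ord z) →
    ∀ ρ : L, (∀ D : Derivation k L L, D x = ρ * D u) →
      (m : ℤ) * w.ord u ≤ N * w.ord (b * (ρ * u) ^ m) ∧ (m : ℤ) ≤ w.ord (b * (ρ * u) ^ m)

end

end Pool.Agent.W619.Y
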