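import Pool.Agent.W619.Y.Stm11

/-! Project PG (owner helper619), part DEN: common denominators (written by
helper591). -/

set_option autoImplicit false

universe u v

open IntermediateField

namespace Pool.Agent.W619.Y.Den

section
variable {k : Type v} {L : Type u} [Field k] [Field L] [Algebra k L] {n : ℕ}
  (F : Fin n → IntermediateField k L) (P : Set (Fin n))

/-- the span of the products -/
def sp (H : ∀ i, Finset (F i)) : Submodule k L := Submodule.span k
        {z : L | ∃ h : ∀ i, F i, (∀ i, h i ∈ H i) ∧ z = ∏ i, (h i : L)}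

/-- admissible families -/
def Ok (H : ∀ i, Finset (F i)) : Prop := (∀ i ∉ P, ∀ h ∈ H i, h = 1) ∧ (∀ i, 1 ∈ H i)

theorem sp_mono (H H' : ∀ i, Finset (F i)) (h : ∀ i, H i ⊆ H' i) : sp F H ≤ sp F H' := by
  refine Submodule.span_mono ?_
  rintro z ⟨f, hf, rfl⟩
  exact ⟨f, fun i => h i (hf i), rfl⟩

theorem exists_union (H H' : ∀ i, Finset (F i)) (h : Ok F P H) (h' : Ok F P H') :
    ∃ H'', Ok F P H'' ∧ sp F H ≤ sp F H'' ∧ sp F H' ≤ sp F H'' := by
  classical
  refine ⟨fun i => H i ∪ H' i, ⟨?_, fun i => Finset.mem_union_left _ (h.2 i)⟩,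
    sp_mono F _ _ fun i => Finset.subset_union_left,
    sp_mono F _ _ fun i => Finset.subset_union_right⟩
  intro i hi x hx
  rcases Finset.mem_union.mp hx with hx | hx
  · exact h.1 i hi x hx
  · exact h'.1 i hi x hx

theorem mul_mem_sp (H H' : ∀ i, Finset (F i)) (h : Ok F P H) (h' : Ok F P H') (x y : L)
    (hx : x ∈ sp F H) (hy : y ∈ sp F H') : ∃ H'', Ok F P H'' ∧ x * y ∈ sp F H'' := by
  classical
  refine ⟨fun i => Finset.image₂ (fun a b => a * b) (H i) (H' i), ⟨?_, ?_⟩, ?_⟩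
  · intro i hi z hz
    obtain ⟨a, ha, b, hb, rfl⟩ := Finset.mem_image₂.mp hz
    rw [h.1 i hi a ha, h'.1 i hi b hb, mul_one]
  · intro i
    exact Finset.mem_image₂.mpr ⟨1, h.2 i, 1, h'.2 i, mul_one 1⟩
  · have h1 : x * y ∈ sp F H * sp F H' := Submodule.mul_mem_mul hx hy
    unfold sp at h1 ⊢
    rw [Submodule.span_mul_span] at h1
    refine Submodule.span_mono ?_ h1
    rintro z ⟨a, ⟨f, hf, rfl⟩, b, ⟨f', hf', rfl⟩, rfl⟩
    refine ⟨fun i => f i * f' i, fun i => Finset.mem_image₂.mpr ⟨_, hf i, _, hf' i, rfl⟩, ?_⟩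
    simp [Finset.prod_mul_distrib]

/-- the algebra of all finite sums of products -/
def Alg : Subalgebra k L where
  carrier := {z | ∃ H, Ok F P H ∧ z ∈ sp F H}
  mul_mem' := by
    rintro x y ⟨H, h, hx⟩ ⟨H', h', hy⟩
    exact mul_mem_sp F P H H' h h' x y hx hy
  add_mem' := by
    rintro x y ⟨H, h, hx⟩ ⟨H', h', hy⟩
    obtain ⟨H'', h1, h2, h3⟩ := exists_union F P H H' h h'
    exact ⟨H'', h1, Submodule.add_mem _ (h2 hx) (h3 hy)⟩
  algebraMap_mem' := by
    intro c
    refine ⟨fun i => {1}, ⟨fun i _ x hx => by simpa using hx, fun i => by simp⟩, ?_⟩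
    rw [Algebra.algebraMap_eq_smul_one]
    refine Submodule.smul_mem _ _ (Submodule.subset_span ⟨fun i => 1, fun i => by simp, by simp⟩)

theorem mem_Alg (i : Fin n) (hi : i ∈ P) (z : L) (hz : z ∈ F i) : z ∈ Alg F P := by
  classical
  refine ⟨Function.update (fun i => {1}) i {1, ⟨z, hz⟩}, ⟨?_, ?_⟩, ?_⟩
  · intro j hj x hx
    have hji : j ≠ i := fun h => hj (h ▸ hi)
    rw [Function.update_of_ne hji] at hx
    simpa using hx
  · intro j
    by_cases hji : j = i
    · subst hji; simp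
    · rw [Function.update_of_ne hji]; simp
  · refine Submodule.subset_span ⟨Function.update (fun i => 1) i ⟨z, hz⟩, ?_, ?_⟩
    · intro j
      by_cases hji : j = i
      · subst hji; simp
      · rw [Function.update_of_ne hji, Function.update_of_ne hji]; simp
    · rw [Finset.prod_eq_single i]
      · simp
      · intro j _ hji
        rw [Function.update_of_ne hji]; simp
      · intro h; exact absurd (Finset.mem_univ i) h

theorem exists_div (z : L) (hz : z ∈ ⨆ i : P, F i) :
    ∃ r ∈ Alg F P, ∃ s ∈ Alg F P, s ≠ 0 ∧ z * s = r := by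
  have h1 : (⨆ i : P, F i) ≤ IntermediateField.adjoin k (⋃ i : P, (F i : Set L)) := by
    refine iSup_le fun i => ?_
    intro x hx
    exact IntermediateField.subset_adjoin _ _ (Set.mem_iUnion.mpr ⟨i, hx⟩)
  obtain ⟨r, hr, s, hs, hrs⟩ := IntermediateField.mem_adjoin_iff_div.mp (h1 hz)
  have h2 : Algebra.adjoin k (⋃ i : P, (F i : Set L)) ≤ Alg F P := by
    refine Algebra.adjoin_le ?_
    intro x hx
    obtain ⟨i, hx⟩ := Set.mem_iUnion.mp hx
    exact mem_Alg F P i i.2 x hx
  by_cases h0 : s = 0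
  · refine ⟨0, (Alg F P).zero_mem, 1, (Alg F P).one_mem, one_ne_zero, ?_⟩
    rw [hrs, h0]; simp
  · exact ⟨r, h2 hr, s, h2 hs, h0, by rw [hrs]; field_simp⟩

theorem exists_g (T : Finset L) (hT : ∀ t ∈ T, t ∈ ⨆ i : P, F i) :
    ∃ g ∈ Alg F P, g ≠ 0 ∧ ∀ t ∈ T, g * t ∈ Alg F P := by
  classical
  induction T using Finset.induction_on with
  | empty => exact ⟨1, (Alg F P).one_mem, one_ne_zero, by simp⟩
  | insert a T _ ih =>
    obtain ⟨g, hg, hg0, hgT⟩ := ih fun t ht => hT t (Finset.mem_insert_of_mem ht)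
    obtain ⟨r, hr, s, hs, hs0, hrs⟩ := exists_div F P a (hT a (Finset.mem_insert_self _ _))
    refine ⟨g * s, (Alg F P).mul_mem hg hs, mul_ne_zero hg0 hs0, ?_⟩
    intro t ht
    rcases Finset.mem_insert.mp ht with rfl | ht
    · have : g * s * t = g * r := by rw [← hrs]; ring
      rw [this]; exact (Alg F P).mul_mem hg hr
    · have : g * s * t = (g * t) * s := by ring
      rw [this]; exact (Alg F P).mul_mem (hgT t ht) hs

theorem exists_H (S : Finset L) (hS : ∀ s ∈ S, s ∈ Alg F P) :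
    ∃ H, Ok F P H ∧ ∀ s ∈ S, s ∈ sp F H := by
  classical
  induction S using Finset.induction_on with
  | empty => exact ⟨fun i => {1}, ⟨fun i _ x hx => by simpa using hx, fun i => by simp⟩, by simp⟩
  | insert a S _ ih =>
    obtain ⟨H, h, hH⟩ := ih fun t ht => hS t (Finset.mem_insert_of_mem ht)
    obtain ⟨H', h', hH'⟩ := hS a (Finset.mem_insert_self _ _)
    obtain ⟨H'', h1, h2, h3⟩ := exists_union F P H H' h h'
    refine ⟨H'', h1, fun s hs => ?_⟩
    rcases Finset.mem_insert.mp hs with rfl | hs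
    · exact h3 hH'
    · exact h2 (hH s hs)

end

theorem main : Pool.Agent.W619.Y.S_DEN.{u, v} := by
  classical
  intro k L _ _ _ n F P T hT
  obtain ⟨g, hg, hg0, hgT⟩ := exists_g F P T hT
  obtain ⟨H, h, hH⟩ := exists_H F P (insert g (T.image fun t => g * t)) (by
    intro s hs
    rcases Finset.mem_insert.mp hs with rfl | hs
    · exact hg
    · obtain ⟨t, ht, rfl⟩ := Finset.mem_image.mp hs
      exact hgT t ht)
  refine ⟨g, H, hg0, h.1, h.2, ?_⟩
  intro s hs
  rcases hs with rfl | hs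
  · rw [mul_one]; exact hH g (Finset.mem_insert_self _ _)
  · exact hH _ (Finset.mem_insert_of_mem (Finset.mem_image_of_mem _ hs))

end Pool.Agent.W619.Y.Den
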