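import Pool.Agent.W619.Y.FinN

/-! Passage to the quotient: upper bounds. -/

set_option autoImplicit false
set_option linter.overlappingInstances false
set_option linter.unusedSectionVars false

universe u v

open Polynomial FF IntermediateField Pool.Agent.W619.PQ Pool.Agent.W619.PL Pool.Agent.W619.TW
  Pool.Agent.W619.X

namespace Pool.Agent.W619.Y

open Pool.Agent.W603.LV

section

variable {k : Type v} {L : Type u} [Field k] [CharZero k] [IsAlgClosed k] [Field L] [Algebra k L]

theorem ess_top {n : ℕ} (M : IntermediateField k L) [hM : Algebra.EssFiniteType k M]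
    (F : Fin n → IntermediateField k L) [hF : ∀ i, IsFF k (F i)] (hsup : M ⊔ (⨆ i, F i) = ⊤) :
    Algebra.EssFiniteType k L := by
  have h1 : Algebra.EssFiniteType k ↥(M ⊔ ⨆ i, F i) :=
    essFiniteType_iff.2 (fg_sup (essFiniteType_iff.1 hM)
      (fg_iSup fun j => essFiniteType_iff.1 (IsFF.ess)))
  rw [hsup] at h1
  exact (Algebra.EssFiniteType.iff_of_algEquiv (IntermediateField.topEquiv (F := k) (E := L))).1 h1

theorem down (r : ℕ) (hn : Algebra.trdeg k L = r) [Algebra.EssFiniteType k L]
    (G : Subgroup (L ≃ₐ[k] L)) [Finite G] :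
    (IsPsef k (fixedField G) r (fun _ => False) → IsPsef k L r (fun _ => False)) ∧
    (NumNeg k L r (fun _ => False) → NumNeg k (fixedField G) r (fun _ => False)) ∧
    ∀ h, NumLe k L r (fun _ => False) h → NumLe k (fixedField G) r (fun _ => False) h := by
  have hfinL : FiniteDimensional (fixedField G) L := by
    have hGal : IsGaloisGroup G (fixedField G) L := isGaloisGroup_fixed G
    exact IsGaloisGroup.finiteDimensional G (fixedField G) L
  have hnK : Algebra.trdeg k (fixedField G) = r := by
    rw [← hn, ← trdeg_add_eq k (fixedField G) (A := L),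
      trdeg_eq_zero (R := fixedField G) (A := L), add_zero]
  have h := pTRANS k (fixedField G) L r hnK
    (fun y hy => fin_over_adjoin r (fixedField G) y hy) (fun _ => False)
  rw [bdUp_false] at h
  exact h

theorem uniruled_down {r : ℕ} (G : Subgroup (L ≃ₐ[k] L)) (h : IsUniruled k L r) :
    IsUniruled k (fixedField G) r := by
  obtain ⟨M, h1, h2, h3, h4, ⟨f⟩⟩ := h
  exact ⟨M, h1, h2, h3, h4, ⟨f.comp (fixedField G).val⟩⟩

end

end Pool.Agent.W619.Y
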