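import Pool.Agent.W619.Y.Stm

/-! Logarithmic derivations under extensions: a copy of `Pool.Agent.W381.PG.Log` (helper381) under
another name, since its main theorem has the same name as that of `Pool.Agent.W381.PG.GAUSS`. -/

set_option autoImplicit false
set_option linter.overlappingInstances false
set_option linter.unusedSectionVars false

universe u v

open FF IntermediateField Pool.Agent.W619.PQ Pool.Agent.W619.PL Pool.Agent.W619.TW
  Pool.Agent.W603.LV

namespace Pool.Agent.W619.Y.LogP

theorem main (h : Pool.Agent.W619.Y.S_PRES.{u, v}) : Pool.Agent.W619.Y.S_LOG.{u, v} := by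
  intro k K L _ _ _ _ _ _ _ _ _ v w e hO D hD
  have hreg : ∀ x : K, v.Reg x → w.Reg (D (algebraMap K L x)) := by
    intro x hx
    by_cases hx0 : algebraMap K L x = 0
    · rw [hx0, map_zero]; exact w.reg_zero
    · have h1 : w.Reg (algebraMap K L x) := hO.reg.2 hx
      have h2 := w.reg_mul (hD x) h1
      rwa [div_mul_cancel₀ _ hx0] at h2
  have hPres : Pres w D := fun z hz => h k K L v w e hO D hreg (Or.inr fun x _ => hD x) z hz
  obtain ⟨t, ht0, ht⟩ := w.surj
  obtain ⟨s, hs0, hs⟩ := v.surj
  have hs0' : algebraMap K L s ≠ 0 := (map_ne_zero _).2 hs0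
  have hts : t ^ (-(e : ℤ)) ≠ 0 := zpow_ne_zero _ ht0
  have hu : w.ord (algebraMap K L s * t ^ (-(e : ℤ))) = 0 := by
    rw [w.ord_mul hs0' hts, w.ord_zpow, ht, hO.2 s, hs]; ring
  have h2 := der_unit hPres hu
  rw [dlog_mul D hs0' hts, dlog_zpow D ht0] at h2
  have h3 : Ge w 0 (D (algebraMap K L s) / algebraMap K L s) := hD s
  have h4 := h3.sub h2
  have e1 : D (algebraMap K L s) / algebraMap K L s -
      (D (algebraMap K L s) / algebraMap K L s + ((-(e : ℤ) : ℤ) : L) * (D t / t)) =
      (e : L) * (D t / t) := by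
    push_cast
    ring
  rw [e1] at h4
  have he0 : (e : k) ≠ 0 := by
    have := hO.1
    exact_mod_cast this.ne'
  have he0' : (e : L) ≠ 0 := by
    have h5 : algebraMap k L (e : k) ≠ 0 := (map_ne_zero _).2 he0
    rwa [map_natCast] at h5
  have h6 : Ge w 0 (D t / t) := by
    have h7 := (Ge.const (P := w) ((e : k)⁻¹)).mul h4
    have e2 : algebraMap k L ((e : k)⁻¹) * ((e : L) * (D t / t)) = D t / t := by
      rw [map_inv₀, map_natCast, ← mul_assoc, inv_mul_cancel₀ he0', one_mul]
    rw [e2] at h7
    simpa using h7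
  exact fun z => log_of_pres w D hPres ht0 ht h6 z

end Pool.Agent.W619.Y.LogP
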