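import Pool.Agent.W762.PG.PRES
import Pool.Agent.W619.Y.LogP
import Pool.Agent.W240.PG.Frame
import Pool.Agent.W828.PG.DIVI
import Pool.Agent.W73.PG.PULL
import Pool.Agent.W636.PG.Trans
import Pool.Agent.W273.PG.ORB
import Pool.Agent.W253.PG.EQV
import Pool.Agent.W357.PG.EXT
import Pool.Agent.W168.PG.DET2
import Pool.Agent.W419.PG.DIVR
import Pool.Agent.W308.PG.YLOC
import Pool.Agent.W409.PG.REGLOG2
import Pool.Agent.W140.PG.REG2
import Pool.Agent.W721.PG.EFF2
import Pool.Agent.W721.PG.RULED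

/-! The proved parts. -/

set_option autoImplicit false

universe u v

namespace Pool.Agent.W619.Y

theorem pPRES : S_PRES.{u, v} := Pool.Agent.W762.PG.main
theorem pLOG : S_LOG.{u, v} := Pool.Agent.W619.Y.LogP.main pPRES
theorem pFRAME : S_FRAME.{u, v} := Pool.Agent.W240.PG.Frame.main pPRES
theorem pDIVI : S_DIVI.{u, v} := Pool.Agent.W828.PG.main
theorem pPULL : S_PULL.{u, v} := Pool.Agent.W73.PG.PULL.main pFRAME pDIVI
theorem pTRANS : S_TRANS.{u, v} := Pool.Agent.W636.PG.main pPULL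
theorem pORB : S_ORB := Pool.Agent.W273.PG.ORB.main
theorem pEQV : S_EQV.{u} := Pool.Agent.W253.PG.EQV.main
theorem pEXT : S_EXT.{u, v} := Pool.Agent.W357.PG.main
theorem pDET2 : S_DET2.{u, v} := Pool.Agent.W168.PG.DET2.main
theorem pDIVR : S_DIVR.{u, v} := Pool.Agent.W419.PG.main
theorem pYLOC : S_YLOC.{u, v} := Pool.Agent.W308.PG.YLOC.main pFRAME pDIVR
theorem pREGLOG2 : S_REGLOG2.{u, v} := Pool.Agent.W409.PG.REGLOG2.main pDET2 pORB pEQV
theorem pREG2 : S_REG2.{u, v} := Pool.Agent.W140.PG.REG2.main pPRES pLOG pEXT pREGLOG2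
theorem pEFF2 : S_EFF2.{u, v} := Pool.Agent.W721.PG.EFF2.main pEXT pREG2
theorem pRULED : S_RULED.{u, v} := Pool.Agent.W721.PG.RULED.main

end Pool.Agent.W619.Y
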