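import Pool.Agent.W619.Y.Eqv
import Pool.Agent.W619.Y.Parts

/-! Nonvanishing for quotients of `Y × C 1 × ... × C n` by groups permuting the curves. -/

set_option autoImplicit false
set_option linter.overlappingInstances false
set_option linter.unusedSectionVars false

universe u v

open Polynomial FF IntermediateField Pool.Agent.W619.PQ Pool.Agent.W619.PL Pool.Agent.W619.TW
  Pool.Agent.W619.X

namespace Pool.Agent.W619.Y

open Pool.Agent.W603.LV

section

variable {k : Type v} {L : Type u} [Field k] [CharZero k] [IsAlgClosed k] [Field L] [Algebra k L]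

theorem charZero_of_alg {K : Type*} [Field K] [Algebra k K] : CharZero K :=
  charZero_of_injective_algebraMap (algebraMap k K).injective

/-- A nonzero regular form on `Y` in coordinates. -/
theorem exists_form (d : ℕ) (M : IntermediateField k L) [Algebra.EssFiniteType k M]
    (hM : Algebra.trdeg k M = d) (hY : ¬ KodairaNeg k M d) :
    ∃ (m : ℕ) (η : (Fin d → Derivation k M M) → M) (y : Fin d → M)
      (E : Fin d → Derivation k M M), 1 ≤ m ∧ IsPluriForm k M d m η ∧
      (∀ u : Place k M, IsDivisorial u d → RegularAt u d η) ∧ IsTranscendenceBasis k y ∧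
      (∀ i j, E i (y j) = if i = j then 1 else 0) ∧ η E ≠ 0 := by
  have : CharZero M := charZero_of_alg (k := k)
  unfold KodairaNeg at hY
  push Not at hY
  obtain ⟨m, hm, η, hη, hreg, D, hD⟩ := hY
  obtain ⟨y, hy⟩ := exists_fin_basis (k := k) d hM
  choose E hE using fun j => exists_dual y hy j
  have hE' : ∀ i j, E i (y j) = if i = j then 1 else 0 := by
    intro i j
    rw [hE i j]
    by_cases h : i = j
    · subst h; simp
    · rw [if_neg h, if_neg (Ne.symm h)]
  refine ⟨m, η, y, E, hm, hη, hreg, hy, hE', fun h0 => hD ?_⟩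
  rw [pluri_frame hη y hy E hE' D, h0, mul_zero]

/-- Effectivity. -/
theorem eff_mixed (d n : ℕ) (hn : Algebra.trdeg k L = (d + n : ℕ)) (M : IntermediateField k L)
    [Algebra.EssFiniteType k M] (hM : Algebra.trdeg k M = d)
    (F : Fin n → IntermediateField k L) [hF : ∀ i, IsFF k (F i)]
    (halg : Algebra.IsAlgebraic ↥(M ⊔ ⨆ i, F i) L)
    (G : Subgroup (L ≃ₐ[k] L)) [Finite G] (σ : G →* Equiv.Perm (Fin n))
    (hσ : ∀ (g : G) i, ∀ z ∈ F i, (g : L ≃ₐ[k] L) z ∈ F (σ g i))
    (h : MixedNonneg G σ F) (hirr : ∀ i, ¬ ∃ t : F i, k⟮t⟯ = ⊤) (hY : ¬ KodairaNeg k M d) :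
    IsEff k (fixedField G) (d + n) (fun _ => False) := by
  obtain ⟨N, hN, hfree, hc⟩ := h
  obtain ⟨m1, η, y, E, hm1, hη, hreg, hy, hE, hη0⟩ := exists_form d M hM hY
  obtain ⟨r, x, c, c', hr, hx, hxt, hxg, hcQ, hc0, -, -, -, -, hg, -, -⟩ :=
    eqv_data pEQV F G σ hσ N m1 hm1 ∅ (fun _ _ h => h.elim) (fun i => by
      obtain ⟨m, x, b, h1, h2, h3, h4, h5, h6⟩ := nonneg_data G σ F hσ N hN i (hirr i) (by
        rcases hc i with h | h | h | h
        · exact Or.inl h
        · exact Or.inr (Or.inl h)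
        · exact Or.inr (Or.inr h)
        · exact absurd h (hirr i))
      exact ⟨m, x, b, b, h1, h2, h3, h4, h5, h4, h5, h6, h6, fun h => h.elim⟩)
  have hyg : ∀ w : Place k L, IsDivisorial w (d + n) →
      YGood d (2 * r * m1) w (fun l => (y l : L)) (((η E : M) : L) ^ (2 * r)) := by
    intro w hw
    exact (pYLOC k L M d (d + n) m1 hM hn (fun y hy => fin_over y hy) η hη hreg y E hy hE w hw).pow
      (2 * r)
  have hxF : ∀ i, x i ∈ F i := fun i => (hx i).1
  have hbas := basis_append M F halg hn y hy (fun i => ⟨x i, hxF i⟩) (fun i h =>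
    hxt i (by simpa using h.algebraMap (A := L)))
  refine pEFF2 k L d n F G σ hn hσ N (2 * r * m1) hN hfree ?_ x c hx hxt hxg hcQ hc0 hg
    (fun l => (y l : L)) (((η E : M) : L) ^ (2 * r)) ?_ hyg hbas
  · exact Nat.one_le_iff_ne_zero.2 (by positivity)
  · refine pow_ne_zero _ fun h0 => hη0 ?_
    exact Subtype.ext h0

theorem kappa_mixed (d n : ℕ) (hn : Algebra.trdeg k L = (d + n : ℕ)) (M : IntermediateField k L)
    [Algebra.EssFiniteType k M] (hM : Algebra.trdeg k M = d)
    (F : Fin n → IntermediateField k L) [hF : ∀ i, IsFF k (F i)]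
    (halg : Algebra.IsAlgebraic ↥(M ⊔ ⨆ i, F i) L)
    (G : Subgroup (L ≃ₐ[k] L)) [Finite G] (σ : G →* Equiv.Perm (Fin n))
    (hσ : ∀ (g : G) i, ∀ z ∈ F i, (g : L ≃ₐ[k] L) z ∈ F (σ g i))
    (h : MixedNonneg G σ F) (hirr : ∀ i, ¬ ∃ t : F i, k⟮t⟯ = ⊤) (hY : ¬ KodairaNeg k M d) :
    ¬ KodairaNeg k (fixedField G) (d + n) := by
  intro hκ
  exact (kodairaNeg_of_not_eff.2 hκ) (eff_mixed d n hn M hM F halg G σ hσ h hirr hY)

end

end Pool.Agent.W619.Y
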