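import Pool.Agent.W619.Y.Down
import Pool.Agent.W300.PG.TRGE
import Pool.Agent.W318.PG.URAT
import Pool.Agent.W52.PG.RULED2
import Pool.Agent.W513.PG.SYM
import Pool.Agent.W619.TW.PMain

/-! Abundance for quotients of `Y × C 1 × ... × C n` by groups permuting the curves. -/

set_option autoImplicit false
set_option linter.overlappingInstances false
set_option linter.unusedSectionVars false

universe u v

open Polynomial FF IntermediateField Pool.Agent.W619.PQ Pool.Agent.W619.PL Pool.Agent.W619.TW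
  Pool.Agent.W619.X

namespace Pool.Agent.W619.Y

open Pool.Agent.W603.LV

section

variable {k : Type v} {L : Type u} [Field k] [CharZero k] [IsAlgClosed k] [Field L] [Algebra k L]

theorem algInd_pow {K : Type*} [Field K] [Algebra k K] {ι : Type*} {x : ι → K}
    (hx : AlgebraicIndependent k x) (r : ℕ) (hr : 1 ≤ r) :
    AlgebraicIndependent k fun i => x i ^ r := by
  have h := hx.polynomial_aeval_of_transcendental (f := fun _ => (X : k[X]) ^ r) (fun _ => by
    exact (transcendental_X k).pow hr)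
  simpa using h

/-- The lower bound for the Kodaira dimension. -/
theorem kod_mixed (hKOD : S_KOD2T.{u, v}) (d n A : ℕ) (hn : Algebra.trdeg k L = (d + n : ℕ))
    (M : IntermediateField k L)
    [Algebra.EssFiniteType k M] (hM : Algebra.trdeg k M = d)
    (F : Fin n → IntermediateField k L) [hF : ∀ i, IsFF k (F i)]
    (halg : Algebra.IsAlgebraic ↥(M ⊔ ⨆ i, F i) L)
    (G : Subgroup (L ≃ₐ[k] L)) [Finite G] (σ : G →* Equiv.Perm (Fin n))
    (hσ : ∀ (g : G) i, ∀ z ∈ F i, (g : L ≃ₐ[k] L) z ∈ F (σ g i))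
    (h : MixedPos G σ F) (hirr : ∀ i, ¬ ∃ t : F i, k⟮t⟯ = ⊤) (hY : KodTr k M d A) :
    KodTr k (fixedField G) (d + n) (A + {i | ¬ IsElliptic (F i)}.ncard) := by
  have : CharZero M := charZero_of_alg (k := k)
  obtain ⟨N, hN, hfree, hc⟩ := h
  obtain ⟨m1, hm1, ω, hω, D0, hD0, hind⟩ := hY
  obtain ⟨y, hy⟩ := exists_fin_basis (k := k) d hM
  choose E hE0 using fun j => exists_dual y hy j
  have hE : ∀ i j, E i (y j) = if i = j then 1 else 0 := by
    intro i j
    rw [hE0 i j]
    by_cases h : i = j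
    · subst h; simp
    · rw [if_neg h, if_neg (Ne.symm h)]
  have hev : ∀ l, ω l D0 = (Matrix.of fun a b => D0 a (y b)).det ^ m1 * ω l E := fun l =>
    pluri_frame (hω l).1 y hy E hE D0
  have hη0 : ∀ l, ω l E ≠ 0 := fun l h0 => hD0 l (by rw [hev, h0, mul_zero])
  have hdet : (Matrix.of fun a b => D0 a (y b)).det ^ m1 ≠ 0 := fun h0 =>
    hD0 0 (by rw [hev, h0, zero_mul])
  have hreg : ∀ l, ∀ u : Place k M, IsDivisorial u d → RegularAt u d (ω l) := by
    intro l u hu D hD
    rcases (hω l).2.1 u hu (fun h => h) D hD with h | ⟨s, hs, hs0, h⟩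
    · exact Or.inl h
    · right
      simpa using h
  obtain ⟨r, x, c, c', hr, hx, hxt, hxg, hcQ, hc0, hcQ', hc0', hcg, hcg', hg, hg', htr⟩ :=
    eqv_data pEQV F G σ hσ N m1 hm1 {i | ¬ IsElliptic (F i)}
      (fun g i hi => elliptic_inv hσ g i hi) (fun i => by
      obtain ⟨m, x, b, b', h1, h2, h3, h4, h5, h6, h7, h8, h9, h10⟩ :=
        pos_data G σ F hσ N hN i (hirr i) (by
          rcases hc i with h | h | h | h
          · exact Or.inl h
          · exact Or.inr (Or.inl h)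
          · exact Or.inr (Or.inr h)
          · exact absurd h (hirr i))
      exact ⟨m, x, b, b', h1, h2, h3, h4, h5, h6, h7, h8, h9, h10⟩)
  refine hKOD k L d n A M F G σ hM hn halg hσ N (2 * r * m1) hN hfree ?_ ?_
    {i | ¬ IsElliptic (F i)} x c c' (fun g i hi => elliptic_inv hσ g i hi) hx hxt hxg hcQ hc0 hcQ'
    hc0' hcg hcg' hg hg' htr y (fun l => ω l E ^ (2 * r)) hy (fun l => pow_ne_zero _ (hη0 l)) ?_ ?_
  · exact Nat.one_le_iff_ne_zero.2 (by positivity)
  · exact ⟨r * m1, by ring⟩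
  · intro l w hw
    have h1 := (pYLOC k L M d (d + n) m1 hM hn (fun y hy => fin_over y hy) (ω l) (hω l).1 (hreg l)
      y E hy hE w hw).pow (2 * r)
    simpa using h1
  · have h1 : (fun l : Fin A => ω l.succ E ^ (2 * r) / ω 0 E ^ (2 * r)) =
        fun l : Fin A => (ω l.succ D0 / ω 0 D0) ^ (2 * r) := by
      funext l
      rw [hev l.succ, hev 0, mul_div_mul_left _ _ hdet, div_pow]
    rw [h1]
    exact algInd_pow hind (2 * r) (by omega)

/-- The case in which one of the curves is rational. -/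
theorem rat_mixed (d n : ℕ) (hn : Algebra.trdeg k L = (d + n : ℕ)) (M : IntermediateField k L)
    [Algebra.EssFiniteType k M] (hM : Algebra.trdeg k M = d)
    (F : Fin n → IntermediateField k L) [hF : ∀ i, IsFF k (F i)] (hsup : M ⊔ (⨆ i, F i) = ⊤)
    (G : Subgroup (L ≃ₐ[k] L)) [Finite G] (h : ∃ i, ∃ t : F i, k⟮t⟯ = ⊤) :
    ¬ IsPsef k (fixedField G) (d + n) (fun _ => False) ∧
      NumNeg k (fixedField G) (d + n) (fun _ => False) ∧
      IsUniruled k (fixedField G) (d + n) := by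
  have hess := ess_top M F hsup
  obtain ⟨h1, M', t, h2, h3⟩ := Pool.Agent.W318.PG.URAT.main k L d n M F hM hn hsup h
  obtain ⟨d1, d2, -⟩ := down (d + n) hn G
  refine ⟨fun h4 => pRULED k L M' t (d + n) hn h2 h3 (d1 h4), d2 fun S => ?_, uniruled_down G h1⟩
  obtain ⟨c, hc⟩ := Pool.Agent.W52.PG.RULED2.main k L M' t (d + n) hn h2 h3 S
  refine ⟨c + 1, fun m hm hI => ?_⟩
  obtain ⟨ω, hω, hs⟩ := hI
  have h5 := hω.ne_zero 0
  have h6 := hc m 1 (ω 0) (hs 0) (Function.ne_iff.1 h5)
  omega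

/-- Upper bounds. -/
theorem num_mixed (hMANY : S_MANY.{u, v}) (d n : ℕ) (hn : Algebra.trdeg k L = (d + n : ℕ))
    (M : IntermediateField k L)
    [Algebra.EssFiniteType k M] (hM : Algebra.trdeg k M = d)
    (F : Fin n → IntermediateField k L) [hF : ∀ i, IsFF k (F i)] (hsup : M ⊔ (⨆ i, F i) = ⊤)
    (G : Subgroup (L ≃ₐ[k] L)) [Finite G] :
    (IsPsef k (fixedField G) (d + n) (fun _ => False) → IsPsef k M d (fun _ => False)) ∧
    (NumNeg k M d (fun _ => False) → NumNeg k (fixedField G) (d + n) (fun _ => False)) ∧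
    ∀ a : ℕ, (∀ i, ¬ ∃ t : F i, k⟮t⟯ = ⊤) → NumLe k M d (fun _ => False) a →
      NumLe k (fixedField G) (d + n) (fun _ => False) (a + {i | ¬ IsElliptic (F i)}.ncard) := by
  have hess := ess_top M F hsup
  obtain ⟨d1, d2, d3⟩ := down (d + n) hn G
  obtain ⟨h1, h2, h3⟩ := hMANY k L d n M F hM hn hsup
  refine ⟨fun h => h1 (d1 h), fun h => d2 (h2 h), fun a hirr ha => d3 _ ?_⟩
  have h4 := h3 a (fun i => canDeg_nonneg (hirr i)) ha
  have h5 : {i | canDeg k (F i) ≠ 0} = {i | ¬ IsElliptic (F i)} := by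
    ext i
    constructor
    · exact fun h6 h7 => h6 (canDeg_elliptic h7)
    · exact fun h6 => (canDeg_pos (hirr i) h6).ne'
  rwa [h5] at h4

end

end Pool.Agent.W619.Y
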