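import Pool.Agent.W619.Y.Unir
import Pool.Agent.W381.PG.GAUSS
import Pool.Agent.W824.PG.Many
import Pool.Agent.W351.PG.DESC
import Pool.Agent.W460.PG.ONE
import Pool.Agent.W479.PG.Fib
import Pool.Agent.W930.PG.PSEFY
import Pool.Agent.W735.PG.DESCJ
import Pool.Agent.W125.PG.FibJ

/-! Final theorems for quotients of `Y × C 1 × ... × C n` by groups permuting the curves. -/

set_option autoImplicit false
set_option linter.overlappingInstances false
set_option linter.unusedSectionVars false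

universe u v

open Polynomial FF IntermediateField Pool.Agent.W619.PQ Pool.Agent.W619.PL Pool.Agent.W619.TW
  Pool.Agent.W619.X

namespace Pool.Agent.W619.Y

open Pool.Agent.W603.LV

theorem pMANY : S_MANY.{u, v} :=
  Pool.Agent.W824.PG.main pTRANS
    (Pool.Agent.W460.PG.ONE.main Pool.Agent.W479.PG.main
      (Pool.Agent.W351.PG.main Pool.Agent.W381.PG.main))
    (Pool.Agent.W930.PG.main Pool.Agent.W125.PG.FibJ.main
      (Pool.Agent.W735.PG.DESCJ.main Pool.Agent.W381.PG.main))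

section

variable {k : Type v} {L : Type u} [Field k] [CharZero k] [IsAlgClosed k] [Field L] [Algebra k L]

/-- Kodaira dimension `-∞`. -/
theorem class_mixed (hUNI : S_UNI.{u, v}) (d n : ℕ) (hn : Algebra.trdeg k L = (d + n : ℕ))
    (M : IntermediateField k L)
    [Algebra.EssFiniteType k M] (hM : Algebra.trdeg k M = d)
    (F : Fin n → IntermediateField k L) [hF : ∀ i, IsFF k (F i)]
    (halg : Algebra.IsAlgebraic ↥(M ⊔ ⨆ i, F i) L)
    (G : Subgroup (L ≃ₐ[k] L)) [Finite G] (σ : G →* Equiv.Perm (Fin n))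
    (hσ : ∀ (g : G) i, ∀ z ∈ F i, (g : L ≃ₐ[k] L) z ∈ F (σ g i))
    (h : MixedNonneg G σ F) (hκ : KodairaNeg k (fixedField G) (d + n)) :
    (KodairaNeg k M d ∨ ∃ i, ∃ t : F i, k⟮t⟯ = ⊤) ∧
    (M ⊔ (⨆ i, F i) = ⊤ → (KodairaNeg k M d → IsUniruled k M d) →
      IsUniruled k (fixedField G) (d + n)) := by
  have h1 : KodairaNeg k M d ∨ ∃ i, ∃ t : F i, k⟮t⟯ = ⊤ := by
    by_contra hcon
    push Not at hcon
    exact kappa_mixed d n hn M hM F halg G σ hσ h (fun i ⟨t, ht⟩ => hcon.2 i t ht) hcon.1 hκ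
  refine ⟨h1, fun hsup hY => ?_⟩
  rcases h1 with h1 | h1
  · exact uniruled_down G (hUNI k L d n M F hM hn hsup (hY h1))
  · exact (rat_mixed d n hn M hM F hsup G h1).2.2

/-- Nonvanishing. -/
theorem nv_mixed (d n : ℕ) (hn : Algebra.trdeg k L = (d + n : ℕ)) (M : IntermediateField k L)
    [Algebra.EssFiniteType k M] (hM : Algebra.trdeg k M = d)
    (F : Fin n → IntermediateField k L) [hF : ∀ i, IsFF k (F i)]
    (halg : Algebra.IsAlgebraic ↥(M ⊔ ⨆ i, F i) L)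
    (G : Subgroup (L ≃ₐ[k] L)) [Finite G] (σ : G →* Equiv.Perm (Fin n))
    (hσ : ∀ (g : G) i, ∀ z ∈ F i, (g : L ≃ₐ[k] L) z ∈ F (σ g i))
    (h : MixedNonneg G σ F) :
    (IsEff k M d (fun _ => False) → (∀ i, ¬ ∃ t : F i, k⟮t⟯ = ⊤) →
      IsEff k (fixedField G) (d + n) (fun _ => False)) ∧
    (M ⊔ (⨆ i, F i) = ⊤ → IsPsef k (fixedField G) (d + n) (fun _ => False) →
      IsPsef k M d (fun _ => False) ∧ (∀ i, ¬ ∃ t : F i, k⟮t⟯ = ⊤) ∧
        (IsEff k M d (fun _ => False) → IsEff k (fixedField G) (d + n) (fun _ => False))) := by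
  have h1 : IsEff k M d (fun _ => False) → (∀ i, ¬ ∃ t : F i, k⟮t⟯ = ⊤) →
      IsEff k (fixedField G) (d + n) (fun _ => False) := fun hY hirr =>
    eff_mixed d n hn M hM F halg G σ hσ h hirr fun h2 => kodairaNeg_of_not_eff.2 h2 hY
  refine ⟨h1, fun hsup hp => ?_⟩
  have h2 : ∀ i, ¬ ∃ t : F i, k⟮t⟯ = ⊤ := fun i hi =>
    (rat_mixed d n hn M hM F hsup G ⟨i, hi⟩).1 hp
  exact ⟨(num_mixed pMANY d n hn M hM F hsup G).1 hp, h2, fun h3 => h1 h3 h2⟩

/-- Abundance. -/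
theorem ab_mixed (hKOD : S_KOD2T.{u, v}) (d n : ℕ) (hn : Algebra.trdeg k L = (d + n : ℕ))
    (M : IntermediateField k L)
    [Algebra.EssFiniteType k M] (hM : Algebra.trdeg k M = d)
    (F : Fin n → IntermediateField k L) [hF : ∀ i, IsFF k (F i)]
    (halg : Algebra.IsAlgebraic ↥(M ⊔ ⨆ i, F i) L)
    (G : Subgroup (L ≃ₐ[k] L)) [Finite G] (σ : G →* Equiv.Perm (Fin n))
    (hσ : ∀ (g : G) i, ∀ z ∈ F i, (g : L ≃ₐ[k] L) z ∈ F (σ g i))
    (h : MixedPos G σ F) :
    ((∀ i, ¬ ∃ t : F i, k⟮t⟯ = ⊤) → ∀ a, KodTr k M d a →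
      KodTr k (fixedField G) (d + n) (a + {i | ¬ IsElliptic (F i)}.ncard) ∧
      KodGe k (fixedField G) (d + n) (fun _ => False) (a + {i | ¬ IsElliptic (F i)}.ncard)) ∧
    (M ⊔ (⨆ i, F i) = ⊤ →
      ((∀ i, ¬ ∃ t : F i, k⟮t⟯ = ⊤) → ∀ a, NumLe k M d (fun _ => False) a →
        NumLe k (fixedField G) (d + n) (fun _ => False) (a + {i | ¬ IsElliptic (F i)}.ncard)) ∧
      ((NumNeg k M d (fun _ => False) ∨ ∃ i, ∃ t : F i, k⟮t⟯ = ⊤) →
        NumNeg k (fixedField G) (d + n) (fun _ => False)) ∧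
      (IsPsef k (fixedField G) (d + n) (fun _ => False) → IsPsef k M d (fun _ => False) ∧
        ∀ i, ¬ ∃ t : F i, k⟮t⟯ = ⊤)) := by
  have hK : Algebra.trdeg k (fixedField G) = (d + n : ℕ) := by
    have hfinL : FiniteDimensional (fixedField G) L := by
      have hGal : IsGaloisGroup G (fixedField G) L := isGaloisGroup_fixed G
      exact IsGaloisGroup.finiteDimensional G (fixedField G) L
    rw [← hn, ← trdeg_add_eq k (fixedField G) (A := L),
      trdeg_eq_zero (R := fixedField G) (A := L), add_zero]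
  refine ⟨fun hirr a ha => ?_, fun hsup => ⟨fun hirr a ha => ?_, fun h1 => ?_, fun hp => ?_⟩⟩
  · have h1 := kod_mixed hKOD d n a hn M hM F halg G σ hσ h hirr ha
    have : CharZero (fixedField G) := charZero_of_alg (k := k)
    exact ⟨h1, Pool.Agent.W300.PG.TRGE.main k (fixedField G) (d + n) _ hK h1⟩
  · exact (num_mixed pMANY d n hn M hM F hsup G).2.2 a hirr ha
  · rcases h1 with h1 | h1
    · exact (num_mixed pMANY d n hn M hM F hsup G).2.1 h1
    · exact (rat_mixed d n hn M hM F hsup G h1).2.1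
  · exact ⟨(num_mixed pMANY d n hn M hM F hsup G).1 hp, fun i hi =>
      (rat_mixed d n hn M hM F hsup G ⟨i, hi⟩).1 hp⟩

end

end Pool.Agent.W619.Y
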