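import Pool.Agent.W619.Y.Stm6
import Pool.Agent.W672.PG.KOD2

/-! Pluricanonical forms on the quotient with algebraically independent ratios: an adaptation of
`Pool.Agent.W672.PG.KOD2` (helper672). -/

set_option autoImplicit false
set_option linter.overlappingInstances false
set_option linter.unusedSectionVars false

universe u v

open FF IntermediateField Pool.Agent.W619.PQ Pool.Agent.W619.PL Pool.Agent.W619.TW
  Pool.Agent.W603.LV Pool.Agent.W672.PG

namespace Pool.Agent.W619.Y

section

open scoped Classical in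
theorem kod2T (h1 : Pool.Agent.W619.Y.S_EXT.{u, v}) (h2 : Pool.Agent.W619.Y.S_REG2.{u, v})
    (h3 : Pool.Agent.W619.Y.S_SYM.{u, v}) : Pool.Agent.W619.Y.S_KOD2T.{u, v} := by
  intro k L _ _ _ _ _ d n A M F hF G _ σ hM hn halg hG N m hN hfree hm hme H x c c' hH hxQ
    hxt hxg hcQ hc0 hcQ' hc0' hcg hcg' hgood hgood' htr y a hy ha0 hY hai
  have halgK := Pool.Agent.W721.PG.EFF2.alg_fixed G
  have := Fintype.ofFinite G
  -- the coordinates
  have hbasis : IsTranscendenceBasis k
      (Fin.append (fun l => (y l : L)) x : Fin (d + n) → L) := by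
    have h := basis_mix M F halg hn (Fintype.card_fin d) y hy (fun i => ⟨x i, (hxQ i).1⟩)
      (fun i => Pool.Agent.W303.PG.trans_sub (F i) (hxQ i).1 (hxt i))
    refine (isTranscendenceBasis_equiv' finSumFinEquiv ?_).1 h
    funext z
    rcases z with z | z <;> simp
  obtain ⟨hnK, z, hz⟩ := Pool.Agent.W721.PG.EFF2.exists_basis (fixedField G) (d + n) hn
  choose ext hext hext2 hext3 using h1 k (fixedField G) L (d + n) hnK
  obtain ⟨D0, hD0⟩ := Pool.Agent.W721.PG.EFF2.exists_det (fixedField G) (d + n) z hz _ hbasis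
    ext hext
  have hfix : ∀ (g : G) (f : fixedField G), (g : L ≃ₐ[k] L) (algebraMap (fixedField G) L f) =
      algebraMap (fixedField G) L f := fun g f => f.2 g
  -- the ratios
  let f : Fin n → L := fun i => if i ∈ H then c' i / c i else x i
  have hfH : ∀ i ∈ H, f i = c' i / c i := fun i hi => if_pos hi
  have hfF : ∀ i, f i ∈ F i := by
    intro i
    by_cases hi : i ∈ H
    · rw [hfH i hi]; exact div_mem (hcQ' i).1 (hcQ i).1
    · have : f i = x i := if_neg hi
      rw [this]; exact (hxQ i).1
  have hft : ∀ i, Transcendental k (f i) := by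
    intro i
    by_cases hi : i ∈ H
    · rw [hfH i hi]; exact htr i hi
    · have : f i = x i := if_neg hi
      rw [this]; exact hxt i
  have hcard : H.ncard = Fintype.card H := by
    rw [← Nat.card_coe_set_eq, Nat.card_eq_fintype_card]
  generalize hbdef : H.ncard = b at hcard
  let e : Fin b ≃ H := (Fintype.equivFinOfCardEq hcard.symm).symm
  let ratio : Fin (A + b) → L :=
    Fin.append (fun l : Fin A => ((a l.succ : M) : L) / (a 0 : L)) (fun l : Fin b => f (e l))
  have hratio : AlgebraicIndependent k ratio := by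
    have h4 := indep_mix M F halg hn hM (fun l : Fin A => a l.succ / a 0) hai
      (fun i => ⟨f i, hfF i⟩) (fun i => Pool.Agent.W303.PG.trans_sub (F i) (hfF i) (hft i))
    have h5 := h4.comp (Sum.map (id : Fin A → Fin A) (fun l : Fin b => ((e l : H) : Fin n)) ∘
      finSumFinEquiv.symm)
      ((Sum.map_injective.2 ⟨Function.injective_id, fun p q hpq =>
        e.injective (Subtype.ext hpq)⟩).comp finSumFinEquiv.symm.injective)
    have e1 : ratio = Sum.elim (fun l : Fin A => ((a l.succ / a 0 : M) : L)) (fun i => f i) ∘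
        (Sum.map (id : Fin A → Fin A) (fun l : Fin b => ((e l : H) : Fin n)) ∘
          finSumFinEquiv.symm) := by
      funext l
      refine Fin.addCases (fun l => ?_) (fun l => ?_) l
      · simp [ratio]
      · simp [ratio]
    rw [e1]
    exact h5
  -- the forms
  let C : L := ∏ i, c i
  have hC0 : C ≠ 0 := Finset.prod_ne_zero_iff.2 fun i _ => hc0 i
  have haL : ∀ l, (a l : L) ≠ 0 := fun l hl => ha0 l (Subtype.ext hl)
  let B : Fin (A + b + 1) → L := Fin.cons ((a 0 : L) * C) (fun l => (a 0 : L) * C * ratio l)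
  have hB : ∀ l, ∃ (a' : L) (b' : Fin n → L), B l = a' * ∏ i, b' i ∧ a' ≠ 0 ∧
      (∀ w : Place k L, IsDivisorial w (d + n) → YGood d m w (fun l => (y l : L)) a') ∧
      (∀ i, b' i ∈ Quo G σ F i) ∧ (∀ i, b' i ≠ 0) ∧
      (∀ i, GoodAt (Quo G σ F i) N m (x i) (b' i)) := by
    intro l
    refine Fin.cases ?_ (fun l => ?_) l
    · exact ⟨a 0, c, rfl, haL 0, hY 0, hcQ, hc0, hgood⟩
    · refine Fin.addCases (fun l => ?_) (fun l => ?_) l
      · refine ⟨a l.succ, c, ?_, haL _, hY _, hcQ, hc0, hgood⟩
        change (a 0 : L) * C * ratio (Fin.castAdd b l) = (a l.succ : L) * C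
        have : ratio (Fin.castAdd b l) = ((a l.succ : M) : L) / (a 0 : L) := by simp [ratio]
        rw [this]
        have := haL 0
        field_simp
      · refine ⟨a 0, fun i => if i = (e l : Fin n) then c' i else c i, ?_, haL _, hY _, ?_, ?_, ?_⟩
        · change (a 0 : L) * C * ratio (Fin.natAdd A l) = _
          have h6 : ratio (Fin.natAdd A l) = c' (e l) / c (e l) := by
            have : ratio (Fin.natAdd A l) = f (e l) := by simp [ratio]
            rw [this, hfH _ (e l).2]
          rw [h6]
          have h7 : ∀ i, (if i = (e l : Fin n) then c' i else c i) =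
              c i * (if i = (e l : Fin n) then c' i / c i else 1) := by
            intro i
            by_cases hi : i = (e l : Fin n)
            · rw [if_pos hi, if_pos hi, mul_div_cancel₀ _ (hc0 i)]
            · rw [if_neg hi, if_neg hi, mul_one]
          simp only [h7]
          rw [Finset.prod_mul_distrib, Finset.prod_ite_eq' Finset.univ (e l : Fin n)
            (fun i => c' i / c i), if_pos (Finset.mem_univ _), mul_assoc]
        · intro i
          by_cases hi : i = (e l : Fin n)
          · simp only [if_pos hi]; exact hcQ' i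
          · simp only [if_neg hi]; exact hcQ i
        · intro i
          by_cases hi : i = (e l : Fin n)
          · simp only [if_pos hi]; exact hc0' i
          · simp only [if_neg hi]; exact hc0 i
        · intro i
          by_cases hi : i = (e l : Fin n)
          · simp only [if_pos hi]; exact hgood' i
          · simp only [if_neg hi]; exact hgood i
  have hB0 : ∀ l, B l ≠ 0 := by
    intro l
    obtain ⟨a', b', e1, e2, -, -, e3, -⟩ := hB l
    rw [e1]
    exact mul_ne_zero e2 (Finset.prod_ne_zero_iff.2 fun i _ => e3 i)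
  let V : (Fin (d + n) → Derivation k (fixedField G) (fixedField G)) → Fin (A + b + 1) → L :=
    fun D l => B l * (Matrix.of fun i j => ext (D j)
      ((Fin.append (fun l => (y l : L)) x : Fin (d + n) → L) i)).det ^ m
  have hV0 : ∀ l, V D0 l ≠ 0 := fun l => mul_ne_zero (hB0 l) (pow_ne_zero _ hD0)
  have hVr : ∀ l : Fin (A + b), V D0 l.succ / V D0 0 = ratio l := by
    intro l
    change B l.succ * _ / (B 0 * _) = _
    have e1 : B l.succ = B 0 * ratio l := rfl
    rw [mul_div_mul_right _ _ (pow_ne_zero _ hD0), e1, mul_div_cancel_left₀ _ (hB0 0)]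
  have hVlin : ∀ (X : Matrix (Fin (d + n)) (Fin (d + n)) (fixedField G))
      (D : Fin (d + n) → Derivation k (fixedField G) (fixedField G)) l,
      V (fun i => ∑ j, X i j • D j) l = V D l * (algebraMap (fixedField G) L X.det) ^ m := by
    intro X D l
    have e1 : ∀ j, ext (∑ l, X j l • D l) = ∑ l, (algebraMap (fixedField G) L (X j l)) •
        ext (D l) := by
      intro j
      symm
      apply hext2
      intro f
      rw [Pool.Agent.W721.PG.EFF2.der_sum, Pool.Agent.W721.PG.EFF2.der_sum, map_sum]
      refine Finset.sum_congr rfl fun l _ => ?_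
      rw [hext, map_mul]
    have e2 : (Matrix.of fun i j => ext (∑ l, X j l • D l)
        ((Fin.append (fun l => (y l : L)) x : Fin (d + n) → L) i)) =
        (Matrix.of fun i j => ext (D j)
          ((Fin.append (fun l => (y l : L)) x : Fin (d + n) → L) i)) *
          (X.map (algebraMap (fixedField G) L)).transpose := by
      ext i j
      simp only [Matrix.of_apply, Matrix.mul_apply, Matrix.transpose_apply, Matrix.map_apply]
      rw [e1, Pool.Agent.W721.PG.EFF2.der_sum]
      exact Finset.sum_congr rfl fun l _ => mul_comm _ _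
    have e3 : (X.map (algebraMap (fixedField G) L)).det = algebraMap (fixedField G) L X.det := by
      rw [RingHom.map_det]
      rfl
    change B l * (Matrix.of fun i j => ext (∑ l, X j l • D l)
        ((Fin.append (fun l => (y l : L)) x : Fin (d + n) → L) i)).det ^ m = _
    rw [e2, Matrix.det_mul, Matrix.det_transpose, e3, mul_pow]
    change _ = B l * (Matrix.of fun i j => ext (D j)
      ((Fin.append (fun l => (y l : L)) x : Fin (d + n) → L) i)).det ^ m * _
    ring
  -- symmetric functions
  obtain ⟨R, t, r, q, hR, hrq, hs0, hsi⟩ := h3 k L G 1 (A + b)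
    (fun g l => (g : L ≃ₐ[k] L) (V D0 l)) (fun l => by
      change V D0 l ≠ 0
      exact hV0 l) (by
      have e1 : (fun l : Fin (A + b) => ((1 : G) : L ≃ₐ[k] L) (V D0 l.succ) /
          ((1 : G) : L ≃ₐ[k] L) (V D0 0)) = ratio := by
        funext l
        exact hVr l
      rw [e1]
      exact hratio)
  let s : (Fin (d + n) → Derivation k (fixedField G) (fixedField G)) → Fin (A + b + 1) → L :=
    fun D j => esy (fun g : G => (g : L ≃ₐ[k] L) (V D (t j))) (r j) ^ q j
  have hs00 : s D0 0 ≠ 0 := pow_ne_zero _ (hs0 0)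
  have hsG : ∀ D j (g : G), (g : L ≃ₐ[k] L) (s D j) = s D j := by
    intro D j g
    change (g : L ≃ₐ[k] L) (esy (fun g : G => (g : L ≃ₐ[k] L) (V D (t j))) (r j) ^ q j) = _
    rw [map_pow]
    congr 1
    exact esy_inv _ (g : L ≃ₐ[k] L) (Equiv.mulLeft g) (fun i => rfl) _
  have hsA : ∀ (X : Matrix (Fin (d + n)) (Fin (d + n)) (fixedField G))
      (D : Fin (d + n) → Derivation k (fixedField G) (fixedField G)) j,
      s (fun i => ∑ j, X i j • D j) j = (algebraMap (fixedField G) L X.det) ^ (m * R) * s D j := by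
    intro X D j
    have e1 : (fun g : G => (g : L ≃ₐ[k] L) (V (fun i => ∑ j, X i j • D j) (t j))) =
        fun g : G => (g : L ≃ₐ[k] L) (V D (t j)) * (algebraMap (fixedField G) L X.det) ^ m := by
      funext g
      rw [hVlin, map_mul, map_pow, hfix]
    change esy (fun g : G => (g : L ≃ₐ[k] L) (V (fun i => ∑ j, X i j • D j) (t j))) (r j) ^ q j =
      (algebraMap (fixedField G) L X.det) ^ (m * R) *
        esy (fun g : G => (g : L ≃ₐ[k] L) (V D (t j))) (r j) ^ q j
    rw [e1, esy_mul, mul_pow, ← pow_mul, ← pow_mul, hrq j]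
  refine ⟨m * R, Nat.mul_pos hm hR, fun j D => ⟨s D j, fun g => hsG D j g⟩, fun l => ⟨?_, ?_, ?_⟩,
    D0, fun l h0 => ?_, ?_⟩
  · intro X D
    apply Subtype.ext
    change s (fun i => ∑ j, X i j • D j) l =
      algebraMap (fixedField G) L (X.det ^ (m * R) * ⟨s D l, fun g => hsG D l g⟩)
    rw [hsA, map_mul, map_pow]
    rfl
  · intro v hv _ D hD
    apply Pool.Agent.W721.PG.EFF2.dom_of_reg
    obtain ⟨w, ee, hwv, hreg⟩ := h2 k L d n F G σ hn hG N hN hfree x hxQ hxt hxg v hv
    rw [← hwv.reg]
    have hVreg : ∀ l (g : G), Ge w 0 ((g : L ≃ₐ[k] L) (V D l)) := by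
      intro l g
      obtain ⟨a', b', e1, -, e2, e3, e4, e5⟩ := hB l
      change Ge w 0 ((g : L ≃ₐ[k] L) (B l * _))
      rw [e1]
      exact hreg m b' e3 e4 e5 _ a' e2 D (fun j => ext (D j)) hD (fun j f => hext (D j) f) g
    exact ge_pow0 (ge_esy _ (fun g => hVreg (t l) g) _) _
  · intro v _ hv
    exact hv.elim
  · exact pow_ne_zero _ (hs0 l) (congrArg Subtype.val h0)
  · have hsi' : AlgebraicIndependent k fun l : Fin (A + b) =>
        ((⟨s D0 l.succ, fun g => hsG D0 l.succ g⟩ / ⟨s D0 0, fun g => hsG D0 0 g⟩ :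
          fixedField G) : L) := hsi
    exact (AlgHom.algebraicIndependent_iff (fixedField G).val (Subtype.val_injective)).1 hsi'

end

end Pool.Agent.W619.Y
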