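import Pool.Agent.W619.Y.LMain
import Pool.Agent.W358.PG.UNIA
import Pool.Agent.W636.PG.NEGA

/-! `A¹`-uniruledness, with boundary. -/

set_option autoImplicit false
set_option linter.overlappingInstances false
set_option linter.unusedSectionVars false

universe u v

open Polynomial FF IntermediateField Pool.Agent.W619.PQ Pool.Agent.W619.PL Pool.Agent.W619.TW
  Pool.Agent.W619.X

namespace Pool.Agent.W619.Y

open Pool.Agent.W603.LV

section

variable {k : Type v} {L : Type u} [Field k] [CharZero k] [IsAlgClosed k] [Field L] [Algebra k L]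

/-- Logarithmic Kodaira dimension `-∞` and `A¹`-uniruledness. -/
theorem a1LM (d n : ℕ) (hn : Algebra.trdeg k L = (d + n : ℕ)) (M : IntermediateField k L)
    [Algebra.EssFiniteType k M] (hM : Algebra.trdeg k M = d)
    (F : Fin n → IntermediateField k L) [hF : ∀ i, IsFF k (F i)]
    (halg : Algebra.IsAlgebraic ↥(M ⊔ ⨆ i, F i) L)
    (G : Subgroup (L ≃ₐ[k] L)) [Finite G] (σ : G →* Equiv.Perm (Fin n))
    (hσ : ∀ (g : G) i, ∀ z ∈ F i, (g : L ≃ₐ[k] L) z ∈ F (σ g i))
    (B : ∀ i, Set (Place k ↥(F i ⊓ fixedField (stb G σ i)))) (hB : ∀ i, (B i).Finite)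
    (hinv : BdInv G σ F B) (h : LogMixedNonneg G σ F B)
    (hκ : LogKodairaNeg k (fixedField G) (d + n) (BdQ G σ F B)) :
    (KodairaNeg k M d ∨ ∃ i, IsNegative inf_le_left (B i)) ∧
    (M ⊔ (⨆ i, F i) = ⊤ → (KodairaNeg k M d → IsUniruled k M d) →
      IsA1Uniruled k (fixedField G) (d + n) (BdQ G σ F B)) := by
  have h1 := logNeg d n hn M hM F halg G σ hσ B hB h hκ
  have hup : ∀ w, BdUp (BdQ G σ F B) w → BdL G σ F B w := by
    rintro w ⟨v, e, hwv, w', e', hwv', hL⟩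
    obtain ⟨g, hg⟩ := pCONJ k L G v w' w e' e hwv' hwv
    exact bdL_inv hσ B hinv g w' w hg hL
  have hnt : ∀ (w : Place k L) (i : Fin n) (p : Place k ↥(F i ⊓ fixedField (stb G σ i))) (e : ℕ),
      Over w p e → ∃ z ∈ F i, w.ord z ≠ 0 := by
    intro w i p e hp
    obtain ⟨t, ht0, ht⟩ := p.surj
    refine ⟨(t : L), t.2.1, ?_⟩
    have h2 := hp.2 t
    rw [ht, mul_one] at h2
    have h3 := hp.1
    change w.ord (t : L) = e at h2
    rw [h2]
    omega
  refine ⟨h1, fun hsup hY => ?_⟩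
  rcases h1 with h1 | ⟨i, hi⟩
  · refine a1_down (d + n) G (BdQ G σ F B) _ (fun w hw => ?_)
      (Pool.Agent.W358.PG.UNIA.main k L d n M F hM hn hsup (hY h1))
    obtain ⟨i, p, hp, e, he⟩ := hup w hw
    exact ⟨i, hnt w i p e he⟩
  · refine a1_down (d + n) G (BdQ G σ F B) _ (fun w hw => ?_)
      (Pool.Agent.W636.PG.NEGA.main k L d n M F hM hn hsup i (BFof (F i) (stb G σ i) (B i)) hi.1
        (fun p p' h2 h3 => hi.2 p p' h2 h3))
    obtain ⟨j, p, hp, e, he⟩ := hup w hw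
    by_cases hji : j = i
    · subst hji
      obtain ⟨q, a, b, hq1, hq2⟩ := pREST k L (F j) (F j ⊓ fixedField (stb G σ j)) inf_le_left w p
        e he
      exact Or.inr ⟨q, a, hq1, p, hp, b, hq2⟩
    · exact Or.inl ⟨j, hji, hnt w j p e he⟩

end

end Pool.Agent.W619.Y
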