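import Pool.Agent.W619.Y.Stm7
import Pool.Agent.W619.Y.Cond

/-! Quotients of `Y × C 1 × ... × C n`, with boundary: the forms on the curves. -/

set_option autoImplicit false
set_option linter.overlappingInstances false
set_option linter.unusedSectionVars false

universe u v

open FF IntermediateField Pool.Agent.W619.PQ Pool.Agent.W619.PL Pool.Agent.W619.TW
  Pool.Agent.W603.LV Pool.Agent.W619.X

namespace Pool.Agent.W619.Y

/-- A form on the quotient of a curve, with boundary `B`. -/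
def S_DATAN : Prop := ∀ (k : Type v) (L : Type u) [Field k] [CharZero k] [IsAlgClosed k]
  [Field L] [Algebra k L] (n : ℕ) (F : Fin n → IntermediateField k L) [∀ i, IsFF k (F i)]
  (G : Subgroup (L ≃ₐ[k] L)) [Finite G] (σ : G →* Equiv.Perm (Fin n)),
    (∀ (g : G) i, ∀ z ∈ F i, (g : L ≃ₐ[k] L) z ∈ F (σ g i)) →
    ∀ (N : ℕ), 2 ≤ N → ∀ (i : Fin n) (B : Set (Place k ↥(F i ⊓ fixedField (stb G σ i)))),
      B.Finite → ¬ IsNegative (inf_le_left : F i ⊓ fixedField (stb G σ i) ≤ F i) B →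
      ((6 ≤ N ∨ (4 ≤ N ∧ ¬ 3 ∣ Nat.card G) ∨ (3 ≤ N ∧ ¬ 2 ∣ Nat.card G) ∨ B.Nonempty) ∨
        Wide 4 (inf_le_left : F i ⊓ fixedField (stb G σ i) ≤ F i) B ∨
        (∃ δ, OrbGe (inf_le_left : F i ⊓ fixedField (stb G σ i) ≤ F i) B δ ∧
          ∀ q ∉ B, δ q ≤ 1 - 1 / (N : ℚ))) →
      ∃ (m : ℕ) (x b : L), 1 ≤ m ∧ x ∈ Quo G σ F i ∧ Transcendental k x ∧
        b ∈ Quo G σ F i ∧ b ≠ 0 ∧ ∀ w : Place k L,
          ((∀ p ∈ B, ∀ a, ¬ Over w p a) → GoodPl (Quo G σ F i) N m x b w) ∧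
          LogPl (Quo G σ F i) m x b w

/-- Two forms on the quotient of a curve, with boundary `B`. -/
def S_DATAP : Prop := ∀ (k : Type v) (L : Type u) [Field k] [CharZero k] [IsAlgClosed k]
  [Field L] [Algebra k L] (n : ℕ) (F : Fin n → IntermediateField k L) [∀ i, IsFF k (F i)]
  (G : Subgroup (L ≃ₐ[k] L)) [Finite G] (σ : G →* Equiv.Perm (Fin n)),
    (∀ (g : G) i, ∀ z ∈ F i, (g : L ≃ₐ[k] L) z ∈ F (σ g i)) →
    ∀ (N : ℕ), 2 ≤ N → ∀ (i : Fin n) (B : Set (Place k ↥(F i ⊓ fixedField (stb G σ i)))),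
      B.Finite → ¬ IsNegative (inf_le_left : F i ⊓ fixedField (stb G σ i) ≤ F i) B →
      ((7 ≤ N ∨ (5 ≤ N ∧ ¬ 3 ∣ Nat.card G) ∨ (4 ≤ N ∧ ¬ 2 ∣ Nat.card G) ∨
          (3 ≤ N ∧ B.Nonempty)) ∨
        (Wide 5 (inf_le_left : F i ⊓ fixedField (stb G σ i) ≤ F i) B ∨
          (IsFlat (inf_le_left : F i ⊓ fixedField (stb G σ i) ≤ F i) B ∧
            Wide 4 (inf_le_left : F i ⊓ fixedField (stb G σ i) ≤ F i) B)) ∨
        (∃ δ, (OrbGt (inf_le_left : F i ⊓ fixedField (stb G σ i) ≤ F i) B δ ∨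
          (IsFlat (inf_le_left : F i ⊓ fixedField (stb G σ i) ≤ F i) B ∧
            OrbGe (inf_le_left : F i ⊓ fixedField (stb G σ i) ≤ F i) B δ)) ∧
          ∀ q ∉ B, δ q ≤ 1 - 1 / (N : ℚ))) →
      ∃ (m : ℕ) (x b b' : L), 1 ≤ m ∧ x ∈ Quo G σ F i ∧ Transcendental k x ∧
        b ∈ Quo G σ F i ∧ b ≠ 0 ∧ b' ∈ Quo G σ F i ∧ b' ≠ 0 ∧ (∀ w : Place k L,
          ((∀ p ∈ B, ∀ a, ¬ Over w p a) → GoodPl (Quo G σ F i) N m x b w ∧
            GoodPl (Quo G σ F i) N m x b' w) ∧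
          LogPl (Quo G σ F i) m x b w ∧ LogPl (Quo G σ F i) m x b' w) ∧
        (¬ IsFlat (inf_le_left : F i ⊓ fixedField (stb G σ i) ≤ F i) B →
          Transcendental k (b' / b))

end Pool.Agent.W619.Y
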