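import Pool.Agent.W619.Y.Stm9
import Pool.Agent.W619.Y.Stm8

/-! Quotients of `Y × C 1 × ... × C n` by groups permuting the curves, with boundary. -/

set_option autoImplicit false
set_option linter.overlappingInstances false
set_option linter.unusedSectionVars false

universe u v

open FF IntermediateField Pool.Agent.W619.PQ Pool.Agent.W619.PL Pool.Agent.W619.TW
  Pool.Agent.W603.LV Pool.Agent.W619.X

namespace Pool.Agent.W619.Y

section

variable {k : Type v} {L : Type u} [Field k] [Field L] [Algebra k L] {n : ℕ}

/-- The boundary on `Z` given by sets `B i` of points of the quotient curves: the places of `L` over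
a place in one of the `B i`. -/
def BdL (G : Subgroup (L ≃ₐ[k] L)) (σ : G →* Equiv.Perm (Fin n))
    (F : Fin n → IntermediateField k L)
    (B : ∀ i, Set (Place k ↥(F i ⊓ fixedField (stb G σ i)))) (w : Place k L) : Prop :=
  ∃ i, ∃ p ∈ B i, ∃ e, Over w p e

/-- The boundary on `Z / G`: the places under a place in the boundary on `Z`. -/
def BdQ (G : Subgroup (L ≃ₐ[k] L)) (σ : G →* Equiv.Perm (Fin n))
    (F : Fin n → IntermediateField k L)
    (B : ∀ i, Set (Place k ↥(F i ⊓ fixedField (stb G σ i)))) (v : Place k (fixedField G)) : Prop :=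
  ∃ (w : Place k L) (e : ℕ), Over w v e ∧ BdL G σ F B w

/-- The sets `B i` are permuted by `G`: if `g` maps the `i`-th curve to the `j`-th curve, and a point
`p` in `B i` to `p'`, then `p'` is in `B j`. -/
def BdInv (G : Subgroup (L ≃ₐ[k] L)) (σ : G →* Equiv.Perm (Fin n))
    (F : Fin n → IntermediateField k L)
    (B : ∀ i, Set (Place k ↥(F i ⊓ fixedField (stb G σ i)))) : Prop :=
  ∀ (g : G) (i j : Fin n), σ g i = j → ∀ p ∈ B i,
    ∀ p' : Place k ↥(F j ⊓ fixedField (stb G σ j)),
      (∀ (z : ↥(F i ⊓ fixedField (stb G σ i))) (z' : ↥(F j ⊓ fixedField (stb G σ j))),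
        (g : L ≃ₐ[k] L) z = z' → p'.ord z' = p.ord z) → p' ∈ B j

/-- Condition for nonvanishing, for a finite group `G` permuting the curves through `σ`: for some
`N ≥ 2`, the fixed locus of each `g ≠ 1` on the product of the curves is empty or of codimension at
least `N`, and for each of the curves, with its quotient by its stabilizer, one of the following
holds: `N ≥ 6` (`4` if `3` does not divide the order of `G`, `3` if the order is odd, `2` if `B i` is
not empty); or the quotient is `Wide 4` (irrational or with at least `4` branch points, the points of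
`B i` counted twice); or there is an orbifold divisor of nonnegative degree on the quotient with
coefficients at most `1 - 1 / N` outside `B i`; or the curve minus the preimage of `B i` is the
projective line or the affine line. -/
def LogMixedNonneg (G : Subgroup (L ≃ₐ[k] L)) (σ : G →* Equiv.Perm (Fin n))
    (F : Fin n → IntermediateField k L)
    (B : ∀ i, Set (Place k ↥(F i ⊓ fixedField (stb G σ i)))) : Prop :=
  ∃ N : ℕ, 2 ≤ N ∧ FreeIn N G σ F ∧ ∀ i,
    (6 ≤ N ∨ (4 ≤ N ∧ ¬ 3 ∣ Nat.card G) ∨ (3 ≤ N ∧ ¬ 2 ∣ Nat.card G) ∨ (B i).Nonempty) ∨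
    Wide 4 (inf_le_left : F i ⊓ fixedField (stb G σ i) ≤ F i) (B i) ∨
    (∃ δ, OrbGe (inf_le_left : F i ⊓ fixedField (stb G σ i) ≤ F i) (B i) δ ∧
      ∀ q ∉ B i, δ q ≤ 1 - 1 / (N : ℚ)) ∨
    IsNegative (inf_le_left : F i ⊓ fixedField (stb G σ i) ≤ F i) (B i)

/-- Condition for abundance, for a finite group `G` permuting the curves through `σ`: for some
`N ≥ 2`, the fixed locus of each `g ≠ 1` on the product of the curves is empty or of codimension at
least `N`, and for each of the curves, with its quotient by its stabilizer, one of the following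
holds: `N ≥ 7` (`5` if `3` does not divide the order of `G`, `4` if the order is odd, `3` if `B i` is
not empty); or the quotient is `Wide 5` (irrational or with at least `5` branch points, the points of
`B i` counted twice), or `Wide 4` if the curve minus the preimage of `B i` is elliptic or the
projective line minus two points; or there is an orbifold divisor of positive degree (nonnegative
degree in the last case) on the quotient with coefficients at most `1 - 1 / N` outside `B i`; or the
curve minus the preimage of `B i` is the projective line or the affine line. -/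
def LogMixedPos (G : Subgroup (L ≃ₐ[k] L)) (σ : G →* Equiv.Perm (Fin n))
    (F : Fin n → IntermediateField k L)
    (B : ∀ i, Set (Place k ↥(F i ⊓ fixedField (stb G σ i)))) : Prop :=
  ∃ N : ℕ, 2 ≤ N ∧ FreeIn N G σ F ∧ ∀ i,
    (7 ≤ N ∨ (5 ≤ N ∧ ¬ 3 ∣ Nat.card G) ∨ (4 ≤ N ∧ ¬ 2 ∣ Nat.card G) ∨
      (3 ≤ N ∧ (B i).Nonempty)) ∨
    (Wide 5 (inf_le_left : F i ⊓ fixedField (stb G σ i) ≤ F i) (B i) ∨
      (IsFlat (inf_le_left : F i ⊓ fixedField (stb G σ i) ≤ F i) (B i) ∧
        Wide 4 (inf_le_left : F i ⊓ fixedField (stb G σ i) ≤ F i) (B i))) ∨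
    (∃ δ, (OrbGt (inf_le_left : F i ⊓ fixedField (stb G σ i) ≤ F i) (B i) δ ∨
      (IsFlat (inf_le_left : F i ⊓ fixedField (stb G σ i) ≤ F i) (B i) ∧
        OrbGe (inf_le_left : F i ⊓ fixedField (stb G σ i) ≤ F i) (B i) δ)) ∧
      ∀ q ∉ B i, δ q ≤ 1 - 1 / (N : ℚ)) ∨
    IsNegative (inf_le_left : F i ⊓ fixedField (stb G σ i) ≤ F i) (B i)

end

/-- The group acts transitively on the places over a place of the fixed field. -/
def S_CONJ : Prop := ∀ (k : Type v) (L : Type u) [Field k] [CharZero k] [IsAlgClosed k]
  [Field L] [Algebra k L] (G : Subgroup (L ≃ₐ[k] L)) [Finite G] (v : Place k (fixedField G))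
  (w w' : Place k L) (e e' : ℕ), Over w v e → Over w' v e' →
    ∃ g : G, ∀ z : L, w'.ord z = w.ord ((g : L ≃ₐ[k] L) z)

/-- Places of `L` which are not trivial on `Q ≤ F` restrict to `F`. -/
def S_REST : Prop := ∀ (k : Type v) (L : Type u) [Field k] [CharZero k] [IsAlgClosed k]
  [Field L] [Algebra k L] (F Q : IntermediateField k L) (hQ : Q ≤ F) (w : Place k L)
  (p : Place k Q) (e : ℕ), Over w p e → ∃ (q : Place k F) (a b : ℕ), Over w q a ∧ LiesOver hQ q p b

end Pool.Agent.W619.Y
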