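import Pool.Agent.W619.Y.LDefs
import Pool.Agent.W619.Y.Eqv

/-! Groups permuting the curves, with boundary: equivariant data. -/

set_option autoImplicit false
set_option linter.overlappingInstances false
set_option linter.unusedSectionVars false

universe u v

open Polynomial FF IntermediateField Pool.Agent.W619.PQ Pool.Agent.W619.PL Pool.Agent.W619.TW
  Pool.Agent.W619.X

namespace Pool.Agent.W619.Y

open Pool.Agent.W603.LV

section

variable {k : Type v} {L : Type u} [Field k] [Field L] [Algebra k L]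

theorem GoodPl.map {Q Q' : IntermediateField k L} {N m : ℕ} {x b : L} {w : Place k L}
    (g : L ≃ₐ[k] L) (hg : ∀ z, z ∈ Q ↔ g z ∈ Q') (h : GoodPl Q N m x b (w.comp g)) :
    GoodPl Q' N m (g x) (g b) w := by
  intro u hu hu0 hdvd ρ hρ
  have hgs : ∀ z ∈ Q', g.symm z ∈ Q := fun z hz => (hg _).2 (by rwa [AlgEquiv.apply_symm_apply])
  have h1 := h (g.symm u) (hgs u hu) (by
      rw [Place.comp_ord, AlgEquiv.apply_symm_apply]; exact hu0)
    (fun z hz hz0 => by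
      rw [Place.comp_ord, Place.comp_ord, AlgEquiv.apply_symm_apply]
      exact hdvd (g z) ((hg z).1 hz) (by simpa using hz0)) (g.symm ρ) (fun D => by
      have h2 := hρ (conjDer g D)
      change g (D (g.symm (g x))) = ρ * g (D (g.symm u)) at h2
      have h3 := congrArg g.symm h2
      simpa using h3)
  rw [Place.comp_ord, Place.comp_ord, AlgEquiv.apply_symm_apply, map_mul, map_pow, map_mul,
    AlgEquiv.apply_symm_apply, AlgEquiv.apply_symm_apply] at h1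
  exact h1

theorem LogPl.map {Q Q' : IntermediateField k L} {m : ℕ} {x b : L} {w : Place k L}
    (g : L ≃ₐ[k] L) (hg : ∀ z, z ∈ Q ↔ g z ∈ Q') (h : LogPl Q m x b (w.comp g)) :
    LogPl Q' m (g x) (g b) w := by
  intro u hu hu0 hdvd ρ hρ
  have hgs : ∀ z ∈ Q', g.symm z ∈ Q := fun z hz => (hg _).2 (by rwa [AlgEquiv.apply_symm_apply])
  have h1 := h (g.symm u) (hgs u hu) (by
      rw [Place.comp_ord, AlgEquiv.apply_symm_apply]; exact hu0)
    (fun z hz hz0 => by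
      rw [Place.comp_ord, Place.comp_ord, AlgEquiv.apply_symm_apply]
      exact hdvd (g z) ((hg z).1 hz) (by simpa using hz0)) (g.symm ρ) (fun D => by
      have h2 := hρ (conjDer g D)
      change g (D (g.symm (g x))) = ρ * g (D (g.symm u)) at h2
      have h3 := congrArg g.symm h2
      simpa using h3)
  rw [Place.comp_ord, map_mul, map_pow, map_mul,
    AlgEquiv.apply_symm_apply, AlgEquiv.apply_symm_apply] at h1
  exact h1

theorem GoodPl.pow {Q : IntermediateField k L} {N m : ℕ} {x b : L} {w : Place k L}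
    (h : GoodPl Q N m x b w) (a : ℕ) (ha : 1 ≤ a) : GoodPl Q N (a * m) x (b ^ a) w := by
  intro u hu hu0 hdvd ρ hρ
  obtain ⟨h1, h2⟩ := h u hu hu0 hdvd ρ hρ
  have h3 : b ^ a * (ρ * u) ^ (a * m) = (b * (ρ * u) ^ m) ^ a := by
    rw [mul_pow b, ← pow_mul, mul_comm m a]
  rw [h3, w.ord_pow]
  have h4 : (1 : ℤ) ≤ a := by exact_mod_cast ha
  have h5 : (0 : ℤ) ≤ m := by positivity
  push_cast
  constructor
  · calc (a : ℤ) * m * w.ord u = a * (m * w.ord u) := by ring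
      _ ≤ a * (N * w.ord (b * (ρ * u) ^ m)) := mul_le_mul_of_nonneg_left h1 (by linarith)
      _ = _ := by ring
  · exact mul_le_mul_of_nonneg_left h2 (by linarith)

theorem LogPl.pow {Q : IntermediateField k L} {m : ℕ} {x b : L} {w : Place k L}
    (h : LogPl Q m x b w) (a : ℕ) : LogPl Q (a * m) x (b ^ a) w := by
  intro u hu hu0 hdvd ρ hρ
  have h1 := h u hu hu0 hdvd ρ hρ
  have h3 : b ^ a * (ρ * u) ^ (a * m) = (b * (ρ * u) ^ m) ^ a := by
    rw [mul_pow b, ← pow_mul, mul_comm m a]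
  rw [h3, w.ord_pow]
  positivity

variable {n : ℕ} {G : Subgroup (L ≃ₐ[k] L)}

theorem over_comp {v : Place k (fixedField G)} {w : Place k L} {e : ℕ} (h : Over w v e) (g : G) :
    Over (w.comp (g : L ≃ₐ[k] L)) v e := by
  refine ⟨h.1, fun f => ?_⟩
  rw [Place.comp_ord]
  have h1 : (g : L ≃ₐ[k] L) (algebraMap (fixedField G) L f) = algebraMap (fixedField G) L f :=
    f.2 g
  rw [h1]
  exact h.2 f

theorem GoodBd.map {Bd : Place k (fixedField G) → Prop} {Q Q' : IntermediateField k L} {N m : ℕ}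
    {x b : L} (h : GoodBd Bd Q N m x b) (g : G) (hg : ∀ z, z ∈ Q ↔ (g : L ≃ₐ[k] L) z ∈ Q') :
    GoodBd Bd Q' N m ((g : L ≃ₐ[k] L) x) ((g : L ≃ₐ[k] L) b) := by
  intro v w e hw
  obtain ⟨h1, h2⟩ := h v (w.comp (g : L ≃ₐ[k] L)) e (over_comp hw g)
  exact ⟨fun hv => (h1 hv).map _ hg, fun hv => (h2 hv).map _ hg⟩

theorem GoodBd.pow {Bd : Place k (fixedField G) → Prop} {Q : IntermediateField k L} {N m : ℕ}
    {x b : L} (h : GoodBd Bd Q N m x b) (a : ℕ) (ha : 1 ≤ a) :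
    GoodBd Bd Q N (a * m) x (b ^ a) := by
  intro v w e hw
  obtain ⟨h1, h2⟩ := h v w e hw
  exact ⟨fun hv => (h1 hv).pow a ha, fun hv => (h2 hv).pow a⟩

/-- An automorphism restricted to a subfield. -/
noncomputable def mapSub {Q Q' : IntermediateField k L} (g : L ≃ₐ[k] L)
    (h : ∀ z, z ∈ Q ↔ g z ∈ Q') : Q ≃ₐ[k] Q' :=
  AlgEquiv.ofBijective
    (((g : L →ₐ[k] L).comp Q.val).codRestrict Q'.toSubalgebra fun z => (h z).1 z.2) (by
    constructor
    · intro a b hab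
      have h1 : g (a : L) = g (b : L) := congrArg Subtype.val hab
      exact Subtype.ext (g.injective h1)
    · intro z
      refine ⟨⟨g.symm z, ?_⟩, ?_⟩
      · rw [h, AlgEquiv.apply_symm_apply]
        exact z.2
      · exact Subtype.ext (g.apply_symm_apply z))

theorem mapSub_coe {Q Q' : IntermediateField k L} (g : L ≃ₐ[k] L)
    (h : ∀ z, z ∈ Q ↔ g z ∈ Q') (z : Q) : ((mapSub g h z : Q') : L) = g z := rfl

theorem flat_map {Q F Q' F' : IntermediateField k L} (hQ : Q ≤ F) (hQ' : Q' ≤ F')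
    (g : L ≃ₐ[k] L) (hq : ∀ z, z ∈ Q ↔ g z ∈ Q') (hf : ∀ z, z ∈ F ↔ g z ∈ F')
    (B : Set (Place k Q)) (B' : Set (Place k Q'))
    (h1 : ∀ p ∈ B, ∀ p' : Place k Q', (∀ (z : Q) (z' : Q'), g z = z' → p'.ord z' = p.ord z) →
      p' ∈ B')
    (h2 : ∀ p' ∈ B', ∀ p : Place k Q, (∀ (z : Q) (z' : Q'), g z = z' → p'.ord z' = p.ord z) →
      p ∈ B)
    (h : IsFlat hQ B) : IsFlat hQ' B' := by
  classical
  obtain ⟨D, hD⟩ := h
  refine ⟨pushDer (mapSub g hf) D, fun w t ht => ?_⟩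
  have h3 := hD (pullPlace (mapSub g hf) w) ((mapSub g hf).symm t) (by
    change w.ord (mapSub g hf ((mapSub g hf).symm t)) = 1
    rw [AlgEquiv.apply_symm_apply]; exact ht)
  have hiff : (∃ p ∈ B, ∃ e, LiesOver hQ (pullPlace (mapSub g hf) w) p e) ↔
      ∃ p ∈ B', ∃ e, LiesOver hQ' w p e := by
    constructor
    · rintro ⟨p, hp, e, he, hpe⟩
      refine ⟨pullPlace (mapSub g hq).symm p, h1 p hp _ fun z z' hz => ?_, e, he, fun f => ?_⟩
      · change p.ord ((mapSub g hq).symm z') = _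
        congr 1
        rw [AlgEquiv.symm_apply_eq]
        exact Subtype.ext hz.symm
      · change _ = _ * p.ord ((mapSub g hq).symm f)
        rw [← hpe]
        change _ = w.ord (mapSub g hf (inclusion hQ ((mapSub g hq).symm f)))
        congr 1
        apply Subtype.ext
        rw [mapSub_coe]
        have h4 : g (((mapSub g hq).symm f : Q) : L) = f := by
          rw [← mapSub_coe g hq, AlgEquiv.apply_symm_apply]
        exact h4.symm
    · rintro ⟨p, hp, e, he, hpe⟩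
      refine ⟨pullPlace (mapSub g hq) p, h2 p hp _ fun z z' hz => ?_, e, he, fun f => ?_⟩
      · change _ = p.ord (mapSub g hq z)
        congr 1
        exact Subtype.ext hz.symm
      · change w.ord (mapSub g hf (inclusion hQ f)) = _ * p.ord (mapSub g hq f)
        rw [← hpe]
        congr 1
  change _ ∧ w.ord (mapSub g hf (D ((mapSub g hf).symm t))) = _
  refine ⟨(map_ne_zero_iff _ (mapSub g hf).injective).2 h3.1, ?_⟩
  have h5 := h3.2
  change w.ord (mapSub g hf (D ((mapSub g hf).symm t))) = _ at h5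
  rw [h5]
  by_cases h6 : ∃ p ∈ B', ∃ e, LiesOver hQ' w p e
  · rw [if_pos (hiff.2 h6), if_pos h6]
  · rw [if_neg (fun h => h6 (hiff.1 h)), if_neg h6]

variable {σ : G →* Equiv.Perm (Fin n)} {F : Fin n → IntermediateField k L}

theorem flat_inv (hσ : ∀ (g : G) i, ∀ z ∈ F i, (g : L ≃ₐ[k] L) z ∈ F (σ g i))
    (B : ∀ i, Set (Place k ↥(F i ⊓ fixedField (stb G σ i)))) (hinv : BdInv G σ F B) (g : G)
    (i : Fin n)
    (h : ¬ IsFlat (inf_le_left : F i ⊓ fixedField (stb G σ i) ≤ F i) (B i)) :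
    ¬ IsFlat (inf_le_left : F (σ g i) ⊓ fixedField (stb G σ (σ g i)) ≤ F (σ g i))
      (B (σ g i)) := by
  intro h'
  refine h ?_
  have hi : σ g⁻¹ (σ g i) = i := by rw [map_inv, inv_self]
  have hgg : ∀ z : L, ((g⁻¹ : G) : L ≃ₐ[k] L) ((g : L ≃ₐ[k] L) z) = z := fun z => by
    change ((g : L ≃ₐ[k] L)⁻¹ * (g : L ≃ₐ[k] L)) z = z
    rw [inv_mul_cancel]; rfl
  have hgg' : ∀ z : L, (g : L ≃ₐ[k] L) (((g⁻¹ : G) : L ≃ₐ[k] L) z) = z := fun z => by
    change ((g : L ≃ₐ[k] L) * (g : L ≃ₐ[k] L)⁻¹) z = z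
    rw [mul_inv_cancel]; rfl
  have hf : ∀ z, z ∈ F (σ g i) ↔ ((g⁻¹ : G) : L ≃ₐ[k] L) z ∈ F i := by
    intro z
    rw [mem_F_iff hσ g i, hgg']
  have hq : ∀ z, z ∈ F (σ g i) ⊓ fixedField (stb G σ (σ g i)) ↔
      ((g⁻¹ : G) : L ≃ₐ[k] L) z ∈ F i ⊓ fixedField (stb G σ i) := by
    intro z
    have := mem_Quo_iff hσ g i (((g⁻¹ : G) : L ≃ₐ[k] L) z)
    rw [hgg'] at this
    exact this.symm
  refine flat_map (inf_le_left : F (σ g i) ⊓ fixedField (stb G σ (σ g i)) ≤ F (σ g i))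
    (inf_le_left : F i ⊓ fixedField (stb G σ i) ≤ F i) ((g⁻¹ : G) : L ≃ₐ[k] L) hq hf
    (B (σ g i)) (B i) (fun p hp p' hpp => hinv g⁻¹ (σ g i) i hi p hp p' hpp)
    (fun p' hp' p hpp => hinv g i (σ g i) rfl p' hp' p fun z z' hz => ?_) h'
  refine (hpp z' z ?_).symm
  rw [← hz, hgg]

/-- The boundary on `Z` is invariant. -/
theorem bdL_inv (hσ : ∀ (g : G) i, ∀ z ∈ F i, (g : L ≃ₐ[k] L) z ∈ F (σ g i))
    (B : ∀ i, Set (Place k ↥(F i ⊓ fixedField (stb G σ i)))) (hinv : BdInv G σ F B) (g : G)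
    (w w' : Place k L) (hw : ∀ z, w'.ord z = w.ord ((g : L ≃ₐ[k] L) z)) (h : BdL G σ F B w) :
    BdL G σ F B w' := by
  obtain ⟨i, p, hp, e, he, hpe⟩ := h
  have hgg : ∀ z : L, ((g⁻¹ : G) : L ≃ₐ[k] L) ((g : L ≃ₐ[k] L) z) = z := fun z => by
    change ((g : L ≃ₐ[k] L)⁻¹ * (g : L ≃ₐ[k] L)) z = z
    rw [inv_mul_cancel]; rfl
  have hgg' : ∀ z : L, (g : L ≃ₐ[k] L) (((g⁻¹ : G) : L ≃ₐ[k] L) z) = z := fun z => by
    change ((g : L ≃ₐ[k] L) * (g : L ≃ₐ[k] L)⁻¹) z = z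
    rw [mul_inv_cancel]; rfl
  have hq : ∀ z, z ∈ F i ⊓ fixedField (stb G σ i) ↔
      ((g⁻¹ : G) : L ≃ₐ[k] L) z ∈ F (σ g⁻¹ i) ⊓ fixedField (stb G σ (σ g⁻¹ i)) :=
    fun z => mem_Quo_iff hσ g⁻¹ i z
  refine ⟨σ g⁻¹ i, pullPlace (mapSub ((g⁻¹ : G) : L ≃ₐ[k] L) hq).symm p,
    hinv g⁻¹ i (σ g⁻¹ i) rfl p hp _ fun z z' hz => ?_, e, he, fun f => ?_⟩
  · change p.ord ((mapSub ((g⁻¹ : G) : L ≃ₐ[k] L) hq).symm z') = _
    congr 1
    rw [AlgEquiv.symm_apply_eq]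
    exact Subtype.ext hz.symm
  · change _ = _ * p.ord ((mapSub ((g⁻¹ : G) : L ≃ₐ[k] L) hq).symm f)
    rw [← hpe, hw]
    congr 1
    change (g : L ≃ₐ[k] L) (f : L) = (((mapSub ((g⁻¹ : G) : L ≃ₐ[k] L) hq).symm f :
      ↥(F i ⊓ fixedField (stb G σ i))) : L)
    have h4 : ((g⁻¹ : G) : L ≃ₐ[k] L) (((mapSub ((g⁻¹ : G) : L ≃ₐ[k] L) hq).symm f :
        ↥(F i ⊓ fixedField (stb G σ i))) : L) = f := by
      rw [← mapSub_coe _ hq, AlgEquiv.apply_symm_apply]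
    rw [← h4, hgg']

end

section

variable {k : Type v} {L : Type u} [Field k] [CharZero k] [IsAlgClosed k] [Field L] [Algebra k L]
  {n : ℕ}

/-- Equivariant data, with boundary. -/
theorem eqv_dataB (hEQV : S_EQV.{u})
    (F : Fin n → IntermediateField k L)
    (G : Subgroup (L ≃ₐ[k] L)) [Finite G] (σ : G →* Equiv.Perm (Fin n))
    (hσ : ∀ (g : G) i, ∀ z ∈ F i, (g : L ≃ₐ[k] L) z ∈ F (σ g i))
    (Bd : Place k (fixedField G) → Prop)
    (N m1 : ℕ) (hm1 : 1 ≤ m1)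
    (H : Set (Fin n)) (hH : ∀ (g : G) i, i ∈ H → σ g i ∈ H)
    (hdata : ∀ i, ∃ (m : ℕ) (x b b' : L), 1 ≤ m ∧ x ∈ Quo G σ F i ∧ Transcendental k x ∧
      b ∈ Quo G σ F i ∧ b ≠ 0 ∧ b' ∈ Quo G σ F i ∧ b' ≠ 0 ∧
      GoodBd Bd (Quo G σ F i) N m x b ∧ GoodBd Bd (Quo G σ F i) N m x b' ∧
      (i ∈ H → Transcendental k (b' / b))) :
    ∃ (r : ℕ) (x c c' : Fin n → L), 1 ≤ r ∧
      (∀ i, x i ∈ Quo G σ F i) ∧ (∀ i, Transcendental k (x i)) ∧
      (∀ (g : G) i, (g : L ≃ₐ[k] L) (x i) = x (σ g i)) ∧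
      (∀ i, c i ∈ Quo G σ F i) ∧ (∀ i, c i ≠ 0) ∧ (∀ i, c' i ∈ Quo G σ F i) ∧ (∀ i, c' i ≠ 0) ∧
      (∀ (g : G) i, (g : L ≃ₐ[k] L) (c i) = c (σ g i)) ∧
      (∀ (g : G) i, (g : L ≃ₐ[k] L) (c' i) = c' (σ g i)) ∧
      (∀ i, GoodBd Bd (Quo G σ F i) N (2 * r * m1) (x i) (c i)) ∧
      (∀ i, GoodBd Bd (Quo G σ F i) N (2 * r * m1) (x i) (c' i)) ∧
      (∀ i ∈ H, Transcendental k (c' i / c i)) := by
  choose m0 x0 b0 b0' hm0 hx0 hxt0 hb0 hb0ne hb0' hb0ne' hg0 hg0' htr0 using hdata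
  let r : ℕ := ∏ i, m0 i
  let m : ℕ := 2 * r * m1
  have hprod : 1 ≤ ∏ i, m0 i := Finset.one_le_prod' fun i _ => hm0 i
  let a : Fin n → ℕ := fun i => 2 * (∏ j ∈ Finset.univ.erase i, m0 j) * m1
  have ham : ∀ i, a i * m0 i = m := fun i => by
    have h1 : (∏ j ∈ Finset.univ.erase i, m0 j) * m0 i = r :=
      Finset.prod_erase_mul _ _ (Finset.mem_univ i)
    simp only [a, m]
    rw [← h1]
    ring
  have ha1 : ∀ i, 1 ≤ a i := fun i => by
    have h1 : 1 ≤ ∏ j ∈ Finset.univ.erase i, m0 j := Finset.one_le_prod' fun j _ => hm0 j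
    simp only [a]
    exact Nat.one_le_iff_ne_zero.2 (by positivity)
  let R : Fin n → (L × L × L) → Prop := fun i t =>
    t.1 ∈ Quo G σ F i ∧ Transcendental k t.1 ∧ t.2.1 ∈ Quo G σ F i ∧ t.2.1 ≠ 0 ∧
      t.2.2 ∈ Quo G σ F i ∧ t.2.2 ≠ 0 ∧ GoodBd Bd (Quo G σ F i) N m t.1 t.2.1 ∧
      GoodBd Bd (Quo G σ F i) N m t.1 t.2.2 ∧ (i ∈ H → Transcendental k (t.2.2 / t.2.1))
  have htrans : ∀ (g : G) (z : L), Transcendental k z → Transcendental k ((g : L ≃ₐ[k] L) z) :=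
    fun g z hz h => hz ((isAlgebraic_algHom_iff (g : L ≃ₐ[k] L).toAlgHom
      (g : L ≃ₐ[k] L).injective).1 h)
  obtain ⟨t, ht, hteq⟩ := hEQV G n σ (L × L × L) R
    (fun g i t ht => by
      obtain ⟨h1, h2, h3, h4, h5, h6, h7, h8, h9⟩ := ht
      have hq := mem_Quo_iff hσ g i
      refine ⟨(hq _).1 h1, htrans g _ h2, (hq _).1 h3, ?_, (hq _).1 h5, ?_, h7.map _ hq,
        h8.map _ hq, fun hi => ?_⟩
      · exact fun h => h4 ((map_eq_zero_iff _ (g : L ≃ₐ[k] L).injective).1 h)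
      · exact fun h => h6 ((map_eq_zero_iff _ (g : L ≃ₐ[k] L).injective).1 h)
      · have h10 : i ∈ H := by
          have := hH g⁻¹ (σ g i) hi
          rwa [map_inv, inv_self] at this
        have h11 := htrans g _ (h9 h10)
        rw [map_div₀] at h11
        exact h11)
    (fun i t ht g hg => by
      obtain ⟨h1, h2, h3, h4, h5, h6, h7, h8, h9⟩ := ht
      exact Prod.ext (quo_fix i g hg h1) (Prod.ext (quo_fix i g hg h3) (quo_fix i g hg h5)))
    (fun i => ⟨(x0 i, b0 i ^ a i, b0' i ^ a i), hx0 i, hxt0 i, pow_mem (hb0 i) _,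
      pow_ne_zero _ (hb0ne i), pow_mem (hb0' i) _, pow_ne_zero _ (hb0ne' i), by
        have := (hg0 i).pow (a i) (ha1 i)
        rwa [ham i] at this, by
        have := (hg0' i).pow (a i) (ha1 i)
        rwa [ham i] at this, fun hi => by
        change Transcendental k (b0' i ^ a i / b0 i ^ a i)
        rw [← div_pow]
        intro halg
        exact htr0 i hi (halg.of_pow (ha1 i))⟩)
  exact ⟨r, fun i => (t i).1, fun i => (t i).2.1, fun i => (t i).2.2, hprod,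
    fun i => (ht i).1, fun i => (ht i).2.1, fun g i => congrArg Prod.fst (hteq g i),
    fun i => (ht i).2.2.1, fun i => (ht i).2.2.2.1, fun i => (ht i).2.2.2.2.1,
    fun i => (ht i).2.2.2.2.2.1, fun g i => congrArg (fun t => t.2.1) (hteq g i),
    fun g i => congrArg (fun t => t.2.2) (hteq g i),
    fun i => (ht i).2.2.2.2.2.2.1, fun i => (ht i).2.2.2.2.2.2.2.1,
    fun i hi => (ht i).2.2.2.2.2.2.2.2 hi⟩

/-- The forms which are good outside the preimages of the `B i` are good outside the boundary. -/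
theorem goodBd_of (G : Subgroup (L ≃ₐ[k] L)) (σ : G →* Equiv.Perm (Fin n))
    (F : Fin n → IntermediateField k L)
    (B : ∀ i, Set (Place k ↥(F i ⊓ fixedField (stb G σ i)))) (i : Fin n) {N m : ℕ} {x b : L}
    (h : ∀ w : Place k L, ((∀ p ∈ B i, ∀ a, ¬ Over w p a) → GoodPl (Quo G σ F i) N m x b w) ∧
      LogPl (Quo G σ F i) m x b w) : GoodBd (BdQ G σ F B) (Quo G σ F i) N m x b := by
  intro v w e hw
  refine ⟨fun hv => (h w).1 fun p hp a ha => hv ⟨w, e, hw, i, p, hp, a, ha⟩, fun _ => (h w).2⟩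

end

end Pool.Agent.W619.Y
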