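import Pool.Agent.W619.Y.LEqv
import Pool.Agent.W619.Y.FinN
import Pool.Agent.W619.Y.FinP
import Pool.Agent.W427.PG.DATAN
import Pool.Agent.W578.PG.DATAP
import Pool.Agent.W216.PG.EFF3
import Pool.Agent.W216.PG.KOD3T
import Pool.Agent.W460.PG.REG3
import Pool.Agent.W349.PG.REGLOG3

/-! Groups permuting the curves, with boundary: lower bounds. -/

set_option autoImplicit false
set_option linter.overlappingInstances false
set_option linter.unusedSectionVars false

universe u v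

open Polynomial FF IntermediateField Pool.Agent.W619.PQ Pool.Agent.W619.PL Pool.Agent.W619.TW
  Pool.Agent.W619.X

namespace Pool.Agent.W619.Y

open Pool.Agent.W603.LV

theorem pREGLOG3 : S_REGLOG3.{u, v} := Pool.Agent.W349.PG.REGLOG3.main pDET2 pORB pEQV
theorem pREG3 : S_REG3.{u, v} := Pool.Agent.W460.PG.REG3.main pPRES pLOG pEXT pREGLOG3
theorem pEFF3 : S_EFF3.{u, v} := Pool.Agent.W216.PG.EFF3.main pEXT pREG3
theorem pKOD3T : S_KOD3T.{u, v} :=
  Pool.Agent.W216.PG.KOD3T.main pEXT pREG3 Pool.Agent.W513.PG.main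

section

variable {k : Type v} {L : Type u} [Field k] [CharZero k] [IsAlgClosed k] [Field L] [Algebra k L]

/-- Effectivity. -/
theorem eff_log (d n : ℕ) (hn : Algebra.trdeg k L = (d + n : ℕ)) (M : IntermediateField k L)
    [Algebra.EssFiniteType k M] (hM : Algebra.trdeg k M = d)
    (F : Fin n → IntermediateField k L) [hF : ∀ i, IsFF k (F i)]
    (halg : Algebra.IsAlgebraic ↥(M ⊔ ⨆ i, F i) L)
    (G : Subgroup (L ≃ₐ[k] L)) [Finite G] (σ : G →* Equiv.Perm (Fin n))
    (hσ : ∀ (g : G) i, ∀ z ∈ F i, (g : L ≃ₐ[k] L) z ∈ F (σ g i))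
    (B : ∀ i, Set (Place k ↥(F i ⊓ fixedField (stb G σ i)))) (hB : ∀ i, (B i).Finite)
    (h : LogMixedNonneg G σ F B)
    (hneg : ∀ i, ¬ IsNegative (inf_le_left : F i ⊓ fixedField (stb G σ i) ≤ F i) (B i))
    (hY : ¬ KodairaNeg k M d) :
    IsEff k (fixedField G) (d + n) (BdQ G σ F B) := by
  obtain ⟨N, hN, hfree, hc⟩ := h
  obtain ⟨m1, η, y, E, hm1, hη, hreg, hy, hE, hη0⟩ := exists_form d M hM hY
  obtain ⟨r, x, c, c', hr, hx, hxt, hxg, hcQ, hc0, -, -, -, -, hg, -, -⟩ :=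
    eqv_dataB pEQV F G σ hσ (BdQ G σ F B) N m1 hm1 ∅ (fun _ _ h => h.elim) (fun i => by
      obtain ⟨m, x, b, h1, h2, h3, h4, h5, h6⟩ :=
        Pool.Agent.W427.PG.main k L n F G σ hσ N hN i (B i) (hB i) (hneg i) (by
        rcases hc i with h | h | h | h
        · exact Or.inl h
        · exact Or.inr (Or.inl h)
        · exact Or.inr (Or.inr h)
        · exact absurd h (hneg i))
      have h7 := goodBd_of G σ F B i h6
      exact ⟨m, x, b, b, h1, h2, h3, h4, h5, h4, h5, h7, h7, fun h => h.elim⟩)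
  have hyg : ∀ w : Place k L, IsDivisorial w (d + n) →
      YGood d (2 * r * m1) w (fun l => (y l : L)) (((η E : M) : L) ^ (2 * r)) := by
    intro w hw
    exact (pYLOC k L M d (d + n) m1 hM hn (fun y hy => fin_over y hy) η hη hreg y E hy hE w hw).pow
      (2 * r)
  have hxF : ∀ i, x i ∈ F i := fun i => (hx i).1
  have hbas := basis_append M F halg hn y hy (fun i => ⟨x i, hxF i⟩) (fun i h =>
    hxt i (by simpa using h.algebraMap (A := L)))
  refine pEFF3 k L d n F G σ hn hσ (BdQ G σ F B) N (2 * r * m1) hN hfree ?_ x c hx hxt hxg hcQ hc0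
    hg (fun l => (y l : L)) (((η E : M) : L) ^ (2 * r)) ?_ hyg hbas
  · exact Nat.one_le_iff_ne_zero.2 (by positivity)
  · refine pow_ne_zero _ fun h0 => hη0 ?_
    exact Subtype.ext h0

/-- The lower bound for the Kodaira dimension. -/
theorem kod_log (d n A : ℕ) (hn : Algebra.trdeg k L = (d + n : ℕ))
    (M : IntermediateField k L)
    [Algebra.EssFiniteType k M] (hM : Algebra.trdeg k M = d)
    (F : Fin n → IntermediateField k L) [hF : ∀ i, IsFF k (F i)]
    (halg : Algebra.IsAlgebraic ↥(M ⊔ ⨆ i, F i) L)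
    (G : Subgroup (L ≃ₐ[k] L)) [Finite G] (σ : G →* Equiv.Perm (Fin n))
    (hσ : ∀ (g : G) i, ∀ z ∈ F i, (g : L ≃ₐ[k] L) z ∈ F (σ g i))
    (B : ∀ i, Set (Place k ↥(F i ⊓ fixedField (stb G σ i)))) (hB : ∀ i, (B i).Finite)
    (hinv : BdInv G σ F B)
    (h : LogMixedPos G σ F B)
    (hneg : ∀ i, ¬ IsNegative (inf_le_left : F i ⊓ fixedField (stb G σ i) ≤ F i) (B i))
    (hY : KodTr k M d A) :
    KodTrB k (fixedField G) (d + n) (BdQ G σ F B)
      (A + {i | ¬ IsFlat (inf_le_left : F i ⊓ fixedField (stb G σ i) ≤ F i) (B i)}.ncard) := by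
  have : CharZero M := charZero_of_alg (k := k)
  obtain ⟨N, hN, hfree, hc⟩ := h
  obtain ⟨m1, hm1, ω, hω, D0, hD0, hind⟩ := hY
  obtain ⟨y, hy⟩ := exists_fin_basis (k := k) d hM
  choose E hE0 using fun j => exists_dual y hy j
  have hE : ∀ i j, E i (y j) = if i = j then 1 else 0 := by
    intro i j
    rw [hE0 i j]
    by_cases h : i = j
    · subst h; simp
    · rw [if_neg h, if_neg (Ne.symm h)]
  have hev : ∀ l, ω l D0 = (Matrix.of fun a b => D0 a (y b)).det ^ m1 * ω l E := fun l =>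
    pluri_frame (hω l).1 y hy E hE D0
  have hη0 : ∀ l, ω l E ≠ 0 := fun l h0 => hD0 l (by rw [hev, h0, mul_zero])
  have hdet : (Matrix.of fun a b => D0 a (y b)).det ^ m1 ≠ 0 := fun h0 =>
    hD0 0 (by rw [hev, h0, zero_mul])
  have hreg : ∀ l, ∀ u : Place k M, IsDivisorial u d → RegularAt u d (ω l) := by
    intro l u hu D hD
    rcases (hω l).2.1 u hu (fun h => h) D hD with h | ⟨s, hs, hs0, h⟩
    · exact Or.inl h
    · right
      simpa using h
  have hflat := flat_inv hσ B hinv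
  obtain ⟨r, x, c, c', hr, hx, hxt, hxg, hcQ, hc0, hcQ', hc0', hcg, hcg', hg, hg', htr⟩ :=
    eqv_dataB pEQV F G σ hσ (BdQ G σ F B) N m1 hm1
      {i | ¬ IsFlat (inf_le_left : F i ⊓ fixedField (stb G σ i) ≤ F i) (B i)}
      (fun g i hi => hflat g i hi) (fun i => by
      obtain ⟨m, x, b, b', h1, h2, h3, h4, h5, h6, h7, h8, h9⟩ :=
        Pool.Agent.W578.PG.main k L n F G σ hσ N hN i (B i) (hB i) (hneg i) (by
          rcases hc i with h | h | h | h
          · exact Or.inl h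
          · exact Or.inr (Or.inl h)
          · exact Or.inr (Or.inr h)
          · exact absurd h (hneg i))
      exact ⟨m, x, b, b', h1, h2, h3, h4, h5, h6, h7,
        goodBd_of G σ F B i fun w => ⟨fun hw => ((h8 w).1 hw).1, (h8 w).2.1⟩,
        goodBd_of G σ F B i fun w => ⟨fun hw => ((h8 w).1 hw).2, (h8 w).2.2⟩, h9⟩)
  refine pKOD3T k L d n A M F G σ hM hn halg hσ (BdQ G σ F B) N (2 * r * m1) hN hfree ?_ ?_
    {i | ¬ IsFlat (inf_le_left : F i ⊓ fixedField (stb G σ i) ≤ F i) (B i)} x c c'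
    (fun g i hi => hflat g i hi) hx hxt hxg hcQ hc0 hcQ'
    hc0' hcg hcg' hg hg' htr y (fun l => ω l E ^ (2 * r)) hy (fun l => pow_ne_zero _ (hη0 l)) ?_ ?_
  · exact Nat.one_le_iff_ne_zero.2 (by positivity)
  · exact ⟨r * m1, by ring⟩
  · intro l w hw
    have h1 := (pYLOC k L M d (d + n) m1 hM hn (fun y hy => fin_over y hy) (ω l) (hω l).1 (hreg l)
      y E hy hE w hw).pow (2 * r)
    simpa using h1
  · have h1 : (fun l : Fin A => ω l.succ E ^ (2 * r) / ω 0 E ^ (2 * r)) =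
        fun l : Fin A => (ω l.succ D0 / ω 0 D0) ^ (2 * r) := by
      funext l
      rw [hev l.succ, hev 0, mul_div_mul_left _ _ hdet, div_pow]
    rw [h1]
    exact algInd_pow hind (2 * r) (by omega)

end

end Pool.Agent.W619.Y
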