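import Pool.Agent.W619.Y.LDefs

/-! Restriction of places along field homomorphisms. -/

set_option autoImplicit false
set_option linter.overlappingInstances false
set_option linter.unusedSectionVars false

universe u v

open Polynomial FF IntermediateField Pool.Agent.W619.PQ Pool.Agent.W619.PL Pool.Agent.W619.TW
  Pool.Agent.W619.X

namespace Pool.Agent.W619.Y

open Pool.Agent.W603.LV

theorem exists_restrict {k k' E L : Type*} [Field k] [Field k'] [Field E] [Algebra k' E] [Field L]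
    [Algebra k L] (w : Place k' E) (φ : L →+* E)
    (hk : ∀ c : k, c ≠ 0 → w.ord (φ (algebraMap k L c)) = 0) {f0 : L} (h0 : w.ord (φ f0) ≠ 0) :
    ∃ (v : Place k L) (a : ℕ), 0 < a ∧ ∀ f, w.ord (φ f) = a * v.ord f := by
  classical
  have hφ : ∀ {f : L}, f ≠ 0 → φ f ≠ 0 := fun hf => (map_ne_zero_iff φ φ.injective).2 hf
  have hf0 : f0 ≠ 0 := by rintro rfl; rw [map_zero, w.ord_zero] at h0; exact h0 rfl
  have hz : ∀ (f : L) (q : ℤ), f ≠ 0 → w.ord (φ (f ^ q)) = q * w.ord (φ f) := by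
    intro f q hf
    have h1 : w.ord (1 : E) = 0 := by
      have := w.ord_mul (one_ne_zero (α := E)) one_ne_zero
      rw [mul_one] at this
      omega
    have hpow : ∀ (z : E), z ≠ 0 → ∀ m : ℕ, w.ord (z ^ m) = m * w.ord z := by
      intro z hz m
      induction m with
      | zero => rw [pow_zero, h1]; simp
      | succ m ih => rw [pow_succ, w.ord_mul (pow_ne_zero _ hz) hz, ih]; push_cast; ring
    rw [map_zpow₀]
    rcases q with q | q
    · change w.ord ((φ f) ^ ((q : ℕ) : ℤ)) = _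
      rw [zpow_natCast, hpow _ (hφ hf)]
      simp
    · rw [zpow_negSucc]
      have h2 := w.ord_mul (pow_ne_zero (q + 1) (hφ hf)) (inv_ne_zero (pow_ne_zero (q + 1) (hφ hf)))
      rw [mul_inv_cancel₀ (pow_ne_zero _ (hφ hf)), h1, hpow _ (hφ hf)] at h2
      rw [Int.negSucc_eq]
      push_cast at h2 ⊢
      linarith
  let P : ℕ → Prop := fun a => 0 < a ∧ ∃ f : L, f ≠ 0 ∧ w.ord (φ f) = a
  have hP : ∃ a, P a := by
    refine ⟨(w.ord (φ f0)).natAbs, Int.natAbs_pos.2 h0, ?_⟩
    rcases le_total 0 (w.ord (φ f0)) with h | h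
    · exact ⟨f0, hf0, by omega⟩
    · refine ⟨f0 ^ (-1 : ℤ), zpow_ne_zero _ hf0, ?_⟩
      rw [hz f0 (-1) hf0]
      omega
  obtain ⟨ha, g, hg0, hg⟩ : P (Nat.find hP) := Nat.find_spec hP
  have hmin : ∀ b : ℕ, P b → Nat.find hP ≤ b := fun b hb => Nat.find_min' hP hb
  generalize Nat.find hP = a at ha hg hmin
  have ha' : (0 : ℤ) < a := by exact_mod_cast ha
  have hdvd : ∀ f : L, (a : ℤ) ∣ w.ord (φ f) := by
    intro f
    by_cases hf : f = 0
    · rw [hf, map_zero, w.ord_zero]; exact dvd_zero _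
    by_contra hnd
    have h1 : w.ord (φ f) % a ≠ 0 := fun h => hnd (Int.dvd_of_emod_eq_zero h)
    have h2 : 0 ≤ w.ord (φ f) % a := Int.emod_nonneg _ ha'.ne'
    have h3 : w.ord (φ f) % a < a := Int.emod_lt_of_pos _ ha'
    have h4 := hmin (w.ord (φ f) % a).toNat ⟨by omega, f * g ^ (-(w.ord (φ f) / a)),
      mul_ne_zero hf (zpow_ne_zero _ hg0), by
        rw [map_mul, w.ord_mul (hφ hf) (hφ (zpow_ne_zero _ hg0)), hz g _ hg0, hg]
        have h5 := Int.emod_add_mul_ediv (w.ord (φ f)) a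
        rw [Int.toNat_of_nonneg h2]
        linarith⟩
    omega
  choose o ho using hdvd
  have hcan : ∀ {x y : ℤ}, (a : ℤ) * x = a * y → x = y := fun h => mul_left_cancel₀ ha'.ne' h
  refine ⟨{ ord := o
            ord_zero := ?_
            ord_mul := ?_
            ord_add := ?_
            ord_const := ?_
            surj := ?_ }, a, ha, ho⟩
  · apply hcan
    rw [← ho, map_zero, w.ord_zero, mul_zero]
  · intro f f' hf hf'
    apply hcan
    rw [← ho, map_mul, w.ord_mul (hφ hf) (hφ hf'), ho, ho]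
    ring
  · intro f f' hf hf' hff
    have h1 := w.ord_add (hφ hf) (hφ hf') (by rw [← map_add]; exact hφ hff)
    rw [← map_add, ho, ho, ho] at h1
    have h2 : min ((a : ℤ) * o f) (a * o f') = a * min (o f) (o f') :=
      (mul_min_of_nonneg _ _ ha'.le).symm
    rw [h2] at h1
    exact le_of_mul_le_mul_left h1 ha'
  · intro c hc
    apply hcan
    rw [← ho, hk c hc, mul_zero]
  · refine ⟨g, hg0, hcan ?_⟩
    rw [← ho, hg, mul_one]

theorem pREST : S_REST.{u, v} := by
  intro k L _ _ _ _ _ F Q hQ w p e hw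
  obtain ⟨t, ht0, ht⟩ := p.surj
  have he : (0 : ℤ) < e := by exact_mod_cast hw.1
  have h1 : w.ord ((F.val : F →+* L) (inclusion hQ t)) = e := by
    have h2 := hw.2 t
    rw [ht, mul_one] at h2
    exact h2
  obtain ⟨q, a, ha, hq⟩ := exists_restrict w (F.val : F →+* L)
    (fun c hc => w.ord_const hc) (f0 := inclusion hQ t) (by rw [h1]; omega)
  have ha' : (0 : ℤ) < a := by exact_mod_cast ha
  have h3 : (a : ℤ) * q.ord (inclusion hQ t) = e := by rw [← hq, h1]
  have h4 : 0 < q.ord (inclusion hQ t) := by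
    by_contra h
    have : (a : ℤ) * q.ord (inclusion hQ t) ≤ 0 :=
      mul_nonpos_of_nonneg_of_nonpos ha'.le (not_lt.1 h)
    omega
  refine ⟨q, a, (q.ord (inclusion hQ t)).toNat, ⟨ha, fun f => hq f⟩, by omega, fun f => ?_⟩
  rw [Int.toNat_of_nonneg h4.le]
  have h5 : (a : ℤ) * q.ord (inclusion hQ f) = e * p.ord f := by
    rw [← hq]
    exact hw.2 f
  apply mul_left_cancel₀ ha'.ne'
  rw [h5, ← h3]
  ring

/-- `A¹`-uniruledness passes to quotients. -/
theorem a1_down {k : Type v} {L : Type u} [Field k] [Field L] [Algebra k L] (r : ℕ)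
    (G : Subgroup (L ≃ₐ[k] L)) (Bd : Place k (fixedField G) → Prop) (BL : Place k L → Prop)
    (h : ∀ w, BdUp Bd w → BL w) (hA : IsA1Uniruled k L r BL) :
    IsA1Uniruled k (fixedField G) r Bd := by
  obtain ⟨M, _, _, φ, h1, h2, h3⟩ := hA
  refine ⟨M, inferInstance, inferInstance, φ.comp (fixedField G).val, h1, h2,
    fun w hX v e he hv hb => ?_⟩
  obtain ⟨t, ht0, ht⟩ := v.surj
  have he' : (0 : ℤ) < e := by exact_mod_cast he
  obtain ⟨w', a, ha, hw'⟩ := exists_restrict w (φ : L →+* RatFunc M) (fun c hc => by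
    change w.ord (φ (algebraMap k L c)) = 0
    rw [φ.commutes, IsScalarTower.algebraMap_apply k M (RatFunc M)]
    exact w.ord_const (by simpa using hc)) (f0 := (t : L)) (by
      have h4 := hv t
      rw [ht, mul_one] at h4
      change w.ord (φ (t : L)) = e at h4
      change w.ord (φ (t : L)) ≠ 0
      rw [h4]
      omega)
  have ha' : (0 : ℤ) < a := by exact_mod_cast ha
  have h5 : (a : ℤ) * w'.ord (t : L) = e := by
    rw [← hw']
    have h4 := hv t
    rw [ht, mul_one] at h4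
    exact h4
  have h6 : 0 < w'.ord (t : L) := by
    by_contra h
    have : (a : ℤ) * w'.ord (t : L) ≤ 0 := mul_nonpos_of_nonneg_of_nonpos ha'.le (not_lt.1 h)
    omega
  refine h3 w hX w' a ha (fun f => hw' f) (h w' ⟨v, (w'.ord (t : L)).toNat, ⟨by omega,
    fun f => ?_⟩, hb⟩)
  rw [Int.toNat_of_nonneg h6.le]
  have h7 : (a : ℤ) * w'.ord (f : L) = e * v.ord f := by
    rw [← hw']
    exact hv f
  apply mul_left_cancel₀ ha'.ne'
  change (a : ℤ) * w'.ord (f : L) = _
  rw [h7, ← h5]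
  ring

end Pool.Agent.W619.Y
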