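import Pool.Agent.W619.Y.LEqv
import Pool.Agent.W619.Y.Down
import Pool.Agent.W619.X.KN

/-! Groups permuting the curves, with boundary: upper bounds. -/

set_option autoImplicit false
set_option linter.overlappingInstances false
set_option linter.unusedSectionVars false

universe u v

open Polynomial FF IntermediateField Pool.Agent.W619.PQ Pool.Agent.W619.PL Pool.Agent.W619.TW
  Pool.Agent.W619.X

namespace Pool.Agent.W619.Y

open Pool.Agent.W603.LV

section

variable {k : Type*} {K : Type*} [Field k] [Field K] [Algebra k K] {n : ℕ}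
  {Bd Bd' : Place k K → Prop}

theorem sec_mono (h : ∀ v, Bd v → Bd' v) {S : Finset K} {m j : ℕ}
    {ω : (Fin n → Derivation k K K) → K} (hω : IsSec k K n Bd S m j ω) :
    IsSec k K n Bd' S m j ω := by
  refine ⟨hω.1, fun v hv hb D hD => hω.2.1 v hv (fun h1 => hb (h v h1)) D hD,
    fun v hv hb D hD => ?_⟩
  by_cases h1 : Bd v
  · exact hω.2.2 v hv h1 D hD
  · refine hω.2.1 v hv h1 D fun l f hf => ?_
    by_cases hf0 : f = 0
    · subst hf0
      rw [map_zero]
      exact Or.inl rfl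
    have h2 : D l f = D l f / f * f := by field_simp
    rw [h2]
    rcases hD l f with h3 | h3
    · rw [h3, zero_mul]; exact Or.inl rfl
    rcases hf with h4 | h4
    · exact absurd h4 hf0
    by_cases h5 : D l f = 0
    · rw [h5, zero_div, zero_mul]; exact Or.inl rfl
    right
    rw [v.ord_mul (div_ne_zero h5 hf0) hf0]
    omega

theorem psef_mono (h : ∀ v, Bd v → Bd' v) (hp : IsPsef k K n Bd) : IsPsef k K n Bd' := by
  obtain ⟨S, hS⟩ := hp
  refine ⟨S, fun N => ?_⟩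
  obtain ⟨j, hj, ω, hω, hD⟩ := hS N
  exact ⟨j, hj, ω, sec_mono h hω, hD⟩

theorem indep_mono (h : ∀ v, Bd v → Bd' v) {S : Finset K} {m j N : ℕ}
    (hI : HasIndep k K n N (IsSec k K n Bd S m j)) : HasIndep k K n N (IsSec k K n Bd' S m j) := by
  obtain ⟨ω, h1, h2⟩ := hI
  exact ⟨ω, h1, fun l => sec_mono h (h2 l)⟩

theorem neg_mono (h : ∀ v, Bd v → Bd' v) (hp : NumNeg k K n Bd') : NumNeg k K n Bd := by
  intro S
  obtain ⟨m0, hm0⟩ := hp S
  exact ⟨m0, fun m hm hI => hm0 m hm (indep_mono h hI)⟩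

theorem le_mono (h : ∀ v, Bd v → Bd' v) {a : ℕ} (hp : NumLe k K n Bd' a) : NumLe k K n Bd a := by
  intro S
  obtain ⟨C, hC⟩ := hp S
  exact ⟨C, fun m N hm hI => hC m N hm (indep_mono h hI)⟩

end

section

variable {k : Type v} {L : Type u} [Field k] [CharZero k] [IsAlgClosed k] [Field L] [Algebra k L]

/-- The places of the curve `F` over the points of `B`. -/
def BFof (F : IntermediateField k L) (H : Subgroup (L ≃ₐ[k] L))
    (B : Set (Place k ↥(F ⊓ fixedField H))) (q : Place k F) : Prop :=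
  ∃ p ∈ B, ∃ e, LiesOver (inf_le_left : F ⊓ fixedField H ≤ F) q p e

theorem deg_iff (F : IntermediateField k L) [hF : IsFF k F] (H : Subgroup (L ≃ₐ[k] L)) [Finite H]
    (hst : ∀ g ∈ H, ∀ z ∈ F, g z ∈ F) (B : Set (Place k ↥(F ⊓ fixedField H))) (hB : B.Finite) :
    {q | BFof F H B q}.Finite ∧
    (IsNegative (inf_le_left : F ⊓ fixedField H ≤ F) B ↔
      canDeg k F + {q | BFof F H B q}.ncard < 0) ∧
    (IsFlat (inf_le_left : F ⊓ fixedField H ≤ F) B ↔
      canDeg k F + ({q | BFof F H B q}.ncard : ℤ) = 0) := by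
  let E0 : Type u := ↥(F ⊓ fixedField H)
  let _ : Field E0 := inferInstanceAs (Field ↥(F ⊓ fixedField H))
  let _ : Algebra k E0 := inferInstanceAs (Algebra k ↥(F ⊓ fixedField H))
  let _ : Algebra E0 F := (inclusion (inf_le_left : F ⊓ fixedField H ≤ F)).toRingHom.toAlgebra
  let _ : Algebra E0 (fixedField H) :=
    (inclusion (inf_le_right : F ⊓ fixedField H ≤ fixedField H)).toRingHom.toAlgebra
  let _ : Algebra E0 L := inferInstanceAs (Algebra ↥(F ⊓ fixedField H) L)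
  have t1 : IsScalarTower k E0 F := IsScalarTower.of_algebraMap_eq fun c => rfl
  have t2 : IsScalarTower k E0 L := IsScalarTower.of_algebraMap_eq fun c => rfl
  have t3 : IsScalarTower k E0 (fixedField H) := IsScalarTower.of_algebraMap_eq fun c => rfl
  have t4 : IsScalarTower E0 F L := IsScalarTower.of_algebraMap_eq fun c => rfl
  have t5 : IsScalarTower E0 (fixedField H) L := IsScalarTower.of_algebraMap_eq fun c => rfl
  have f1 : FiniteDimensional E0 F := inf_finite H F hst fun z => rfl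
  have f2 : IsFF k E0 := isFF_down (E := F)
  have hUB : (UB1 F (fun q : Place k E0 => q ∈ B)).Finite := UB1_finite hB
  have hset : {q | BFof F H B q} = UB1 F (fun q : Place k E0 => q ∈ B) := by
    ext q
    constructor
    · rintro ⟨p, hp, e, he⟩
      exact ⟨p, e, he, hp⟩
    · rintro ⟨p, e, he, hp⟩
      exact ⟨p, hp, e, he⟩
  rw [hset]
  refine ⟨hUB, ?_, ?_, ?_⟩
  · refine Iff.trans ?_ (neg_iff (E0 := E0) (E := F) (B0 := fun q => q ∈ B) hUB).symm
    refine and_congr_right fun _ => ⟨fun h w hw w' hw' => ?_, fun h w w' hw hw' => ?_⟩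
    · obtain ⟨p, r, h1, h2⟩ := hw
      obtain ⟨p', r', h1', h2'⟩ := hw'
      exact h w w' ⟨p, h2, r, h1⟩ ⟨p', h2', r', h1'⟩
    · obtain ⟨p, h2, r, h1⟩ := hw
      obtain ⟨p', h2', r', h1'⟩ := hw'
      exact h w ⟨p, r, h1, h2⟩ w' ⟨p', r', h1', h2'⟩
  · rintro ⟨D, hD⟩
    refine flat_of_der (E := F) hUB (D := D) fun w t ht => ?_
    obtain ⟨a1, a2⟩ := hD w t ht
    refine ⟨a1, fun hw => ?_, fun hw => ?_⟩
    · obtain ⟨p, r, hp1, hp2⟩ := hw
      rw [a2, if_pos ⟨p, hp2, r, hp1⟩]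
    · rw [a2, if_neg]
      rintro ⟨p, hp2, r, hp1⟩
      exact hw ⟨p, r, hp1, hp2⟩
  · intro h0
    have hlog := hasLog_of_nonneg (E := F) hUB h0.ge
    obtain ⟨D, hD⟩ := der_of_flat (E := F) hUB hlog h0
    refine ⟨D, fun w t ht => ?_⟩
    obtain ⟨a1, a2, a3⟩ := hD w t ht
    refine ⟨a1, ?_⟩
    split_ifs with hw
    · obtain ⟨p, hp2, r, hp1⟩ := hw
      exact a2 ⟨p, r, hp1, hp2⟩
    · refine a3 fun h => hw ?_
      obtain ⟨p, r, hp1, hp2⟩ := h
      exact ⟨p, hp2, r, hp1⟩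

theorem downB (r : ℕ) (hn : Algebra.trdeg k L = r) [Algebra.EssFiniteType k L]
    (G : Subgroup (L ≃ₐ[k] L)) [Finite G] (Bd : Place k (fixedField G) → Prop)
    (BL : Place k L → Prop) (h : ∀ w, BdUp Bd w → BL w) :
    (IsPsef k (fixedField G) r Bd → IsPsef k L r BL) ∧
    (NumNeg k L r BL → NumNeg k (fixedField G) r Bd) ∧
    ∀ a, NumLe k L r BL a → NumLe k (fixedField G) r Bd a := by
  have hfinL : FiniteDimensional (fixedField G) L := by
    have hGal : IsGaloisGroup G (fixedField G) L := isGaloisGroup_fixed G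
    exact IsGaloisGroup.finiteDimensional G (fixedField G) L
  have hnK : Algebra.trdeg k (fixedField G) = r := by
    rw [← hn, ← trdeg_add_eq k (fixedField G) (A := L),
      trdeg_eq_zero (R := fixedField G) (A := L), add_zero]
  obtain ⟨h1, h2, h3⟩ := pTRANS k (fixedField G) L r hnK
    (fun y hy => fin_over_adjoin r (fixedField G) y hy) Bd
  exact ⟨fun hp => psef_mono h (h1 hp), fun hp => h2 (neg_mono h hp),
    fun a hp => h3 a (le_mono h hp)⟩

/-- Upper bounds. -/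
theorem num_log (hMANY : S_MANYB.{u, v}) (hCONJ : S_CONJ.{u, v}) (hREST : S_REST.{u, v})
    (d n : ℕ) (hn : Algebra.trdeg k L = (d + n : ℕ))
    (M : IntermediateField k L)
    [Algebra.EssFiniteType k M] (hM : Algebra.trdeg k M = d)
    (F : Fin n → IntermediateField k L) [hF : ∀ i, IsFF k (F i)] (hsup : M ⊔ (⨆ i, F i) = ⊤)
    (G : Subgroup (L ≃ₐ[k] L)) [Finite G] (σ : G →* Equiv.Perm (Fin n))
    (hσ : ∀ (g : G) i, ∀ z ∈ F i, (g : L ≃ₐ[k] L) z ∈ F (σ g i))
    (B : ∀ i, Set (Place k ↥(F i ⊓ fixedField (stb G σ i)))) (hB : ∀ i, (B i).Finite)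
    (hinv : BdInv G σ F B) :
    (IsPsef k (fixedField G) (d + n) (BdQ G σ F B) → IsPsef k M d (fun _ => False)) ∧
    (NumNeg k M d (fun _ => False) → NumNeg k (fixedField G) (d + n) (BdQ G σ F B)) ∧
    ((∃ i, IsNegative (inf_le_left : F i ⊓ fixedField (stb G σ i) ≤ F i) (B i)) →
      ¬ IsPsef k (fixedField G) (d + n) (BdQ G σ F B) ∧
      NumNeg k (fixedField G) (d + n) (BdQ G σ F B)) ∧
    ∀ a : ℕ, (∀ i, ¬ IsNegative (inf_le_left : F i ⊓ fixedField (stb G σ i) ≤ F i) (B i)) →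
      NumLe k M d (fun _ => False) a →
      NumLe k (fixedField G) (d + n) (BdQ G σ F B)
        (a + {i | ¬ IsFlat (inf_le_left : F i ⊓ fixedField (stb G σ i) ≤ F i) (B i)}.ncard) := by
  have hess := ess_top M F hsup
  have hdeg := fun i => deg_iff (F i) (stb G σ i) (stb_stable (G := G) (σ := σ) hσ i) (B i) (hB i)
  obtain ⟨h1, h2, h3, h4⟩ := hMANY k L d n M F (fun _ => False)
    (fun i => BFof (F i) (stb G σ i) (B i)) hM hn hsup (fun i => (hdeg i).1)
  obtain ⟨d1, d2, d3⟩ := downB (d + n) hn G (BdQ G σ F B)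
    (BdMany M F (fun _ => False) fun i => BFof (F i) (stb G σ i) (B i)) (by
      rintro w ⟨v, e, hwv, w', e', hwv', hL⟩
      obtain ⟨g, hg⟩ := hCONJ k L G v w' w e' e hwv' hwv
      obtain ⟨i, p, hp, a, ha⟩ := bdL_inv hσ B hinv g w' w hg hL
      obtain ⟨q, b, c, hq1, hq2⟩ := hREST k L (F i) (F i ⊓ fixedField (stb G σ i)) inf_le_left w p
        a ha
      exact Or.inr ⟨i, q, b, hq1, p, hp, c, hq2⟩)
  refine ⟨fun h => h1 (d1 h), fun h => d2 (h2 h), ?_, fun a hneg ha => d3 _ ?_⟩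
  · rintro ⟨i, hi⟩
    obtain ⟨h5, h6⟩ := h3 ⟨i, (hdeg i).2.1.1 hi⟩
    exact ⟨fun h => h5 (d1 h), d2 h6⟩
  · have h5 := h4 a (fun i => by
      have := (hdeg i).2.1.not.1 (hneg i)
      exact not_lt.1 this) ha
    have h6 : {i | canDeg k (F i) + ({p | BFof (F i) (stb G σ i) (B i) p}.ncard : ℤ) ≠ 0} =
        {i | ¬ IsFlat (inf_le_left : F i ⊓ fixedField (stb G σ i) ≤ F i) (B i)} := by
      ext i
      exact (hdeg i).2.2.not.symm
    rwa [h6] at h5

end

end Pool.Agent.W619.Y
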