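import Pool.Agent.W619.Y.Stm4

/-! Quotients of `Y × C 1 × ... × C n`: passage from `Y` to the product. -/

set_option autoImplicit false
set_option linter.overlappingInstances false
set_option linter.unusedSectionVars false

universe u v

open FF IntermediateField Pool.Agent.W619.PQ Pool.Agent.W619.PL Pool.Agent.W619.TW
  Pool.Agent.W603.LV

namespace Pool.Agent.W619.Y

/-- Sections of `m K + j A` restricted to the generic curve `F` over `M`. -/
def S_FIBJ : Prop := ∀ (k : Type v) (L : Type u) [Field k] [CharZero k] [IsAlgClosed k]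
  [Field L] [Algebra k L] (M F : IntermediateField k L) [IsFF k F] (d : ℕ),
    Algebra.trdeg k M = d → Algebra.trdeg k L = (d + 1 : ℕ) → M ⊔ F = ⊤ →
    ∀ (y : Fin d → M), IsTranscendenceBasis k y → ∀ (t : F), Transcendental k t →
    ∀ (E : Fin (d + 1) → Derivation k L L), (∀ μ : M, E 0 (μ : L) = 0) → E 0 (t : L) = 1 →
      (∀ l : Fin d, ∀ β : F, E l.succ (β : L) = 0) →
      (∀ l j : Fin d, E l.succ (y j : L) = if l = j then 1 else 0) →
    ∀ S : Finset L, ∃ (b0 : L) (A0 : ℕ), b0 ≠ 0 ∧ ∀ m j : ℕ, ∃ W : Submodule k F,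
      FiniteDimensional k W ∧ (Module.finrank k W : ℤ) ≤ max 0 (m * canDeg k F + j * A0 + 1) ∧
      ∀ ω : (Fin (d + 1) → Derivation k L L) → L,
        IsSec k L (d + 1) (fun _ => False) S m j ω →
        b0 ^ j * ω E ∈ Submodule.span M ((fun β : F => (β : L)) '' (W : Set F))

/-- The coefficients of a section of `m K + j A` with respect to functions on the curve `F` are
sections of `m K + j A'` on the other factor. -/
def S_DESCJ : Prop := ∀ (k : Type v) (L : Type u) [Field k] [CharZero k] [IsAlgClosed k]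
  [Field L] [Algebra k L] (M F : IntermediateField k L) [IsFF k F] (d : ℕ),
    Algebra.trdeg k M = d → Algebra.trdeg k L = (d + 1 : ℕ) → M ⊔ F = ⊤ →
    ∀ (y : Fin d → M), IsTranscendenceBasis k y → ∀ (t : F), Transcendental k t →
    ∀ (E : Fin (d + 1) → Derivation k L L), (∀ μ : M, E 0 (μ : L) = 0) → E 0 (t : L) = 1 →
      (∀ l : Fin d, ∀ β : F, E l.succ (β : L) = 0) →
      (∀ l j : Fin d, E l.succ (y j : L) = if l = j then 1 else 0) →
    ∀ (S : Finset L) (b0 : L), b0 ≠ 0 → ∃ S' : Finset M, ∀ (m j : ℕ)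
      (ω : (Fin (d + 1) → Derivation k L L) → L), IsSec k L (d + 1) (fun _ => False) S m j ω →
      ∀ (r : ℕ) (β : Fin r → F) (μ : Fin r → M), LinearIndependent k β →
        b0 ^ j * ω E = ∑ i, (β i : L) * (μ i : L) →
        ∀ i, IsSec k M d (fun _ => False) S' m j
          (fun D => μ i * (Matrix.of fun a b => D a (y b)).det ^ m)

/-- Pseudo-effectivity and effectivity descend to the other factor. -/
def S_PSEFY : Prop := ∀ (k : Type v) (L : Type u) [Field k] [CharZero k] [IsAlgClosed k]
  [Field L] [Algebra k L] (M F : IntermediateField k L) [IsFF k F] (d : ℕ),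
    Algebra.trdeg k M = d → Algebra.trdeg k L = (d + 1 : ℕ) → M ⊔ F = ⊤ →
    (IsPsef k L (d + 1) (fun _ => False) → IsPsef k M d (fun _ => False)) ∧
    (NumNeg k M d (fun _ => False) → NumNeg k L (d + 1) (fun _ => False))

/-- The numerical dimension of `Y × C 1 × ... × C n`. -/
def S_MANY : Prop := ∀ (k : Type v) (L : Type u) [Field k] [CharZero k] [IsAlgClosed k]
  [Field L] [Algebra k L] (d n : ℕ) (M : IntermediateField k L)
  (F : Fin n → IntermediateField k L) [∀ i, IsFF k (F i)] [Algebra.EssFiniteType k M],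
    Algebra.trdeg k M = d → Algebra.trdeg k L = (d + n : ℕ) → M ⊔ (⨆ i, F i) = ⊤ →
    (IsPsef k L (d + n) (fun _ => False) → IsPsef k M d (fun _ => False)) ∧
    (NumNeg k M d (fun _ => False) → NumNeg k L (d + n) (fun _ => False)) ∧
    ∀ a : ℕ, (∀ i, 0 ≤ canDeg k (F i)) → NumLe k M d (fun _ => False) a →
      NumLe k L (d + n) (fun _ => False) (a + {i | canDeg k (F i) ≠ 0}.ncard)

/-- If `Y` is uniruled, so is `Y × C 1 × ... × C n`. -/
def S_UNI : Prop := ∀ (k : Type v) (L : Type u) [Field k] [CharZero k] [IsAlgClosed k]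
  [Field L] [Algebra k L] (d n : ℕ) (M : IntermediateField k L)
  (F : Fin n → IntermediateField k L) [∀ i, IsFF k (F i)],
    Algebra.trdeg k M = d → Algebra.trdeg k L = (d + n : ℕ) → M ⊔ (⨆ i, F i) = ⊤ →
    IsUniruled k M d → IsUniruled k L (d + n)

/-- If one of the curves is rational, then `Y × C 1 × ... × C n` is uniruled, and ruled. -/
def S_URAT : Prop := ∀ (k : Type v) (L : Type u) [Field k] [CharZero k] [IsAlgClosed k]
  [Field L] [Algebra k L] (d n : ℕ) (M : IntermediateField k L)
  (F : Fin n → IntermediateField k L) [∀ i, IsFF k (F i)] [Algebra.EssFiniteType k M],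
    Algebra.trdeg k M = d → Algebra.trdeg k L = (d + n : ℕ) → M ⊔ (⨆ i, F i) = ⊤ →
    (∃ i, ∃ t : F i, k⟮t⟯ = ⊤) → IsUniruled k L (d + n) ∧
      ∃ (M' : IntermediateField k L) (t : L), Transcendental M' t ∧
        IntermediateField.adjoin M' {t} = ⊤

end Pool.Agent.W619.Y
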