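import Pool.Agent.W619.Y.Final
import Pool.Agent.W619.Y.KodT
import Pool.Agent.W904.PG.UNI

/-! Final forms. -/

set_option autoImplicit false
set_option linter.overlappingInstances false
set_option linter.unusedSectionVars false

universe u v

open Polynomial FF IntermediateField Pool.Agent.W619.PQ Pool.Agent.W619.PL Pool.Agent.W619.TW
  Pool.Agent.W619.X

namespace Pool.Agent.W619.Y

open Pool.Agent.W603.LV

theorem pKOD2T : S_KOD2T.{u, v} := kod2T pEXT pREG2 Pool.Agent.W513.PG.main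

section

variable {k : Type v} {L : Type u} [Field k] [CharZero k] [IsAlgClosed k] [Field L] [Algebra k L]

theorem alg_of_top {n : ℕ} (M : IntermediateField k L) (F : Fin n → IntermediateField k L)
    (hsup : M ⊔ (⨆ i, F i) = ⊤) : Algebra.IsAlgebraic ↥(M ⊔ ⨆ i, F i) L :=
  ⟨fun z => by
    have hz : z ∈ M ⊔ ⨆ i, F i := by rw [hsup]; trivial
    exact isAlgebraic_algebraMap (⟨z, hz⟩ : ↥(M ⊔ ⨆ i, F i))⟩

variable (d n : ℕ) (hn : Algebra.trdeg k L = (d + n : ℕ)) (M : IntermediateField k L)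
    [Algebra.EssFiniteType k M] (hM : Algebra.trdeg k M = d)
    (F : Fin n → IntermediateField k L) [hF : ∀ i, IsFF k (F i)]

include hn hM in
theorem classM (halg : Algebra.IsAlgebraic ↥(M ⊔ ⨆ i, F i) L)
    (G : Subgroup (L ≃ₐ[k] L)) [Finite G] (σ : G →* Equiv.Perm (Fin n))
    (hσ : ∀ (g : G) i, ∀ z ∈ F i, (g : L ≃ₐ[k] L) z ∈ F (σ g i))
    (h : MixedNonneg G σ F) (hκ : KodairaNeg k (fixedField G) (d + n)) :
    (KodairaNeg k M d ∨ ∃ i, ∃ t : F i, k⟮t⟯ = ⊤) ∧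
    (M ⊔ (⨆ i, F i) = ⊤ → (KodairaNeg k M d → IsUniruled k M d) →
      IsUniruled k (fixedField G) (d + n)) :=
  class_mixed Pool.Agent.W904.PG.main d n hn M hM F halg G σ hσ h hκ

include hn hM in
theorem kodM (halg : Algebra.IsAlgebraic ↥(M ⊔ ⨆ i, F i) L)
    (G : Subgroup (L ≃ₐ[k] L)) [Finite G] (σ : G →* Equiv.Perm (Fin n))
    (hσ : ∀ (g : G) i, ∀ z ∈ F i, (g : L ≃ₐ[k] L) z ∈ F (σ g i))
    (h : MixedNonneg G σ F) :
    (¬ KodairaNeg k M d → (∀ i, ¬ ∃ t : F i, k⟮t⟯ = ⊤) → ¬ KodairaNeg k (fixedField G) (d + n)) ∧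
    (M ⊔ (⨆ i, F i) = ⊤ →
      ((∃ i, ∃ t : F i, k⟮t⟯ = ⊤) → KodairaNeg k (fixedField G) (d + n) ∧
        IsUniruled k (fixedField G) (d + n)) ∧
      ((KodairaNeg k M d → IsUniruled k M d) → KodairaNeg k (fixedField G) (d + n) →
        IsUniruled k (fixedField G) (d + n))) := by
  refine ⟨fun hY hirr => kappa_mixed d n hn M hM F halg G σ hσ h hirr hY, fun hsup =>
    ⟨fun hi => ?_, fun hY hκ => (classM d n hn M hM F halg G σ hσ h hκ).2 hsup hY⟩⟩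
  obtain ⟨h1, -, h2⟩ := rat_mixed d n hn M hM F hsup G hi
  exact ⟨kodairaNeg_of_not_eff.1 fun h3 => h1 (psef_of_eff h3), h2⟩

include hn hM in
theorem nvM (halg : Algebra.IsAlgebraic ↥(M ⊔ ⨆ i, F i) L)
    (G : Subgroup (L ≃ₐ[k] L)) [Finite G] (σ : G →* Equiv.Perm (Fin n))
    (hσ : ∀ (g : G) i, ∀ z ∈ F i, (g : L ≃ₐ[k] L) z ∈ F (σ g i))
    (h : MixedNonneg G σ F) :
    (IsEff k M d (fun _ => False) → (∀ i, ¬ ∃ t : F i, k⟮t⟯ = ⊤) →
      IsEff k (fixedField G) (d + n) (fun _ => False)) ∧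
    (M ⊔ (⨆ i, F i) = ⊤ → IsPsef k (fixedField G) (d + n) (fun _ => False) →
      IsPsef k M d (fun _ => False) ∧ (∀ i, ¬ ∃ t : F i, k⟮t⟯ = ⊤) ∧
        (IsEff k M d (fun _ => False) → IsEff k (fixedField G) (d + n) (fun _ => False))) :=
  nv_mixed d n hn M hM F halg G σ hσ h

include hn hM in
theorem abM (halg : Algebra.IsAlgebraic ↥(M ⊔ ⨆ i, F i) L)
    (G : Subgroup (L ≃ₐ[k] L)) [Finite G] (σ : G →* Equiv.Perm (Fin n))
    (hσ : ∀ (g : G) i, ∀ z ∈ F i, (g : L ≃ₐ[k] L) z ∈ F (σ g i))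
    (h : MixedPos G σ F) :
    ((∀ i, ¬ ∃ t : F i, k⟮t⟯ = ⊤) → ∀ a, KodTr k M d a →
      KodTr k (fixedField G) (d + n) (a + {i | ¬ IsElliptic (F i)}.ncard) ∧
      KodGe k (fixedField G) (d + n) (fun _ => False) (a + {i | ¬ IsElliptic (F i)}.ncard)) ∧
    (M ⊔ (⨆ i, F i) = ⊤ →
      ((∀ i, ¬ ∃ t : F i, k⟮t⟯ = ⊤) → ∀ a, NumLe k M d (fun _ => False) a →
        NumLe k (fixedField G) (d + n) (fun _ => False) (a + {i | ¬ IsElliptic (F i)}.ncard)) ∧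
      ((NumNeg k M d (fun _ => False) ∨ ∃ i, ∃ t : F i, k⟮t⟯ = ⊤) →
        NumNeg k (fixedField G) (d + n) (fun _ => False)) ∧
      (IsPsef k (fixedField G) (d + n) (fun _ => False) → IsPsef k M d (fun _ => False) ∧
        ∀ i, ¬ ∃ t : F i, k⟮t⟯ = ⊤)) :=
  ab_mixed pKOD2T d n hn M hM F halg G σ hσ h

theorem eff_of_kodTr {K : Type*} [Field K] [Algebra k K] {m a : ℕ} (h : KodTr k K m a) :
    IsEff k K m (fun _ => False) := by
  obtain ⟨m1, hm1, ω, hω, D, hD, -⟩ := h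
  exact ⟨m1, hm1, ω 0, hω 0, D, hD 0⟩

include hn hM in
theorem psefM (halg : Algebra.IsAlgebraic ↥(M ⊔ ⨆ i, F i) L)
    (G : Subgroup (L ≃ₐ[k] L)) [Finite G] (σ : G →* Equiv.Perm (Fin n))
    (hσ : ∀ (g : G) i, ∀ z ∈ F i, (g : L ≃ₐ[k] L) z ∈ F (σ g i))
    (h : MixedPos G σ F) :
    (KodTr k M d d → (∀ i, ¬ (∃ t : F i, k⟮t⟯ = ⊤) ∧ ¬ IsElliptic (F i)) →
      KodGe k (fixedField G) (d + n) (fun _ => False) (d + n)) ∧
    (M ⊔ (⨆ i, F i) = ⊤ → ∀ a, KodTr k M d a → NumLe k M d (fun _ => False) a →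
      (IsPsef k (fixedField G) (d + n) (fun _ => False) ↔ ∀ i, ¬ ∃ t : F i, k⟮t⟯ = ⊤) ∧
      (IsPsef k (fixedField G) (d + n) (fun _ => False) →
        KodTr k (fixedField G) (d + n) (a + {i | ¬ IsElliptic (F i)}.ncard) ∧
        KodGe k (fixedField G) (d + n) (fun _ => False) (a + {i | ¬ IsElliptic (F i)}.ncard) ∧
        NumLe k (fixedField G) (d + n) (fun _ => False)
          (a + {i | ¬ IsElliptic (F i)}.ncard))) := by
  obtain ⟨h1, h2⟩ := abM d n hn M hM F halg G σ hσ h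
  refine ⟨fun hY hall => ?_, fun hsup a ha hb => ?_⟩
  · have h3 := (h1 (fun i => (hall i).1) d hY).2
    have h4 : {i | ¬ IsElliptic (F i)} = Set.univ :=
      Set.eq_univ_of_forall fun i => (hall i).2
    rw [h4, Set.ncard_univ, Nat.card_eq_fintype_card, Fintype.card_fin] at h3
    exact h3
  · obtain ⟨h3, -, h4⟩ := h2 hsup
    refine ⟨⟨fun hp => (h4 hp).2, fun hirr =>
      psef_of_eff (eff_of_kodTr (h1 hirr a ha).1)⟩, fun hp => ?_⟩
    have h5 := (h4 hp).2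
    exact ⟨(h1 h5 a ha).1, (h1 h5 a ha).2, h3 h5 a hb⟩

include hn hM in
theorem mmM (hsup : M ⊔ (⨆ i, F i) = ⊤)
    (G : Subgroup (L ≃ₐ[k] L)) [Finite G] (σ : G →* Equiv.Perm (Fin n))
    (hσ : ∀ (g : G) i, ∀ z ∈ F i, (g : L ≃ₐ[k] L) z ∈ F (σ g i))
    (h : MixedPos G σ F) (a : ℕ)
    (hY : IsUniruled k M d ∨ (KodTr k M d a ∧ NumLe k M d (fun _ => False) a)) :
    (IsUniruled k (fixedField G) (d + n) ∧ ¬ IsPsef k (fixedField G) (d + n) (fun _ => False) ∧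
      NumNeg k (fixedField G) (d + n) (fun _ => False)) ∨
    (¬ IsUniruled k M d ∧ (∀ i, ¬ ∃ t : F i, k⟮t⟯ = ⊤) ∧
      KodTr k (fixedField G) (d + n) (a + {i | ¬ IsElliptic (F i)}.ncard) ∧
      KodGe k (fixedField G) (d + n) (fun _ => False) (a + {i | ¬ IsElliptic (F i)}.ncard) ∧
      NumLe k (fixedField G) (d + n) (fun _ => False) (a + {i | ¬ IsElliptic (F i)}.ncard)) := by
  obtain ⟨h1, h2⟩ := abM d n hn M hM F (alg_of_top M F hsup) G σ hσ h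
  obtain ⟨h3, h4, h5⟩ := h2 hsup
  by_cases hU : IsUniruled k M d
  · left
    obtain ⟨h6, h7⟩ := uniruled_neg d hM hU
    exact ⟨uniruled_down G (Pool.Agent.W904.PG.main k L d n M F hM hn hsup hU),
      fun hp => h6 (h5 hp).1, h4 (Or.inl h7)⟩
  by_cases hi : ∃ i, ∃ t : F i, k⟮t⟯ = ⊤
  · left
    obtain ⟨h6, h7, h8⟩ := rat_mixed d n hn M hM F hsup G hi
    exact ⟨h8, h6, h7⟩
  · right
    have hirr : ∀ i, ¬ ∃ t : F i, k⟮t⟯ = ⊤ := fun i h => hi ⟨i, h⟩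
    obtain ⟨ha, hb⟩ := hY.resolve_left hU
    exact ⟨hU, hirr, (h1 hirr a ha).1, (h1 hirr a ha).2, h3 hirr a hb⟩

end

end Pool.Agent.W619.Y
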