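import Pool.Agent.W619.Y.Stm7

/-! Upper bounds for `Y × C 1 × ... × C n`, with boundary. -/

set_option autoImplicit false
set_option linter.overlappingInstances false
set_option linter.unusedSectionVars false

universe u v

open FF IntermediateField Pool.Agent.W619.PQ Pool.Agent.W619.PL Pool.Agent.W619.TW
  Pool.Agent.W603.LV

namespace Pool.Agent.W619.Y

section

variable {k : Type v} {L : Type u} [Field k] [Field L] [Algebra k L]

/-- The boundary on the product of `M` and `F`: the places over a place in `BY` or in `BF`. -/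
def BdTwo (M F : IntermediateField k L) (BY : Place k M → Prop) (BF : Place k F → Prop)
    (w : Place k L) : Prop :=
  (∃ (u : Place k M) (e : ℕ), Over w u e ∧ BY u) ∨ ∃ (p : Place k F) (e : ℕ), Over w p e ∧ BF p

/-- The boundary on the product of `M` and the curves `F i`: the places over a place in `BY` or in
some `BF i`. -/
def BdMany {n : ℕ} (M : IntermediateField k L) (F : Fin n → IntermediateField k L)
    (BY : Place k M → Prop) (BF : ∀ i, Place k (F i) → Prop) (w : Place k L) : Prop :=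
  (∃ (u : Place k M) (e : ℕ), Over w u e ∧ BY u) ∨
    ∃ (i : Fin n) (p : Place k (F i)) (e : ℕ), Over w p e ∧ BF i p

end

/-- The Gauss extension of a place of `M`: as `S_GAUSS`, with the statement for logarithmic
derivations. -/
def S_GAUSSB : Prop := ∀ (k : Type v) (L : Type u) [Field k] [CharZero k] [IsAlgClosed k]
  [Field L] [Algebra k L] (M F : IntermediateField k L) [IsFF k F] (d : ℕ),
    Algebra.trdeg k M = d → Algebra.trdeg k L = (d + 1 : ℕ) → M ⊔ F = ⊤ →
    ∀ u : Place k M, ∃ U : Place k L, (∀ μ : M, U.ord (μ : L) = u.ord μ) ∧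
      (∀ β : F, U.ord (β : L) = 0) ∧
      (∀ (r : ℕ) (β : Fin r → F) (μ : Fin r → M) (c : ℤ), LinearIndependent k β →
        Ge U c (∑ i, (β i : L) * (μ i : L)) → ∀ i, Ge u c (μ i)) ∧
      (IsDivisorial u d → IsDivisorial U (d + 1)) ∧
      (∀ D : Derivation k L L, (∀ μ : M, u.Reg μ → ∃ μ' : M, D (μ : L) = (μ' : L) ∧ u.Reg μ') →
        (∀ β : F, ∃ β' : F, D (β : L) = (β' : L)) → Pres U D) ∧
      (∀ D : Derivation k L L, (∀ μ : M, ∃ μ' : M, D (μ : L) = (μ' : L) ∧ u.Reg (μ' / μ)) →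
        (∀ β : F, ∃ β' : F, D (β : L) = (β' : L)) → ∀ z : L, U.Reg (D z / z))

/-- Sections of `m (K + B) + j A` restricted to the generic curve `F` over `M`. -/
def S_FIBJB : Prop := ∀ (k : Type v) (L : Type u) [Field k] [CharZero k] [IsAlgClosed k]
  [Field L] [Algebra k L] (M F : IntermediateField k L) [IsFF k F] (d : ℕ)
  (BY : Place k M → Prop) (BF : Place k F → Prop),
    Algebra.trdeg k M = d → Algebra.trdeg k L = (d + 1 : ℕ) → M ⊔ F = ⊤ → {p | BF p}.Finite →
    ∀ (y : Fin d → M), IsTranscendenceBasis k y → ∀ (t : F), Transcendental k t →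
    ∀ (E : Fin (d + 1) → Derivation k L L), (∀ μ : M, E 0 (μ : L) = 0) → E 0 (t : L) = 1 →
      (∀ l : Fin d, ∀ β : F, E l.succ (β : L) = 0) →
      (∀ l j : Fin d, E l.succ (y j : L) = if l = j then 1 else 0) →
    ∀ S : Finset L, ∃ (b0 : L) (A0 : ℕ), b0 ≠ 0 ∧ ∀ m j : ℕ, ∃ W : Submodule k F,
      FiniteDimensional k W ∧
      (Module.finrank k W : ℤ) ≤ max 0 (m * (canDeg k F + {p | BF p}.ncard) + j * A0 + 1) ∧
      ∀ ω : (Fin (d + 1) → Derivation k L L) → L,
        IsSec k L (d + 1) (BdTwo M F BY BF) S m j ω →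
        b0 ^ j * ω E ∈ Submodule.span M ((fun β : F => (β : L)) '' (W : Set F))

/-- The coefficients of a section of `m (K + B) + j A` with respect to functions on the curve `F` are
sections of `m (K + BY) + j A'` on the other factor. -/
def S_DESCJB : Prop := ∀ (k : Type v) (L : Type u) [Field k] [CharZero k] [IsAlgClosed k]
  [Field L] [Algebra k L] (M F : IntermediateField k L) [IsFF k F] (d : ℕ)
  (BY : Place k M → Prop) (BF : Place k F → Prop),
    Algebra.trdeg k M = d → Algebra.trdeg k L = (d + 1 : ℕ) → M ⊔ F = ⊤ →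
    ∀ (y : Fin d → M), IsTranscendenceBasis k y → ∀ (t : F), Transcendental k t →
    ∀ (E : Fin (d + 1) → Derivation k L L), (∀ μ : M, E 0 (μ : L) = 0) → E 0 (t : L) = 1 →
      (∀ l : Fin d, ∀ β : F, E l.succ (β : L) = 0) →
      (∀ l j : Fin d, E l.succ (y j : L) = if l = j then 1 else 0) →
    ∀ (S : Finset L) (b0 : L), b0 ≠ 0 → ∃ S' : Finset M, ∀ (m j : ℕ)
      (ω : (Fin (d + 1) → Derivation k L L) → L), IsSec k L (d + 1) (BdTwo M F BY BF) S m j ω →
      ∀ (r : ℕ) (β : Fin r → F) (μ : Fin r → M), LinearIndependent k β →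
        b0 ^ j * ω E = ∑ i, (β i : L) * (μ i : L) →
        ∀ i, IsSec k M d BY S' m j
          (fun D => μ i * (Matrix.of fun a b => D a (y b)).det ^ m)

/-- One curve, with boundary. -/
def S_ONEB : Prop := ∀ (k : Type v) (L : Type u) [Field k] [CharZero k] [IsAlgClosed k]
  [Field L] [Algebra k L] (M F : IntermediateField k L) [IsFF k F] (d : ℕ)
  (BY : Place k M → Prop) (BF : Place k F → Prop),
    Algebra.trdeg k M = d → Algebra.trdeg k L = (d + 1 : ℕ) → M ⊔ F = ⊤ → {p | BF p}.Finite →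
    (IsPsef k L (d + 1) (BdTwo M F BY BF) → IsPsef k M d BY) ∧
    (NumNeg k M d BY → NumNeg k L (d + 1) (BdTwo M F BY BF)) ∧
    (canDeg k F + {p | BF p}.ncard < 0 → ¬ IsPsef k L (d + 1) (BdTwo M F BY BF) ∧
      NumNeg k L (d + 1) (BdTwo M F BY BF)) ∧
    ∀ a, NumLe k M d BY a → 0 ≤ canDeg k F + {p | BF p}.ncard →
      (canDeg k F + {p | BF p}.ncard = 0 → NumLe k L (d + 1) (BdTwo M F BY BF) a) ∧
      NumLe k L (d + 1) (BdTwo M F BY BF) (a + 1)

/-- Many curves, with boundary. -/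
def S_MANYB : Prop := ∀ (k : Type v) (L : Type u) [Field k] [CharZero k] [IsAlgClosed k]
  [Field L] [Algebra k L] (d n : ℕ) (M : IntermediateField k L)
  (F : Fin n → IntermediateField k L) [∀ i, IsFF k (F i)] [Algebra.EssFiniteType k M]
  (BY : Place k M → Prop) (BF : ∀ i, Place k (F i) → Prop),
    Algebra.trdeg k M = d → Algebra.trdeg k L = (d + n : ℕ) → M ⊔ (⨆ i, F i) = ⊤ →
    (∀ i, {p | BF i p}.Finite) →
    (IsPsef k L (d + n) (BdMany M F BY BF) → IsPsef k M d BY) ∧
    (NumNeg k M d BY → NumNeg k L (d + n) (BdMany M F BY BF)) ∧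
    ((∃ i, canDeg k (F i) + {p | BF i p}.ncard < 0) →
      ¬ IsPsef k L (d + n) (BdMany M F BY BF) ∧ NumNeg k L (d + n) (BdMany M F BY BF)) ∧
    ∀ a : ℕ, (∀ i, 0 ≤ canDeg k (F i) + {p | BF i p}.ncard) → NumLe k M d BY a →
      NumLe k L (d + n) (BdMany M F BY BF)
        (a + {i | canDeg k (F i) + ({p | BF i p}.ncard : ℤ) ≠ 0}.ncard)

end Pool.Agent.W619.Y
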