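import Pool.Agent.W619.Y.LLow
import Pool.Agent.W619.Y.LUp
import Pool.Agent.W619.Y.LRes
import Pool.Agent.W619.Y.Main
import Pool.Agent.W511.PG.FIBJB
import Pool.Agent.W881.PG.GAUSSB
import Pool.Agent.W589.PG.DESCJB
import Pool.Agent.W740.PG.ONEB
import Pool.Agent.W53.PG.ManyB
import Pool.Agent.W314.PG.CONJ
import Pool.Agent.W327.PG.TRGE3

/-! Final forms, with boundary. -/

set_option autoImplicit false
set_option linter.overlappingInstances false
set_option linter.unusedSectionVars false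

universe u v

open Polynomial FF IntermediateField Pool.Agent.W619.PQ Pool.Agent.W619.PL Pool.Agent.W619.TW
  Pool.Agent.W619.X

namespace Pool.Agent.W619.Y

open Pool.Agent.W603.LV

theorem pFIBJB : S_FIBJB.{u, v} := Pool.Agent.W511.PG.FIBJB.main
theorem pDESCJB : S_DESCJB.{u, v} := Pool.Agent.W589.PG.DESCJB.main Pool.Agent.W881.PG.GAUSSB.main
theorem pONEB : S_ONEB.{u, v} := Pool.Agent.W740.PG.ONEB.main pFIBJB pDESCJB
theorem pMANYB : S_MANYB.{u, v} := Pool.Agent.W53.PG.ManyB.main pTRANS pONEB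
theorem pCONJ : S_CONJ.{u, v} := Pool.Agent.W314.PG.CONJ.main

section

variable {k : Type v} {L : Type u} [Field k] [CharZero k] [IsAlgClosed k] [Field L] [Algebra k L]

variable (d n : ℕ) (hn : Algebra.trdeg k L = (d + n : ℕ)) (M : IntermediateField k L)
    [Algebra.EssFiniteType k M] (hM : Algebra.trdeg k M = d)
    (F : Fin n → IntermediateField k L) [hF : ∀ i, IsFF k (F i)]

include hn hM in
/-- Nonvanishing. -/
theorem nvLM (halg : Algebra.IsAlgebraic ↥(M ⊔ ⨆ i, F i) L)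
    (G : Subgroup (L ≃ₐ[k] L)) [Finite G] (σ : G →* Equiv.Perm (Fin n))
    (hσ : ∀ (g : G) i, ∀ z ∈ F i, (g : L ≃ₐ[k] L) z ∈ F (σ g i))
    (B : ∀ i, Set (Place k ↥(F i ⊓ fixedField (stb G σ i)))) (hB : ∀ i, (B i).Finite)
    (hinv : BdInv G σ F B) (h : LogMixedNonneg G σ F B) :
    (IsEff k M d (fun _ => False) → (∀ i, ¬ IsNegative inf_le_left (B i)) →
      IsEff k (fixedField G) (d + n) (BdQ G σ F B)) ∧
    (M ⊔ (⨆ i, F i) = ⊤ → IsPsef k (fixedField G) (d + n) (BdQ G σ F B) →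
      IsPsef k M d (fun _ => False) ∧ (∀ i, ¬ IsNegative inf_le_left (B i)) ∧
        (IsEff k M d (fun _ => False) → IsEff k (fixedField G) (d + n) (BdQ G σ F B))) := by
  have h1 : IsEff k M d (fun _ => False) → (∀ i, ¬ IsNegative inf_le_left (B i)) →
      IsEff k (fixedField G) (d + n) (BdQ G σ F B) := fun hY hneg =>
    eff_log d n hn M hM F halg G σ hσ B hB h hneg fun h2 => kodairaNeg_of_not_eff.2 h2 hY
  refine ⟨h1, fun hsup hp => ?_⟩
  obtain ⟨h2, -, h3, -⟩ :=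
    num_log pMANYB pCONJ pREST d n hn M hM F hsup G σ hσ B hB hinv
  have h4 : ∀ i, ¬ IsNegative inf_le_left (B i) := fun i hi => (h3 ⟨i, hi⟩).1 hp
  exact ⟨h2 hp, h4, fun h5 => h1 h5 h4⟩

include hn hM in
/-- Abundance. -/
theorem abLM (halg : Algebra.IsAlgebraic ↥(M ⊔ ⨆ i, F i) L)
    (G : Subgroup (L ≃ₐ[k] L)) [Finite G] (σ : G →* Equiv.Perm (Fin n))
    (hσ : ∀ (g : G) i, ∀ z ∈ F i, (g : L ≃ₐ[k] L) z ∈ F (σ g i))
    (B : ∀ i, Set (Place k ↥(F i ⊓ fixedField (stb G σ i)))) (hB : ∀ i, (B i).Finite)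
    (hinv : BdInv G σ F B) (h : LogMixedPos G σ F B) :
    ((∀ i, ¬ IsNegative inf_le_left (B i)) → ∀ a, KodTr k M d a →
      KodTrB k (fixedField G) (d + n) (BdQ G σ F B)
        (a + {i | ¬ IsFlat inf_le_left (B i)}.ncard) ∧
      KodGe k (fixedField G) (d + n) (BdQ G σ F B)
        (a + {i | ¬ IsFlat inf_le_left (B i)}.ncard)) ∧
    (M ⊔ (⨆ i, F i) = ⊤ →
      ((∀ i, ¬ IsNegative inf_le_left (B i)) → ∀ a, NumLe k M d (fun _ => False) a →
        NumLe k (fixedField G) (d + n) (BdQ G σ F B)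
          (a + {i | ¬ IsFlat inf_le_left (B i)}.ncard)) ∧
      ((NumNeg k M d (fun _ => False) ∨ ∃ i, IsNegative inf_le_left (B i)) →
        NumNeg k (fixedField G) (d + n) (BdQ G σ F B)) ∧
      (IsPsef k (fixedField G) (d + n) (BdQ G σ F B) → IsPsef k M d (fun _ => False) ∧
        ∀ i, ¬ IsNegative inf_le_left (B i))) := by
  have hK : Algebra.trdeg k (fixedField G) = (d + n : ℕ) := by
    have hfinL : FiniteDimensional (fixedField G) L := by
      have hGal : IsGaloisGroup G (fixedField G) L := isGaloisGroup_fixed G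
      exact IsGaloisGroup.finiteDimensional G (fixedField G) L
    rw [← hn, ← trdeg_add_eq k (fixedField G) (A := L),
      trdeg_eq_zero (R := fixedField G) (A := L), add_zero]
  refine ⟨fun hneg a ha => ?_, fun hsup => ?_⟩
  · have h1 := kod_log d n a hn M hM F halg G σ hσ B hB hinv h hneg ha
    exact ⟨h1, Pool.Agent.W327.PG.TRGE3.main k (fixedField G) (d + n) _ _ hK h1⟩
  · obtain ⟨h2, h3, h4, h5⟩ :=
      num_log pMANYB pCONJ pREST d n hn M hM F hsup G σ hσ B hB hinv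
    refine ⟨fun hneg a ha => h5 a hneg ha, fun h1 => ?_, fun hp => ?_⟩
    · rcases h1 with h1 | h1
      · exact h3 h1
      · exact (h4 h1).2
    · exact ⟨h2 hp, fun i hi => (h4 ⟨i, hi⟩).1 hp⟩

include hn hM in
/-- Logarithmic Kodaira dimension `-∞`. -/
theorem logNeg (halg : Algebra.IsAlgebraic ↥(M ⊔ ⨆ i, F i) L)
    (G : Subgroup (L ≃ₐ[k] L)) [Finite G] (σ : G →* Equiv.Perm (Fin n))
    (hσ : ∀ (g : G) i, ∀ z ∈ F i, (g : L ≃ₐ[k] L) z ∈ F (σ g i))
    (B : ∀ i, Set (Place k ↥(F i ⊓ fixedField (stb G σ i)))) (hB : ∀ i, (B i).Finite)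
    (h : LogMixedNonneg G σ F B) (hκ : LogKodairaNeg k (fixedField G) (d + n) (BdQ G σ F B)) :
    KodairaNeg k M d ∨ ∃ i, IsNegative inf_le_left (B i) := by
  by_contra hcon
  push Not at hcon
  have h3 := eff_log d n hn M hM F halg G σ hσ B hB h hcon.2 hcon.1
  obtain ⟨m, hm, ω, ⟨h2, h3, h4⟩, D, hD⟩ := h3
  refine hD (hκ m hm ω h2 (fun v hv hb D hD => ?_) (fun v hv hb D hD => ?_) D)
  · rcases h3 v hv hb D hD with h5 | ⟨s, hs, hs0, h5⟩
    · exact Or.inl h5
    · right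
      rw [Nat.cast_zero, zero_mul] at h5
      exact h5
  · rcases h4 v hv hb D hD with h5 | ⟨s, hs, hs0, h5⟩
    · exact Or.inl h5
    · right
      rw [Nat.cast_zero, zero_mul] at h5
      exact h5

end

end Pool.Agent.W619.Y
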