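import Pool.Agent.W619.Y.Defs
import Pool.Agent.W619.X.Good

/-! Forms on the quotient curves which are good at all places of `L`. -/

set_option autoImplicit false
set_option linter.overlappingInstances false
set_option linter.unusedSectionVars false

universe u v

open Polynomial FF IntermediateField Pool.Agent.W619.PQ Pool.Agent.W619.PL Pool.Agent.W619.TW
  Pool.Agent.W619.X

namespace Pool.Agent.W619.Y

open Pool.Agent.W603.LV

section

variable {k : Type v} {L : Type u} [Field k] [CharZero k] [IsAlgClosed k] [Field L] [Algebra k L]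

theorem trans_of_ord {K : Type*} [Field K] [Algebra k K] (w : Place k K) {u : K}
    (hu : w.ord u ≠ 0) : Transcendental k u := by
  intro halg
  obtain ⟨c, hc⟩ := minpoly.mem_range_of_degree_eq_one k u
    (IsAlgClosed.degree_eq_one_of_irreducible k (minpoly.irreducible halg.isIntegral))
  by_cases hc0 : c = 0
  · rw [hc0, map_zero] at hc
    rw [← hc, w.ord_zero] at hu
    exact hu rfl
  · rw [← hc, w.ord_const hc0] at hu
    exact hu rfl

omit [IsAlgClosed k] in
theorem exists_der {u : L} (hu : Transcendental k u) : ∃ D : Derivation k L L, D u = 1 := by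
  classical
  have h1 : AlgebraicIndepOn k id ({u} : Set L) :=
    algebraicIndependent_unique_type_iff.2 hu
  obtain ⟨t, hut, ht⟩ := exists_isTranscendenceBasis_superset h1
  obtain ⟨D, hD⟩ := exists_dual (fun i : t => (i : L)) ht ⟨u, hut (Set.mem_singleton u)⟩
  exact ⟨D, by simpa using hD ⟨u, hut (Set.mem_singleton u)⟩⟩

theorem transcendental_map' {Q : IntermediateField k L} {t : Q} (ht : Transcendental k t) :
    Transcendental k (t : L) := fun h => ht ((isAlgebraic_algebraMap_iff (algebraMap Q L).injective).1 h)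

theorem loc (F : IntermediateField k L) [hF : IsFF k F] (H : Subgroup (L ≃ₐ[k] L)) [Finite H]
    (hst : ∀ g ∈ H, ∀ z ∈ F, g z ∈ F) (N m : ℕ) (hN : 1 ≤ N)
    (X : Place k ↥(F ⊓ fixedField H) → ℚ) (D0 : Derivation k ↥(F ⊓ fixedField H)
      ↥(F ⊓ fixedField H)) (c x : ↥(F ⊓ fixedField H))
    (hXN : ∀ p, 1 / (N : ℚ) ≤ X p)
    (hXe : ∀ p (q : Place k F) e, LiesOver (inf_le_left : F ⊓ fixedField H ≤ F) q p e →
        1 ≤ e * X p) (hD0 : D0 ≠ 0) (hc : c ≠ 0) (hx : Transcendental k x)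
    (hg : GoodX (fun _ => False) X m D0 c) :
    GoodAt (F ⊓ fixedField H) N m (x : L) ((c / (D0 x) ^ m : ↥(F ⊓ fixedField H)) : L) := by
  classical
  let _ : Algebra ↥(F ⊓ fixedField H) F :=
    (inclusion (inf_le_left : F ⊓ fixedField H ≤ F)).toRingHom.toAlgebra
  have t1 : IsScalarTower k ↥(F ⊓ fixedField H) F := IsScalarTower.of_algebraMap_eq fun c => rfl
  have t2 : IsScalarTower ↥(F ⊓ fixedField H) F L := IsScalarTower.of_algebraMap_eq fun c => rfl
  have f1 : FiniteDimensional ↥(F ⊓ fixedField H) F := inf_finite H F hst fun z => rfl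
  have f2 : IsFF k ↥(F ⊓ fixedField H) := isFF_down (E := F)
  have hov : ∀ (w : Place k F) (q : Place k ↥(F ⊓ fixedField H)) (e : ℕ),
      LiesOver inf_le_left w q e ↔ Over w q e := fun w q e => Iff.rfl
  intro w u hu hu0 hdvd ρ hρ
  -- the place of `Q` below `w`
  set uQ : ↥(F ⊓ fixedField H) := ⟨u, hu⟩ with huQ
  have huw : w.ord (algebraMap ↥(F ⊓ fixedField H) L uQ) = w.ord u := rfl
  obtain ⟨α, p, hp⟩ := exists_over (K := ↥(F ⊓ fixedField H)) w ⟨uQ, by rw [huw]; omega⟩
  obtain ⟨t, ht0, ht⟩ := p.surj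
  have hαpos : (0 : ℤ) < α := by exact_mod_cast hp.1
  have h1 : w.ord u = α * p.ord uQ := by rw [← huw]; exact hp.2 uQ
  have h2 : w.ord u ∣ α := by
    have := hdvd (t : L) t.2 (fun h => ht0 (Subtype.ext h))
    have h3 : w.ord (t : L) = α * p.ord t := hp.2 t
    rwa [h3, ht, mul_one] at this
  have hpu : p.ord uQ = 1 := by
    have hpos : 0 < p.ord uQ := by
      by_contra hcon
      push Not at hcon
      have := mul_nonpos_of_nonneg_of_nonpos hαpos.le hcon
      omega
    obtain ⟨r, hr⟩ := h2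
    rw [h1] at hr
    have h4 : (α : ℤ) * 1 = α * (p.ord uQ * r) := by rw [mul_one]; linarith
    have h5 := mul_left_cancel₀ hαpos.ne' h4
    have h6 : 0 < r := by
      by_contra hcon
      push Not at hcon
      have := mul_nonpos_of_nonneg_of_nonpos hpos.le hcon
      omega
    nlinarith
  have hα : w.ord u = α := by rw [h1, hpu, mul_one]
  -- the place of `F`
  obtain ⟨f, q, hq⟩ := exists_over (K := F) w
    ⟨algebraMap ↥(F ⊓ fixedField H) F uQ, by
      rw [← IsScalarTower.algebraMap_apply, huw]; omega⟩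
  have hqu : q.ord (algebraMap ↥(F ⊓ fixedField H) F uQ) ≠ 0 := by
    intro h
    have h3 := hq.2 (algebraMap ↥(F ⊓ fixedField H) F uQ)
    rw [h, mul_zero, ← IsScalarTower.algebraMap_apply, huw] at h3
    omega
  obtain ⟨e, p', hp'⟩ := exists_over (K := ↥(F ⊓ fixedField H)) q ⟨_, hqu⟩
  obtain ⟨rfl, hαe⟩ := over_unique' hp (over_trans hq hp')
  -- the ratio
  have hut : Transcendental k uQ := trans_of_ord p (by omega)
  obtain ⟨r, hr1, hr2⟩ := ratio' (K := L) hut x
  obtain ⟨D, hD⟩ := exists_der (L := L) (u := algebraMap ↥(F ⊓ fixedField H) L uQ)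
    (trans_of_ord w (by rw [huw]; omega))
  have hρr : ρ = (r : L) := by
    have h3 := hr2 D
    have h4 := hρ D
    rw [hD, mul_one] at h3
    change D (x : L) = (r : L) at h3
    change D u = 1 at hD
    rw [hD, mul_one] at h4
    rw [← h4, h3]
  have hDu : D0 uQ ≠ 0 := der_ne_zero hD0 hut
  have hDx : D0 x ≠ 0 := der_ne_zero hD0 hx
  have hxr : D0 x = r * D0 uQ := hr1 D0
  have hr0 : r ≠ 0 := by
    intro h
    rw [h, zero_mul] at hxr
    exact hDx hxr
  have hu0' : uQ ≠ 0 := by
    intro h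
    rw [h, p.ord_zero] at hpu
    omega
  have hval : ((c / (D0 x) ^ m : ↥(F ⊓ fixedField H)) : L) * (ρ * u) ^ m =
      algebraMap ↥(F ⊓ fixedField H) L (c * (uQ / D0 uQ) ^ m) := by
    rw [hρr]
    change ((c / (D0 x) ^ m : ↥(F ⊓ fixedField H)) : L) * ((r : L) * (uQ : L)) ^ m =
      ((c * (uQ / D0 uQ) ^ m : ↥(F ⊓ fixedField H)) : L)
    have h3 : c / (D0 x) ^ m * (r * uQ) ^ m = c * (uQ / D0 uQ) ^ m := by
      rw [hxr, div_mul_eq_mul_div, mul_div_assoc, ← div_pow]
      congr 2
      field_simp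
    rw [← h3]
    push_cast
    rfl
  have hord : p.ord (c * (uQ / D0 uQ) ^ m) = p.ord c + m * (1 - vo p D0) := by
    rw [p.ord_mul hc (pow_ne_zero _ (div_ne_zero hu0' hDu)), p.ord_pow, p.ord_div hu0' hDu, hpu,
      vo_eq p hpu hD0]
  obtain ⟨h5, h6⟩ := hg p
  have h7 := h6 not_false
  rw [← hord] at h7 h5
  have hw : w.ord (((c / (D0 x) ^ m : ↥(F ⊓ fixedField H)) : L) * (ρ * u) ^ m) =
      α * p.ord (c * (uQ / D0 uQ) ^ m) := by
    rw [hval, hp.2]
  rw [hw, hα]
  set o := p.ord (c * (uQ / D0 uQ) ^ m) with ho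
  have hm0 : (0 : ℚ) ≤ m := Nat.cast_nonneg m
  have hNpos : (0 : ℚ) < N := by exact_mod_cast hN
  have hαq : (0 : ℚ) < α := by exact_mod_cast hp.1
  constructor
  · have h8 : (m : ℚ) ≤ N * o := by
      have h9 := mul_le_mul_of_nonneg_left (hXN p) hm0
      have h10 : (m : ℚ) * (1 / N) ≤ o := h9.trans h7
      rw [mul_one_div, div_le_iff₀ hNpos] at h10
      linarith
    have h9 : (m : ℤ) ≤ N * o := by exact_mod_cast h8
    nlinarith
  · have h8 := hXe p q e ((hov q p e).2 hp')
    have h9 : (m : ℚ) * 1 ≤ m * (e * X p) := mul_le_mul_of_nonneg_left h8 hm0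
    have h10 : (m : ℚ) ≤ e * o := by
      have h11 : (e : ℚ) * (m * X p) ≤ e * o := mul_le_mul_of_nonneg_left h7 (Nat.cast_nonneg e)
      nlinarith
    have h11 : (m : ℤ) ≤ e * o := by exact_mod_cast h10
    have h12 : (α : ℤ) = f * e := by exact_mod_cast hαe
    rw [h12]
    have h13 : (1 : ℤ) ≤ f := by exact_mod_cast hq.1
    have h14 : (0 : ℤ) ≤ e * o := by
      have h15 : (0 : ℤ) ≤ m := by positivity
      linarith
    nlinarith

end

end Pool.Agent.W619.Y
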