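import Pool.Agent.W619.Y.Data
import Pool.Agent.W619.Y.Stm

/-! The lower bound for groups permuting the factors. -/

set_option autoImplicit false
set_option linter.overlappingInstances false
set_option linter.unusedSectionVars false

universe u v

open Polynomial FF IntermediateField Pool.Agent.W619.PQ Pool.Agent.W619.PL Pool.Agent.W619.TW
  Pool.Agent.W619.X

namespace Pool.Agent.W619.Y

open Pool.Agent.W603.LV

section

variable {k : Type v} {L : Type u} [Field k] [Field L] [Algebra k L]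

theorem GoodAt.map {Q Q' : IntermediateField k L} {N m : ℕ} {x b : L} (h : GoodAt Q N m x b)
    (g : L ≃ₐ[k] L) (hg : ∀ z, z ∈ Q ↔ g z ∈ Q') : GoodAt Q' N m (g x) (g b) := by
  intro w u hu hu0 hdvd ρ hρ
  have hgs : ∀ z ∈ Q', g.symm z ∈ Q := fun z hz => (hg _).2 (by rwa [AlgEquiv.apply_symm_apply])
  have h1 := h (w.comp g) (g.symm u) (hgs u hu) (by
      rw [Place.comp_ord, AlgEquiv.apply_symm_apply]; exact hu0)
    (fun z hz hz0 => by
      rw [Place.comp_ord, Place.comp_ord, AlgEquiv.apply_symm_apply]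
      exact hdvd (g z) ((hg z).1 hz) (by simpa using hz0)) (g.symm ρ) (fun D => by
      have h2 := hρ (conjDer g D)
      change g (D (g.symm (g x))) = ρ * g (D (g.symm u)) at h2
      have h3 := congrArg g.symm h2
      simpa using h3)
  rw [Place.comp_ord, Place.comp_ord, AlgEquiv.apply_symm_apply, map_mul, map_pow, map_mul,
    AlgEquiv.apply_symm_apply, AlgEquiv.apply_symm_apply] at h1
  exact h1

theorem GoodAt.pow {Q : IntermediateField k L} {N m : ℕ} {x b : L} (h : GoodAt Q N m x b)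
    (a : ℕ) (ha : 1 ≤ a) : GoodAt Q N (a * m) x (b ^ a) := by
  intro w u hu hu0 hdvd ρ hρ
  obtain ⟨h1, h2⟩ := h w u hu hu0 hdvd ρ hρ
  have h3 : b ^ a * (ρ * u) ^ (a * m) = (b * (ρ * u) ^ m) ^ a := by
    rw [mul_pow b, ← pow_mul, mul_comm m a]
  rw [h3, w.ord_pow]
  have h4 : (1 : ℤ) ≤ a := by exact_mod_cast ha
  have h5 : (0 : ℤ) ≤ m := by positivity
  push_cast
  constructor
  · calc (a : ℤ) * m * w.ord u = a * (m * w.ord u) := by ring
      _ ≤ a * (N * w.ord (b * (ρ * u) ^ m)) := mul_le_mul_of_nonneg_left h1 (by linarith)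
      _ = _ := by ring
  · exact mul_le_mul_of_nonneg_left h2 (by linarith)

variable {n : ℕ} {G : Subgroup (L ≃ₐ[k] L)} {σ : G →* Equiv.Perm (Fin n)}
  {F : Fin n → IntermediateField k L}

theorem inv_self (τ : Equiv.Perm (Fin n)) (i : Fin n) : τ⁻¹ (τ i) = i :=
  Equiv.symm_apply_apply τ i

theorem mem_F_iff (hσ : ∀ (g : G) i, ∀ z ∈ F i, (g : L ≃ₐ[k] L) z ∈ F (σ g i)) (g : G) (i : Fin n)
    (z : L) : z ∈ F i ↔ (g : L ≃ₐ[k] L) z ∈ F (σ g i) := by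
  refine ⟨hσ g i z, fun h => ?_⟩
  have h1 := hσ g⁻¹ (σ g i) _ h
  rw [map_inv, inv_self] at h1
  have h2 : ((g⁻¹ : G) : L ≃ₐ[k] L) ((g : L ≃ₐ[k] L) z) = z := by
    change ((g : L ≃ₐ[k] L)⁻¹ * (g : L ≃ₐ[k] L)) z = z
    rw [inv_mul_cancel]; rfl
  rwa [h2] at h1

theorem mem_Quo_iff (hσ : ∀ (g : G) i, ∀ z ∈ F i, (g : L ≃ₐ[k] L) z ∈ F (σ g i)) (g : G)
    (i : Fin n) (z : L) : z ∈ Quo G σ F i ↔ (g : L ≃ₐ[k] L) z ∈ Quo G σ F (σ g i) := by
  have key : ∀ (g : G) i z, z ∈ Quo G σ F i → (g : L ≃ₐ[k] L) z ∈ Quo G σ F (σ g i) := by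
    intro g i z hz
    refine ⟨hσ g i z hz.1, ?_⟩
    rintro ⟨_, a, ha, rfl⟩
    change (a : L ≃ₐ[k] L) ((g : L ≃ₐ[k] L) z) = (g : L ≃ₐ[k] L) z
    have h1 := hz.2 ⟨_, g⁻¹ * a * g, by
      rw [map_mul, map_mul, Equiv.Perm.mul_apply, Equiv.Perm.mul_apply, ha, map_inv,
        inv_self], rfl⟩
    change ((g⁻¹ * a * g : G) : L ≃ₐ[k] L) z = z at h1
    have h2 := congrArg (g : L ≃ₐ[k] L) h1
    change ((g : L ≃ₐ[k] L) * ((g : L ≃ₐ[k] L)⁻¹ * a * g)) z = _ at h2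
    rw [← mul_assoc, ← mul_assoc, mul_inv_cancel, one_mul] at h2
    exact h2
  refine ⟨key g i z, fun h => ?_⟩
  have h1 := key g⁻¹ (σ g i) _ h
  rw [map_inv, inv_self] at h1
  have h2 : ((g⁻¹ : G) : L ≃ₐ[k] L) ((g : L ≃ₐ[k] L) z) = z := by
    change ((g : L ≃ₐ[k] L)⁻¹ * (g : L ≃ₐ[k] L)) z = z
    rw [inv_mul_cancel]; rfl
  rwa [h2] at h1

instance stb_finite (G : Subgroup (L ≃ₐ[k] L)) [Finite G] (σ : G →* Equiv.Perm (Fin n))
    (i : Fin n) : Finite (stb G σ i) := by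
  have h : (stb G σ i : Set (L ≃ₐ[k] L)) ⊆ G := by
    rintro _ ⟨a, -, rfl⟩
    exact a.2
  exact Set.Finite.to_subtype ((Set.toFinite (G : Set (L ≃ₐ[k] L))).subset h)

theorem stb_le (G : Subgroup (L ≃ₐ[k] L)) (σ : G →* Equiv.Perm (Fin n)) (i : Fin n) :
    stb G σ i ≤ G := by
  rintro _ ⟨a, -, rfl⟩
  exact a.2

theorem stb_stable (hσ : ∀ (g : G) i, ∀ z ∈ F i, (g : L ≃ₐ[k] L) z ∈ F (σ g i)) (i : Fin n) :
    ∀ g ∈ stb G σ i, ∀ z ∈ F i, g z ∈ F i := by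
  rintro _ ⟨a, ha, rfl⟩ z hz
  have := hσ a i z hz
  rwa [ha] at this

theorem quo_fix (i : Fin n) (g : G) (hg : σ g i = i) {z : L} (hz : z ∈ Quo G σ F i) :
    (g : L ≃ₐ[k] L) z = z := hz.2 ⟨_, g, hg, rfl⟩

end

section

variable {k : Type v} {L : Type u} [Field k] [CharZero k] [IsAlgClosed k] [Field L] [Algebra k L]

/-- The lower bound. -/
theorem lower_mixed (hEQV : S_EQV.{u}) (hKOD : S_KOD.{u, v}) (n : ℕ) (hn : Algebra.trdeg k L = n)
    (F : Fin n → IntermediateField k L) [hF : ∀ i, IsFF k (F i)]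
    (halg : Algebra.IsAlgebraic ↥(⨆ i, F i) L)
    (G : Subgroup (L ≃ₐ[k] L)) [Finite G] (σ : G →* Equiv.Perm (Fin n))
    (hσ : ∀ (g : G) i, ∀ z ∈ F i, (g : L ≃ₐ[k] L) z ∈ F (σ g i))
    (N : ℕ) (hN : 2 ≤ N) (hfree : FreeIn N G σ F)
    (H : Set (Fin n)) (hH : ∀ (g : G) i, i ∈ H → σ g i ∈ H)
    (hdata : ∀ i, ∃ (m : ℕ) (x b b' : L), 1 ≤ m ∧ x ∈ Quo G σ F i ∧ Transcendental k x ∧
      b ∈ Quo G σ F i ∧ b ≠ 0 ∧ b' ∈ Quo G σ F i ∧ b' ≠ 0 ∧
      GoodAt (Quo G σ F i) N m x b ∧ GoodAt (Quo G σ F i) N m x b' ∧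
      (i ∈ H → Transcendental k (b' / b))) :
    KodGe k (fixedField G) n (fun _ => False) H.ncard := by
  choose m0 x0 b0 b0' hm0 hx0 hxt0 hb0 hb0ne hb0' hb0ne' hg0 hg0' htr0 using hdata
  let m : ℕ := 2 * ∏ i, m0 i
  have hprod : 1 ≤ ∏ i, m0 i := Finset.one_le_prod' fun i _ => hm0 i
  let a : Fin n → ℕ := fun i => 2 * ∏ j ∈ Finset.univ.erase i, m0 j
  have ham : ∀ i, a i * m0 i = m := fun i => by
    simp only [a, m]
    rw [mul_assoc, Finset.prod_erase_mul _ _ (Finset.mem_univ i)]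
  have ha1 : ∀ i, 1 ≤ a i := fun i => by
    have : 1 ≤ ∏ j ∈ Finset.univ.erase i, m0 j := Finset.one_le_prod' fun j _ => hm0 j
    simp only [a]
    omega
  let R : Fin n → (L × L × L) → Prop := fun i t =>
    t.1 ∈ Quo G σ F i ∧ Transcendental k t.1 ∧ t.2.1 ∈ Quo G σ F i ∧ t.2.1 ≠ 0 ∧
      t.2.2 ∈ Quo G σ F i ∧ t.2.2 ≠ 0 ∧ GoodAt (Quo G σ F i) N m t.1 t.2.1 ∧
      GoodAt (Quo G σ F i) N m t.1 t.2.2 ∧ (i ∈ H → Transcendental k (t.2.2 / t.2.1))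
  have htrans : ∀ (g : G) (z : L), Transcendental k z → Transcendental k ((g : L ≃ₐ[k] L) z) :=
    fun g z hz h => hz ((isAlgebraic_algHom_iff (g : L ≃ₐ[k] L).toAlgHom
      (g : L ≃ₐ[k] L).injective).1 h)
  obtain ⟨t, ht, hteq⟩ := hEQV G n σ (L × L × L) R
    (fun g i t ht => by
      obtain ⟨h1, h2, h3, h4, h5, h6, h7, h8, h9⟩ := ht
      have hq := mem_Quo_iff hσ g i
      refine ⟨(hq _).1 h1, htrans g _ h2, (hq _).1 h3, ?_, (hq _).1 h5, ?_, h7.map _ hq,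
        h8.map _ hq, fun hi => ?_⟩
      · exact fun h => h4 ((map_eq_zero_iff _ (g : L ≃ₐ[k] L).injective).1 h)
      · exact fun h => h6 ((map_eq_zero_iff _ (g : L ≃ₐ[k] L).injective).1 h)
      · have h10 : i ∈ H := by
          have := hH g⁻¹ (σ g i) hi
          rwa [map_inv, inv_self] at this
        have h11 := htrans g _ (h9 h10)
        rw [map_div₀] at h11
        exact h11)
    (fun i t ht g hg => by
      obtain ⟨h1, h2, h3, h4, h5, h6, h7, h8, h9⟩ := ht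
      exact Prod.ext (quo_fix i g hg h1) (Prod.ext (quo_fix i g hg h3) (quo_fix i g hg h5)))
    (fun i => ⟨(x0 i, b0 i ^ a i, b0' i ^ a i), hx0 i, hxt0 i, pow_mem (hb0 i) _,
      pow_ne_zero _ (hb0ne i), pow_mem (hb0' i) _, pow_ne_zero _ (hb0ne' i), by
        have := (hg0 i).pow (a i) (ha1 i)
        rwa [ham i] at this, by
        have := (hg0' i).pow (a i) (ha1 i)
        rwa [ham i] at this, fun hi => by
        change Transcendental k (b0' i ^ a i / b0 i ^ a i)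
        rw [← div_pow]
        intro halg
        exact htr0 i hi (halg.of_pow (ha1 i))⟩)
  refine hKOD k L n F G σ hn halg hσ N m hN hfree ?_ ?_ H (fun i => (t i).1) (fun i => (t i).2.1)
    (fun i => (t i).2.2) hH (fun i => (ht i).1) (fun i => (ht i).2.1)
    (fun g i => congrArg Prod.fst (hteq g i)) (fun i => (ht i).2.2.1) (fun i => (ht i).2.2.2.1)
    (fun i => (ht i).2.2.2.2.1) (fun i => (ht i).2.2.2.2.2.1)
    (fun g i => congrArg (fun t => t.2.1) (hteq g i))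
    (fun g i => congrArg (fun t => t.2.2) (hteq g i))
    (fun i => (ht i).2.2.2.2.2.2.1) (fun i => (ht i).2.2.2.2.2.2.2.1)
    (fun i hi => (ht i).2.2.2.2.2.2.2.2 hi)
  · simp only [m]; omega
  · exact ⟨∏ i, m0 i, by simp only [m]; ring⟩

end

end Pool.Agent.W619.Y
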