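import Pool.Agent.W619.Y.Stm11
import Pool.Agent.W721.PG.RULED

/-! On a ruled variety, `K + Δ` is not pseudo-effective, if `Δ` is zero along the places which are
trivial on the base (part RULEDP of project PG). Adapted from `Pool.Agent.W721.PG.RULED` by helper462. -/

set_option autoImplicit false
set_option linter.overlappingInstances false
set_option linter.unusedSectionVars false

universe u v

open FF IntermediateField Polynomial IsDedekindDomain Pool.Agent.W619.PQ Pool.Agent.W619.PL
  Pool.Agent.W619.TW Pool.Agent.W603.LV Pool.Agent.W619.Y Pool.Agent.W721.PG.RULED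

namespace Pool.Agent.W619.Y.RuledP

section main

theorem main : S_RULEDP.{u, v} := by
  classical
  intro k L _ _ _ _ _ M t n δ hn ht htop hδ hpsef
  obtain ⟨S, hS⟩ := hpsef
  have ht0 : t ≠ 0 := by
    rintro rfl
    exact ht isAlgebraic_zero
  have hti : Transcendental M t⁻¹ := by
    intro h
    apply ht
    have := h.inv
    rwa [inv_inv] at this
  have htopi : IntermediateField.adjoin M {t⁻¹} = ⊤ := by
    rw [eq_top_iff, ← htop, IntermediateField.adjoin_le_iff]
    intro y hy
    rw [Set.mem_singleton_iff] at hy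
    rw [hy]
    have h1 : t⁻¹ ∈ IntermediateField.adjoin M {t⁻¹} :=
      IntermediateField.mem_adjoin_simple_self M t⁻¹
    have h2 := inv_mem h1
    rwa [inv_inv] at h2
  obtain ⟨hpl, -, htb, hfr⟩ := places (k := k) ht htop
  obtain ⟨-, ⟨w, hw, hwt⟩, -, -⟩ := places (k := k) hti htopi
  -- the transcendence bases
  obtain ⟨ι, z, hz⟩ := exists_isTranscendenceBasis' k M
  have hx' : IsTranscendenceBasis k (Sum.elim (fun _ : Unit => t) (algebraMap M L ∘ z)) :=
    hz.sumElim_comp htb
  have hcard : Nonempty (Fin n ≃ Unit ⊕ ι) := by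
    have h1 := hx'.lift_cardinalMk_eq_trdeg
    rw [hn] at h1
    have h2 : Cardinal.lift.{u} (Cardinal.mk (Fin n)) = Cardinal.lift.{0} (Cardinal.mk (Unit ⊕ ι)) := by
      rw [Cardinal.mk_fin, Cardinal.lift_natCast]
      have h3 : Cardinal.lift.{0} (Cardinal.mk (Unit ⊕ ι)) = Cardinal.mk (Unit ⊕ ι) :=
        Cardinal.lift_id'.{0, u} _
      rw [h3]
      have h4 : Cardinal.lift.{u} (Cardinal.mk (Unit ⊕ ι)) = Cardinal.lift.{u} ((n : ℕ) : Cardinal.{u}) := h1
      exact (Cardinal.lift_injective h4).symm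
    exact Cardinal.lift_mk_eq'.1 h2
  obtain ⟨e⟩ := hcard
  have hfin : Finite (Unit ⊕ ι) := Finite.of_equiv _ e
  have hfinι : Finite ι := Finite.sum_right Unit
  have := Fintype.ofFinite ι
  have hcι : Fintype.card ι = n - 1 := by
    have h1 := Fintype.card_congr e
    rw [Fintype.card_fin, Fintype.card_sum, Fintype.card_unit] at h1
    omega
  let e' : Fin (n - 1) ≃ ι := (Fintype.equivFinOfCardEq hcι).symm
  let x : Fin n → L := Sum.elim (fun _ : Unit => t) (algebraMap M L ∘ z) ∘ e
  have hx : IsTranscendenceBasis k x := (isTranscendenceBasis_equiv e).2 hx'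
  choose E hE using fun j => exists_dual x hx j
  let i0 : Fin n := e.symm (Sum.inl ())
  have hxi0 : x i0 = t := by
    change Sum.elim (fun _ : Unit => t) (algebraMap M L ∘ z) (e (e.symm (Sum.inl ()))) = t
    rw [Equiv.apply_symm_apply]
    rfl
  have hxl : ∀ l : ι, x (e.symm (Sum.inr l)) = (z l : L) := by
    intro l
    change Sum.elim (fun _ : Unit => t) (algebraMap M L ∘ z) (e (e.symm (Sum.inr l))) = _
    rw [Equiv.apply_symm_apply]
    rfl
  have hEt : ∀ j, E j t = if i0 = j then 1 else 0 := by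
    intro j
    rw [← hE j i0, hxi0]
  have hEz : ∀ j l, E j (z l : L) = if e.symm (Sum.inr l) = j then 1 else 0 := by
    intro j l
    rw [← hE j, hxl]
  have hE0M : ∀ m : M, E i0 (m : L) = 0 := by
    intro m
    have h1 := der_zero ((E i0).compAlgebraMap M) z hz (fun l => by
      change E i0 (algebraMap M L (z l)) = 0
      have := hEz i0 l
      rw [if_neg] at this
      · exact this
      · intro h
        have h2 : Sum.inr l = (Sum.inl () : Unit ⊕ ι) := e.symm.injective h
        cases h2) m
    exact h1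
  have hEM : ∀ (j : Fin n) (m : M), ∃ m' : M, E j (m : L) = (m' : L) := by
    intro j m
    rcases he : e j with a | l
    · have hj : j = i0 := by
        change j = e.symm (Sum.inl ())
        rw [← e.symm_apply_apply j, he]
      rw [hj]
      exact ⟨0, by rw [hE0M]; rfl⟩
    · have hj : j = e.symm (Sum.inr l) := by
        rw [← he, e.symm_apply_apply]
      obtain ⟨ε, hε⟩ := exists_dual z hz l
      refine ⟨ε m, ?_⟩
      have h1 := der_zero ((E j).compAlgebraMap M - (Algebra.linearMap M L).compDer ε) z hz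
        (fun l' => by
          change E j (algebraMap M L (z l')) - algebraMap M L (ε (z l')) = 0
          have h2 : E j (algebraMap M L (z l')) = if e.symm (Sum.inr l') = j then 1 else 0 :=
            hEz j l'
          rw [h2, hε l', hj]
          by_cases hl : l' = l
          · rw [hl, if_pos rfl, if_pos rfl, map_one, sub_self]
          · rw [if_neg hl, if_neg, map_zero, sub_self]
            intro h
            apply hl
            have h3 := e.symm.injective h
            exact Sum.inr_injective h3) m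
      exact sub_eq_zero.1 h1
  have hEt' : ∀ j, ∃ c : M, E j t = (c : L) := by
    intro j
    rw [hEt]
    by_cases h : i0 = j
    · exact ⟨1, by rw [if_pos h]; rfl⟩
    · exact ⟨0, by rw [if_neg h]; rfl⟩
  obtain ⟨A, hA0, hA⟩ := common hfr S
  have hwt' : w.ord t < 0 := by
    rw [w.ord_inv] at hwt
    omega
  have hAord := ord_poly w hw.con hwt' A hA0
  -- the choice of the multiple
  let C : ℤ := ∑ s ∈ S, |w.ord s| + |w.ord (aeval t A)|
  have hC : ∀ s ∈ S, |w.ord s| + |w.ord (aeval t A)| ≤ C := by
    intro s hs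
    have h1 := Finset.single_le_sum (f := fun s => |w.ord s|) (fun i _ => abs_nonneg _) hs
    change |w.ord s| + |w.ord (aeval t A)| ≤ ∑ s ∈ S, |w.ord s| + |w.ord (aeval t A)|
    linarith
  obtain ⟨N, hN⟩ : ∃ N : ℕ, C < N := ⟨(C.toNat + 1), by
    push_cast
    have := Int.self_le_toNat C
    omega⟩
  obtain ⟨j, hj, ω, ⟨hform, hreg0⟩, D0, hD0⟩ := hS N
  have hreg : ∀ v : Place k L, (∀ m : M, m ≠ 0 → v.ord (m : L) = 0) → IsDivisorial v n →
      ∀ D : Fin n → Derivation k L L, (∀ l, ∀ f, v.Reg f → v.Reg (D l f)) →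
      ω D = 0 ∨ ∃ s ∈ S, s ≠ 0 ∧ (j : ℤ) * v.ord s ≤ v.ord (ω D) := by
    intro v hv hdv D hD
    have hδv : δ v ≤ 0 := by
      apply hδ
      intro z hz
      by_cases hz0 : z = 0
      · rw [hz0, v.ord_zero]
      · exact hv ⟨z, hz⟩ (fun h => hz0 (congrArg Subtype.val h))
    rcases hreg0 v hdv D hD with h | ⟨s, hs, hs0, hle⟩
    · left; exact h
    · right
      refine ⟨s, hs, hs0, ?_⟩
      have h1 : ((j * N : ℕ) : ℚ) * δ v ≤ 0 :=
        mul_nonpos_of_nonneg_of_nonpos (Nat.cast_nonneg _) hδv
      have h2 : ((j : ℤ) : ℚ) * ((v.ord s : ℤ) : ℚ) ≤ ((v.ord (ω D) : ℤ) : ℚ) := by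
        push_cast at h1 hle ⊢
        linarith
      exact_mod_cast h2
  have hdec : ∀ D : Derivation k L L, D = ∑ l, D (x l) • E l := by
    intro D
    ext f
    have h1 := der_zero (D - ∑ l, D (x l) • E l) x hx (fun i => by
      change D (x i) - (∑ l, D (x l) • E l) (x i) = 0
      rw [der_sum]
      simp only [hE]
      simp) f
    exact sub_eq_zero.1 h1
  have hfne : ω E ≠ 0 := by
    intro h0
    apply hD0
    have h1 := hform (Matrix.of fun i l => D0 i (x l)) E
    have h2 : (fun i => ∑ l, (Matrix.of fun i l => D0 i (x l)) i l • E l) = D0 := by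
      funext i
      exact (hdec (D0 i)).symm
    rw [h2, h0, mul_zero] at h1
    exact h1
  -- finite places
  have hpoly : ∃ p : M[X], aeval t p = ω E * (aeval t A) ^ j := by
    by_contra hcon
    push Not at hcon
    obtain ⟨w', hw', hnr⟩ := hpl _ hcon
    apply hnr
    have hdiv := divisorial w' hw'.con z hz.1 n e'
    have h1 := hreg w' hw'.con hdiv E (fun l => hw'.pres (E l) (fun p =>
      der_poly (E l) (hEM l) (hEt' l) p))
    rcases h1 with h1 | ⟨s, hs, hs0, hle⟩
    · exact absurd h1 hfne
    · obtain ⟨p, hp⟩ := hA s hs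
      have h2 : aeval t A * s ≠ 0 := mul_ne_zero hAord.1 hs0
      have h3 := (w'.reg_iff h2).1 (by rw [← hp]; exact hw'.reg p)
      rw [w'.ord_mul hAord.1 hs0] at h3
      right
      rw [w'.ord_mul hfne (pow_ne_zero _ hAord.1), w'.ord_pow]
      have h4 : (0 : ℤ) ≤ j := Int.natCast_nonneg j
      nlinarith
  obtain ⟨p, hp⟩ := hpoly
  have hp0 : p ≠ 0 := by
    rintro rfl
    rw [map_zero] at hp
    exact mul_ne_zero hfne (pow_ne_zero _ hAord.1) hp.symm
  have hple : w.ord (ω E) + j * w.ord (aeval t A) ≤ 0 := by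
    have h1 := (ord_poly w hw.con hwt' p hp0).2
    rw [hp, w.ord_mul hfne (pow_ne_zero _ hAord.1), w.ord_pow] at h1
    rw [h1]
    have h2 : (0 : ℤ) ≤ p.natDegree := Int.natCast_nonneg _
    nlinarith
  -- the place at infinity
  have hdiv := divisorial w hw.con z hz.1 n e'
  have h1 := hform (Matrix.diagonal fun i => if i = i0 then t ^ 2 else 1) E
  have h2 : (fun i => ∑ l, (Matrix.diagonal fun i => if i = i0 then t ^ 2 else 1) i l • E l) =
      fun i => (if i = i0 then t ^ 2 else 1) • E i := by
    funext i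
    rw [Finset.sum_eq_single i]
    · rw [Matrix.diagonal_apply_eq]
    · intro b _ hb
      rw [Matrix.diagonal_apply_ne _ hb.symm, zero_smul]
    · intro h
      exact absurd (Finset.mem_univ i) h
  rw [h2, Matrix.det_diagonal, Finset.prod_ite_eq' Finset.univ i0 (fun _ => t ^ 2),
    if_pos (Finset.mem_univ i0)] at h1
  have h3 := hreg w hw.con hdiv (fun i => (if i = i0 then t ^ 2 else 1) • E i) (by
    intro l
    apply hw.pres
    intro p
    apply der_poly
    · intro m
      by_cases hl : l = i0
      · refine ⟨0, ?_⟩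
        rw [if_pos hl, hl]
        change t ^ 2 * E i0 (m : L) = _
        rw [hE0M, mul_zero]
        rfl
      · obtain ⟨m', hm'⟩ := hEM l m
        refine ⟨m', ?_⟩
        rw [if_neg hl, one_smul]
        exact hm'
    · by_cases hl : l = i0
      · refine ⟨-1, ?_⟩
        rw [if_pos hl, hl]
        change t ^ 2 * E i0 t⁻¹ = _
        rw [Derivation.leibniz_inv, hEt, if_pos rfl]
        simp only [smul_eq_mul]
        push_cast
        field_simp
      · refine ⟨0, ?_⟩
        rw [if_neg hl, one_smul, Derivation.leibniz_inv, hEt, if_neg (Ne.symm hl), smul_zero]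
        rfl)
  rw [h1] at h3
  have hne : (t ^ 2) ^ (j * N) * ω E ≠ 0 := mul_ne_zero (pow_ne_zero _ (pow_ne_zero _ ht0)) hfne
  rcases h3 with h3 | ⟨s, hs, hs0, hle⟩
  · exact hne h3
  · rw [w.ord_mul (pow_ne_zero _ (pow_ne_zero _ ht0)) hfne, w.ord_pow, w.ord_pow] at hle
    have h4 := hC s hs
    have h5 : -|w.ord s| ≤ w.ord s := neg_abs_le _
    have h6 : -|w.ord (aeval t A)| ≤ w.ord (aeval t A) := neg_abs_le _
    have hj' : (1 : ℤ) ≤ j := by exact_mod_cast hj
    have hN0 : (0 : ℤ) ≤ N := Int.natCast_nonneg _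
    push_cast at hle
    -- `j (ord s + ord A + 2 N) ≤ 0`
    have h7 : (j : ℤ) * (w.ord s + w.ord (aeval t A) + 2 * N) ≤ 0 := by
      have h8 : (j : ℤ) * N * (2 * w.ord t) ≤ (j : ℤ) * N * (-2) := by
        apply mul_le_mul_of_nonneg_left
        · omega
        · positivity
      nlinarith
    have h9 : 0 < w.ord s + w.ord (aeval t A) + 2 * N := by linarith
    nlinarith

end main

end Pool.Agent.W619.Y.RuledP
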