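import Pool.Agent.W619.Y.PMain
import Pool.Agent.W619.Y.RatP
import Pool.Agent.W619.Y.RuledP
import Pool.Agent.W619.Y.Den
import Pool.Agent.W704.PG.VAN
import Pool.Agent.W193.PG.ELL
import Pool.Agent.W258.PG.PRODF
import Pool.Agent.W340.PG.MULP

/-! Final form for pairs. -/

set_option autoImplicit false
set_option linter.overlappingInstances false
set_option linter.unusedSectionVars false

universe u v

open Polynomial FF IntermediateField Pool.Agent.W619.PQ Pool.Agent.W619.PL Pool.Agent.W619.TW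
  Pool.Agent.W619.X

namespace Pool.Agent.W619.Y

open Pool.Agent.W603.LV

/-- Pairs. -/
theorem pairF {k : Type v} {L : Type u} [Field k] [CharZero k] [IsAlgClosed k] [Field L]
    [Algebra k L] (d n : ℕ) (hn : Algebra.trdeg k L = (d + n : ℕ)) (M : IntermediateField k L)
    [Algebra.EssFiniteType k M] (hM : Algebra.trdeg k M = d)
    (F : Fin n → IntermediateField k L) [hF : ∀ i, IsFF k (F i)]
    (hsup : M ⊔ (⨆ i, F i) = ⊤)
    (G : Subgroup (L ≃ₐ[k] L)) [Finite G] (σ : G →* Equiv.Perm (Fin n))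
    (hσ : ∀ (g : G) i, ∀ z ∈ F i, (g : L ≃ₐ[k] L) z ∈ F (σ g i))
    (h : MixedPos G σ F) (δ : Place k (fixedField G) → ℚ) (hδ : ∀ v, 0 ≤ δ v)
    (P : Set (Fin n)) (hP : ∀ i, i ∈ P ↔ (¬ ∃ t : F i, k⟮t⟯ = ⊤) ∧ ¬ IsElliptic (F i))
    (hδP : BoundedBy (⨆ i : P, F i) (d + n) δ) :
    ((∃ i, ∃ t : F i, k⟮t⟯ = ⊤) → ¬ PairPsef k (fixedField G) (d + n) δ) ∧
    ((∀ i, ¬ ∃ t : F i, k⟮t⟯ = ⊤) → ∀ a, KodTr k M d a → NumLe k M d (fun _ => False) a →
      PairKodGe k (fixedField G) (d + n) δ (a + P.ncard) ∧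
      PairNumLe k (fixedField G) (d + n) δ (a + P.ncard)) :=
  pairM Pool.Agent.W704.PG.VAN.main Pool.Agent.W193.PG.ELL.main Pool.Agent.W258.PG.PRODF.main
    Pool.Agent.W619.Y.Den.main Pool.Agent.W340.PG.MULP.main
    (Pool.Agent.W619.Y.RatP.main Pool.Agent.W619.Y.RuledP.main) d n hn M hM F hsup G σ hσ h δ hδ P
    hP hδP

end Pool.Agent.W619.Y
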