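import Pool.Agent.W619.Y.Stm11
import Pool.Agent.W619.Y.FinP

/-! Pluricanonical forms on `Y × C 1 × ... × C n` with prescribed zeros. -/

set_option autoImplicit false
set_option linter.overlappingInstances false
set_option linter.unusedSectionVars false

universe u v

open Polynomial FF IntermediateField Pool.Agent.W619.PQ Pool.Agent.W619.PL Pool.Agent.W619.TW
  Pool.Agent.W619.X

namespace Pool.Agent.W619.Y

open Pool.Agent.W603.LV

section

variable {k : Type v} {L : Type u} [Field k] [CharZero k] [IsAlgClosed k] [Field L] [Algebra k L]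

theorem curve_basis (F : IntermediateField k L) [hF : IsFF k F] {x : F}
    (hx : Transcendental k x) : IsTranscendenceBasis k (fun _ : Fin 1 => x) := by
  have h1 : AlgebraicIndependent k (fun _ : Fin 1 => x) := by
    rw [algebraicIndependent_unique_type_iff]
    exact hx
  refine h1.isTranscendenceBasis_of_lift_trdeg_le_of_finite ?_
  rw [hF.trdeg]
  simp

theorem curve_good (hYLOC : S_YLOC.{u, v}) (F : IntermediateField k L) [hF : IsFF k F] {N : ℕ}
    (hN : Algebra.trdeg k L = N) {m r : ℕ} (hr : 1 ≤ r)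
    {η : (Fin 1 → Derivation k F F) → F} (hη : IsPluriForm k F 1 m η)
    (h : F) (h1 : ∀ q : Place k F, RegularAt q 1 η)
    (h2 : ∀ q : Place k F, RegularAt q 1 (fun D => h * η D)) {x : F} (hx : Transcendental k x)
    {E : Derivation k F F} (hE : E x = 1) (w : Place k L) (hw : IsDivisorial w N) :
    YGood 1 (r * m) w (fun _ => (x : L)) ((h * (η fun _ => E) ^ r : F) : L) := by
  have hb := curve_basis F hx
  have hess : Algebra.EssFiniteType k F := hF.ess
  refine hYLOC k L F 1 N (r * m) (by rw [hF.trdeg]; simp) hN (fun y hy => fin_over y hy)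
    (fun D => h * (η D) ^ r) (fun A D => ?_) (fun u _ D hD => ?_) (fun _ => x) (fun _ => E) hb
    (fun i j => ?_) w hw
  · change h * (η fun i => ∑ j, A i j • D j) ^ r = A.det ^ (r * m) * (h * (η D) ^ r)
    rw [hη A D, mul_pow, ← pow_mul, mul_comm m r]
    ring
  · change u.Reg (h * (η D) ^ r)
    obtain ⟨s, rfl⟩ : ∃ s, r = s + 1 := ⟨r - 1, by omega⟩
    rw [pow_succ, mul_comm ((η D) ^ s), ← mul_assoc]
    refine u.reg_mul (h2 u D hD) ?_
    clear h2 hr
    induction s with
    | zero => rw [pow_zero]; exact u.reg_one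
    | succ s ih => rw [pow_succ]; exact u.reg_mul ih (h1 u D hD)
  · rw [Subsingleton.elim i j, if_pos rfl]
    exact hE

/-- Forms on the product with prescribed zeros. -/
theorem exists_van (hVAN : S_VAN.{u, v}) (hELL : S_ELL.{u, v}) (hPROD : S_PRODF.{u, v})
    (hDEN : S_DEN.{u, v}) (d n : ℕ) (hn : Algebra.trdeg k L = (d + n : ℕ))
    (M : IntermediateField k L) [Algebra.EssFiniteType k M] (hM : Algebra.trdeg k M = d)
    (F : Fin n → IntermediateField k L) [hF : ∀ i, IsFF k (F i)]
    (halg : Algebra.IsAlgebraic ↥(M ⊔ ⨆ i, F i) L)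
    (hirr : ∀ i, ¬ ∃ t : F i, k⟮t⟯ = ⊤) (hY : ¬ KodairaNeg k M d)
    (P : Set (Fin n)) (hP : ∀ i, i ∈ P ↔ ¬ IsElliptic (F i)) (T : Finset L)
    (hT : ∀ t ∈ T, t ∈ ⨆ i : P, F i) :
    ∃ (m : ℕ) (η : (Fin (d + n) → Derivation k L L) → L), 1 ≤ m ∧ IsPluriForm k L (d + n) m η ∧
      (∃ D, η D ≠ 0) ∧ ∀ t ∈ (insert 1 T : Set L), ∀ w : Place k L, IsDivisorial w (d + n) →
        RegularAt w (d + n) (fun D => t * η D) := by
  classical
  obtain ⟨mY, ηY, y, E, hmY, hηY, hregY, hy, hE, hηY0⟩ := exists_form d M hM hY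
  obtain ⟨g, H, hg0, hH1, hH2, hHT⟩ := hDEN k L n F P T hT
  have hcurve : ∀ i, ∃ (m : ℕ) (η : (Fin 1 → Derivation k (F i) (F i)) → F i), 1 ≤ m ∧
      IsPluriForm k (F i) 1 m η ∧ (∃ D, η D ≠ 0) ∧ ∀ h ∈ H i, ∀ q : Place k (F i),
        RegularAt q 1 (fun D => h * η D) := by
    intro i
    by_cases hi : IsElliptic (F i)
    · obtain ⟨η, h1, h2, h3⟩ := hELL k L (F i) hi
      refine ⟨1, η, le_rfl, h1, h2, fun h hh q => ?_⟩
      have h4 : h = 1 := hH1 i (fun h5 => (hP i).1 h5 hi) h hh
      subst h4
      intro D hD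
      have h5 := h3 q D hD
      change q.Reg (1 * η D)
      rwa [one_mul]
    · exact hVAN k L (F i) (hirr i) hi (H i)
  choose mc ηc hmc hηc hηc0 hregc using hcurve
  have hx0 : ∀ i, ∃ x : F i, Transcendental k x := fun i => IsFF.exists_transcendental
  choose x hx using hx0
  have hE0 : ∀ i, ∃ Ei : Derivation k (F i) (F i), Ei (x i) = 1 := fun i => by
    have hch : CharZero (F i) := charZero_of_alg (k := k)
    obtain ⟨Ei, h1⟩ := exists_dual (fun _ : Fin 1 => x i) (curve_basis (F i) (hx i)) 0
    exact ⟨Ei, by simpa using h1 0⟩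
  choose Ec hEc using hE0
  let b : ∀ i, F i := fun i => ηc i (fun _ => Ec i)
  have hb0 : ∀ i, b i ≠ 0 := by
    intro i h0
    have hch : CharZero (F i) := charZero_of_alg (k := k)
    obtain ⟨D, hD⟩ := hηc0 i
    refine hD ?_
    rw [pluri_frame (hηc i) (fun _ : Fin 1 => x i) (curve_basis (F i) (hx i)) (fun _ => Ec i)
      (fun a c => by rw [Subsingleton.elim a c, if_pos rfl]; exact hEc i) D]
    change _ * b i = 0
    rw [h0, mul_zero]
  -- the common weight
  have hprod : 1 ≤ ∏ i, mc i := Finset.one_le_prod' fun i _ => hmc i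
  let m : ℕ := (∏ i, mc i) * mY
  let r : Fin n → ℕ := fun i => (∏ j ∈ Finset.univ.erase i, mc j) * mY
  have hrm : ∀ i, r i * mc i = m := fun i => by
    have h1 : (∏ j ∈ Finset.univ.erase i, mc j) * mc i = ∏ i, mc i :=
      Finset.prod_erase_mul _ _ (Finset.mem_univ i)
    simp only [r, m]
    rw [← h1]
    ring
  have hr1 : ∀ i, 1 ≤ r i := fun i => by
    have h1 : 1 ≤ ∏ j ∈ Finset.univ.erase i, mc j := Finset.one_le_prod' fun j _ => hmc j
    simp only [r]
    exact Nat.one_le_iff_ne_zero.2 (by positivity)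
  let a : L := ((ηY E : M) : L) ^ (∏ i, mc i)
  have ha0 : a ≠ 0 := pow_ne_zero _ fun h0 => hηY0 (Subtype.ext h0)
  have hYg : ∀ w : Place k L, IsDivisorial w (d + n) → YGood d m w (fun l => (y l : L)) a := by
    intro w hw
    exact (pYLOC k L M d (d + n) mY hM hn (fun y hy => fin_over y hy) ηY hηY hregY y E hy hE w
      hw).pow (∏ i, mc i)
  have hcg : ∀ (h : ∀ i, F i), (∀ i, h i ∈ H i) → ∀ w : Place k L, IsDivisorial w (d + n) → ∀ i,
      YGood 1 m w (fun _ => (x i : L)) ((h i * (b i) ^ (r i) : F i) : L) := by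
    intro h hh w hw i
    have h1 : ∀ q : Place k (F i), RegularAt q 1 (ηc i) := fun q D hD => by
      have h2 := hregc i 1 (hH2 i) q D hD
      change q.Reg (1 * ηc i D) at h2
      rwa [one_mul] at h2
    have h3 := curve_good pYLOC (F i) (N := d + n) hn (m := mc i) (r := r i) (hr1 i) (hηc i) (h i)
      h1 (hregc i (h i) (hh i)) (hx i) (hEc i) w hw
    rw [hrm i] at h3
    exact h3
  let xx : Fin (d + n) → L := Fin.append (fun l => (y l : L)) (fun i => (x i : L))
  let c : L := g * a * ∏ i, ((b i : L) ^ (r i))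
  let η : (Fin (d + n) → Derivation k L L) → L := fun D =>
    c * (Matrix.of fun i j => D j (xx i)).det ^ m
  have hc0 : c ≠ 0 := by
    refine mul_ne_zero (mul_ne_zero hg0 ha0) (Finset.prod_ne_zero_iff.2 fun i _ =>
      pow_ne_zero _ fun h0 => hb0 i (Subtype.ext h0))
  have hbas := basis_append M F halg hn y hy x hx
  refine ⟨m, η, Nat.mul_pos hprod hmY, fun A D => ?_, ?_, ?_⟩
  · change c * (Matrix.of fun i j => (∑ l, A j l • D l) (xx i)).det ^ m =
      A.det ^ m * (c * (Matrix.of fun i j => D j (xx i)).det ^ m)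
    have h1 : (Matrix.of fun i j => (∑ l, A j l • D l) (xx i)) =
        (Matrix.of fun i j => D j (xx i)) * A.transpose := by
      ext i j
      rw [Matrix.mul_apply]
      have h2 : ∀ s : Finset (Fin (d + n)), (∑ l ∈ s, A j l • D l) (xx i) =
          ∑ l ∈ s, D l (xx i) * A j l := by
        intro s
        induction s using Finset.induction_on with
        | empty => simp
        | insert e s he ih =>
          rw [Finset.sum_insert he, Finset.sum_insert he, Derivation.add_apply, ih]
          congr 1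
          rw [Derivation.smul_apply, smul_eq_mul, mul_comm]
      exact h2 Finset.univ
    rw [h1, Matrix.det_mul, Matrix.det_transpose, mul_pow]
    ring
  · have hch : CharZero L := charZero_of_alg (k := k)
    choose EL hEL using fun j => exists_dual xx hbas j
    refine ⟨EL, ?_⟩
    have h1 : (Matrix.of fun i j => EL j (xx i)) = 1 := by
      ext i j
      rw [Matrix.of_apply, hEL j i, Matrix.one_apply]
    change c * (Matrix.of fun i j => EL j (xx i)).det ^ m ≠ 0
    rw [h1, Matrix.det_one, one_pow, mul_one]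
    exact hc0
  · intro t ht w hw D hD
    have key : ∀ s ∈ Submodule.span k
        {z : L | ∃ h : ∀ i, F i, (∀ i, h i ∈ H i) ∧ z = ∏ i, (h i : L)},
        Ge w 0 (s * (a * (∏ i, ((b i : L) ^ (r i))) *
          (Matrix.of fun i j => D j (xx i)).det ^ m)) := by
      intro s hs
      induction hs using Submodule.span_induction with
      | mem z hz =>
        obtain ⟨h, hh, rfl⟩ := hz
        have h1 := hPROD k L d n m w (fun l => (y l : L)) a (fun i => (x i : L))
          (fun i => ((h i * (b i) ^ (r i) : F i) : L)) (hYg w hw) (hcg h hh w hw) D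
          (fun j => hD j)
        have h2 : (∏ i, (h i : L)) * (a * (∏ i, ((b i : L) ^ (r i))) *
            (Matrix.of fun i j => D j (xx i)).det ^ m) =
            a * (∏ i, ((h i * (b i) ^ (r i) : F i) : L)) *
            (Matrix.of fun i j => D j (xx i)).det ^ m := by
          have h3 : (∏ i, ((h i * (b i) ^ (r i) : F i) : L)) =
              (∏ i, (h i : L)) * ∏ i, ((b i : L) ^ (r i)) := by
            rw [← Finset.prod_mul_distrib]
            rfl
          rw [h3]
          ring
        rw [h2]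
        exact h1
      | zero => rw [zero_mul]; exact Ge.zero
      | add p q _ _ hp hq => rw [add_mul]; exact hp.add hq
      | smul e p _ hp =>
        rw [Algebra.smul_def, mul_assoc]
        have h1 := (Ge.const (P := w) e).mul hp
        simpa using h1
    have h4 := key (g * t) (hHT t ht)
    change w.Reg (t * (c * (Matrix.of fun i j => D j (xx i)).det ^ m))
    have h5 : t * (c * (Matrix.of fun i j => D j (xx i)).det ^ m) =
        g * t * (a * (∏ i, ((b i : L) ^ (r i))) * (Matrix.of fun i j => D j (xx i)).det ^ m) := by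
      simp only [c]
      ring
    rw [h5]
    exact h4

end

end Pool.Agent.W619.Y
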