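import Pool.Agent.W619.Y.PForm
import Pool.Agent.W619.Y.Main
import Pool.Agent.W736.PG.TRANSP

/-! Pairs on quotients of `Y × C 1 × ... × C n`. -/

set_option autoImplicit false
set_option linter.overlappingInstances false
set_option linter.unusedSectionVars false

universe u v

open Polynomial FF IntermediateField Pool.Agent.W619.PQ Pool.Agent.W619.PL Pool.Agent.W619.TW
  Pool.Agent.W619.X

namespace Pool.Agent.W619.Y

open Pool.Agent.W603.LV

section

variable {k : Type*} {K : Type*} [Field k] [Field K] [Algebra k K] {n : ℕ}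

theorem pairSec_congr {δ δ' : Place k K → ℚ} (h : ∀ v, IsDivisorial v n → δ v = δ' v)
    {S : Finset K} {m j : ℕ} {ω : (Fin n → Derivation k K K) → K}
    (hω : IsPairSec k K n δ S m j ω) : IsPairSec k K n δ' S m j ω :=
  ⟨hω.1, fun v hv D hD => by rw [← h v hv]; exact hω.2 v hv D hD⟩

theorem pairPsef_congr {δ δ' : Place k K → ℚ} (h : ∀ v, IsDivisorial v n → δ v = δ' v)
    (hp : PairPsef k K n δ) : PairPsef k K n δ' := by
  obtain ⟨S, hS⟩ := hp
  refine ⟨S, fun N => ?_⟩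
  obtain ⟨j, hj, ω, hω, hD⟩ := hS N
  exact ⟨j, hj, ω, pairSec_congr h hω, hD⟩

theorem pairNumLe_congr {δ δ' : Place k K → ℚ} (h : ∀ v, IsDivisorial v n → δ v = δ' v) {a : ℕ}
    (hp : PairNumLe k K n δ a) : PairNumLe k K n δ' a := by
  intro S
  obtain ⟨C, hC⟩ := hp S
  refine ⟨C, fun m N hm hI => hC m N hm ?_⟩
  obtain ⟨ω, h1, h2⟩ := hI
  exact ⟨ω, h1, fun l => pairSec_congr (fun v hv => (h v hv).symm) (h2 l)⟩

theorem pairKodGe_of {δ : Place k K → ℚ} (hδ : ∀ v, 0 ≤ δ v) {a : ℕ}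
    (hp : KodGe k K n (fun _ => False) a) : PairKodGe k K n δ a := by
  obtain ⟨m, hm, h⟩ := hp
  refine ⟨m, hm, fun j hj => ?_⟩
  obtain ⟨ω, h1, h2⟩ := h j hj
  refine ⟨ω, h1, fun l => ⟨(h2 l).1, fun v hv D hD => ?_⟩⟩
  rcases (h2 l).2.1 v hv not_false D hD with h3 | ⟨s, hs, hs0, h3⟩
  · exact Or.inl h3
  · right
    refine ⟨s, hs, hs0, ?_⟩
    have h4 : (0 : ℤ) ≤ v.ord (ω l D) := by simpa using h3
    have h5 : (0 : ℚ) ≤ v.ord (ω l D) := by exact_mod_cast h4
    have h6 : (0 : ℚ) ≤ (j * m : ℕ) * δ v := mul_nonneg (by positivity) (hδ v)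
    simp only [Nat.cast_zero, zero_mul]
    linarith

end

section

variable {k : Type v} {L : Type u} [Field k] [CharZero k] [IsAlgClosed k] [Field L] [Algebra k L]

open scoped Classical in
/-- The pull-back of the divisor. -/
noncomputable def upδ {K : IntermediateField k L} (N : ℕ) (δ : Place k K → ℚ) (w : Place k L) : ℚ :=
  if h : ∃ (v : Place k K) (e : ℕ), Over w v e ∧ IsDivisorial v N then
    h.choose_spec.choose * δ h.choose else 0

theorem upδ_eq {K : IntermediateField k L} (N : ℕ) (δ : Place k K → ℚ) {w : Place k L}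
    {v : Place k K} {e : ℕ} (hw : Over w v e) (hv : IsDivisorial v N) : upδ N δ w = e * δ v := by
  have h : ∃ (v : Place k K) (e : ℕ), Over w v e ∧ IsDivisorial v N := ⟨v, e, hw, hv⟩
  unfold upδ
  rw [dif_pos h]
  obtain ⟨h1, h2⟩ := over_unique' h.choose_spec.choose_spec.1 hw
  rw [h2, h1]

theorem upδ_bound {K : IntermediateField k L} (N : ℕ) (δ : Place k K → ℚ) (T : Finset K)
    (hT : ∀ v : Place k K, IsDivisorial v N → ∃ t ∈ T, δ v ≤ -v.ord t) (w : Place k L) :
    upδ N δ w ≤ 0 ∨ ∃ t ∈ T, upδ N δ w ≤ - w.ord (t : L) := by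
  by_cases h : ∃ (v : Place k K) (e : ℕ), Over w v e ∧ IsDivisorial v N
  · right
    obtain ⟨v, e, hw, hv⟩ := h
    obtain ⟨t, ht, h1⟩ := hT v hv
    refine ⟨t, ht, ?_⟩
    rw [upδ_eq N δ hw hv]
    have h2 : w.ord (t : L) = e * v.ord t := hw.2 t
    rw [h2]
    push_cast
    have h3 : (0 : ℚ) ≤ e := by positivity
    have h4 := mul_le_mul_of_nonneg_left h1 h3
    linarith
  · left
    unfold upδ
    rw [dif_neg h]

/-- Pairs. -/
theorem pairM (hVAN : S_VAN.{u, v}) (hELL : S_ELL.{u, v}) (hPROD : S_PRODF.{u, v})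
    (hDEN : S_DEN.{u, v}) (hMUL : S_MULP.{u, v}) (hRAT : S_RATP.{u, v})
    (d n : ℕ) (hn : Algebra.trdeg k L = (d + n : ℕ)) (M : IntermediateField k L)
    [Algebra.EssFiniteType k M] (hM : Algebra.trdeg k M = d)
    (F : Fin n → IntermediateField k L) [hF : ∀ i, IsFF k (F i)]
    (hsup : M ⊔ (⨆ i, F i) = ⊤)
    (G : Subgroup (L ≃ₐ[k] L)) [Finite G] (σ : G →* Equiv.Perm (Fin n))
    (hσ : ∀ (g : G) i, ∀ z ∈ F i, (g : L ≃ₐ[k] L) z ∈ F (σ g i))
    (h : MixedPos G σ F) (δ : Place k (fixedField G) → ℚ) (hδ : ∀ v, 0 ≤ δ v)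
    (P : Set (Fin n)) (hP : ∀ i, i ∈ P ↔ (¬ ∃ t : F i, k⟮t⟯ = ⊤) ∧ ¬ IsElliptic (F i))
    (hδP : BoundedBy (⨆ i : P, F i) (d + n) δ) :
    ((∃ i, ∃ t : F i, k⟮t⟯ = ⊤) → ¬ PairPsef k (fixedField G) (d + n) δ) ∧
    ((∀ i, ¬ ∃ t : F i, k⟮t⟯ = ⊤) → ∀ a, KodTr k M d a → NumLe k M d (fun _ => False) a →
      PairKodGe k (fixedField G) (d + n) δ (a + P.ncard) ∧
      PairNumLe k (fixedField G) (d + n) δ (a + P.ncard)) := by
  classical
  have hess := ess_top M F hsup
  have hfinL : FiniteDimensional (fixedField G) L := by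
    have hGal : IsGaloisGroup G (fixedField G) L := isGaloisGroup_fixed G
    exact IsGaloisGroup.finiteDimensional G (fixedField G) L
  have hnK : Algebra.trdeg k (fixedField G) = (d + n : ℕ) := by
    rw [← hn, ← trdeg_add_eq k (fixedField G) (A := L),
      trdeg_eq_zero (R := fixedField G) (A := L), add_zero]
  obtain ⟨T, hT1, hT2⟩ := hδP
  have hb := upδ_bound (d + n) δ T hT2
  let δ0 : Place k (fixedField G) → ℚ := fun v => if IsDivisorial v (d + n) then δ v else 0
  have hδ0 : ∀ v, IsDivisorial v (d + n) → δ v = δ0 v := fun v hv => by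
    simp only [δ0]; rw [if_pos hv]
  obtain ⟨h1, h2⟩ := Pool.Agent.W736.PG.main pFRAME pDIVI k (fixedField G) L (d + n) hnK
    (fun y hy => fin_over_adjoin (d + n) (fixedField G) y hy) δ0
    (fun w => max 0 (upδ (d + n) δ w)) (fun w v e hw => by
      by_cases hv : IsDivisorial v (d + n)
      · rw [← hδ0 v hv, ← upδ_eq (d + n) δ hw hv]
        exact le_max_right _ _
      · simp only [δ0]
        rw [if_neg hv, mul_zero]
        exact le_max_left _ _)
  refine ⟨?_, fun hirr a ha hν => ?_⟩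
  · rintro ⟨i0, hi0⟩ hp
    refine hRAT k L d n M F (fun w => max 0 (upδ (d + n) δ w)) hM hn hsup i0 hi0 (fun w hw => ?_)
      (h1 (pairPsef_congr hδ0 hp))
    refine max_le le_rfl ?_
    rcases hb w with h3 | ⟨t, ht, h3⟩
    · exact h3
    · have hle : (⨆ i : P, F i) ≤ M ⊔ ⨆ j : {j : Fin n // j ≠ i0}, F j := by
        refine le_trans (iSup_le fun i => ?_) le_sup_right
        exact le_iSup (fun j : {j : Fin n // j ≠ i0} => F j)
          ⟨i, fun h4 => ((hP i).1 i.2).1 (h4 ▸ hi0)⟩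
      have h5 := hw (t : L) (hle (hT1 t ht).2)
      rw [h5] at h3
      simpa using h3
  · have hkod : ¬ KodairaNeg k M d := fun h3 =>
      (kodairaNeg_of_not_eff.2 h3) (eff_of_kodTr ha)
    have hPe : {i | ¬ IsElliptic (F i)} = P := by
      ext i
      rw [hP i]
      exact ⟨fun h4 => ⟨hirr i, h4⟩, fun h4 => h4.2⟩
    obtain ⟨h3, -⟩ := abM d n hn M hM F (alg_of_top M F hsup) G σ hσ h
    have h4 := (h3 hirr a ha).2
    rw [hPe] at h4
    refine ⟨pairKodGe_of hδ h4, ?_⟩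
    refine pairNumLe_congr (fun v hv => (hδ0 v hv).symm) (h2 _ ?_)
    obtain ⟨m, η, hm, hη, hη0, hreg⟩ := exists_van hVAN hELL hPROD hDEN d n hn M hM F
      (alg_of_top M F hsup) hirr hkod P (fun i => by
        rw [hP i]; exact ⟨fun h5 => h5.2, fun h5 => ⟨hirr i, h5⟩⟩) (T.image Subtype.val)
      (fun t ht => by
        obtain ⟨s, hs, rfl⟩ := Finset.mem_image.1 ht
        exact (hT1 s hs).2)
    refine hMUL k L (d + n) m η (insert 1 (T.image Subtype.val)) _ hn hm hη hη0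
      (fun w _ => ?_) (fun t ht w hw => hreg t (by simpa using ht) w hw) _ ?_
    · rcases hb w with h5 | ⟨t, ht, h5⟩
      · refine ⟨1, by simp, one_ne_zero, ?_⟩
        rw [w.ord_one]
        simpa using h5
      · by_cases h6 : upδ (d + n) δ w ≤ 0
        · refine ⟨1, by simp, one_ne_zero, ?_⟩
          rw [w.ord_one]
          simpa using h6
        · refine ⟨(t : L), Finset.mem_insert_of_mem (Finset.mem_image_of_mem _ ht), ?_, ?_⟩
          · exact fun h7 => (hT1 t ht).1 (Subtype.ext h7)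
          · exact max_le (le_trans (not_le.1 h6).le h5) h5
    · have h5 := (pMANY k L d n M F hM hn hsup).2.2 a (fun i => canDeg_nonneg (hirr i)) hν
      have h6 : {i | canDeg k (F i) ≠ 0} = P := by
        rw [← hPe]
        ext i
        constructor
        · exact fun h6 h7 => h6 (canDeg_elliptic h7)
        · exact fun h6 => (canDeg_pos (hirr i) h6).ne'
      rwa [h6] at h5

end

end Pool.Agent.W619.Y
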