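import Pool.Agent.W619.Y.Stm7

/-! Pairs on quotients of `Y × C 1 × ... × C n`: statements of the parts. -/

set_option autoImplicit false
set_option linter.overlappingInstances false
set_option linter.unusedSectionVars false

universe u v

open FF IntermediateField Pool.Agent.W619.PQ Pool.Agent.W619.PL Pool.Agent.W619.TW
  Pool.Agent.W603.LV

namespace Pool.Agent.W619.Y

/-- Pluricanonical forms with prescribed zeros on a curve of genus at least two: `h η` is regular
for all `h` in the finite set `H`. -/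
def S_VAN : Prop := ∀ (k : Type v) (L : Type u) [Field k] [CharZero k] [IsAlgClosed k]
  [Field L] [Algebra k L] (F : IntermediateField k L) [IsFF k F],
    (¬ ∃ t : F, k⟮t⟯ = ⊤) → ¬ IsElliptic F → ∀ H : Finset F,
    ∃ (m : ℕ) (η : (Fin 1 → Derivation k F F) → F), 1 ≤ m ∧ IsPluriForm k F 1 m η ∧
      (∃ D, η D ≠ 0) ∧ ∀ h ∈ H, ∀ q : Place k F, RegularAt q 1 (fun D => h * η D)

/-- The canonical form of an elliptic curve. -/
def S_ELL : Prop := ∀ (k : Type v) (L : Type u) [Field k] [CharZero k] [IsAlgClosed k]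
  [Field L] [Algebra k L] (F : IntermediateField k L) [IsFF k F], IsElliptic F →
    ∃ η : (Fin 1 → Derivation k F F) → F, IsPluriForm k F 1 1 η ∧
      (∃ D, η D ≠ 0) ∧ ∀ q : Place k F, RegularAt q 1 η

/-- Products of forms. -/
def S_PRODF : Prop := ∀ (k : Type v) (L : Type u) [Field k] [Field L] [Algebra k L] (d n m : ℕ)
  (w : Place k L) (y : Fin d → L) (a : L) (x b : Fin n → L), YGood d m w y a →
    (∀ i, YGood 1 m w (fun _ => x i) (b i)) →
    ∀ D : Fin (d + n) → Derivation k L L, (∀ j, Pres w (D j)) →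
      Ge w 0 (a * (∏ i, b i) *
        (Matrix.of fun i j => D j ((Fin.append y x : Fin (d + n) → L) i)).det ^ m)

/-- Common denominators for finitely many functions on the product of the curves in `P`. -/
def S_DEN : Prop := ∀ (k : Type v) (L : Type u) [Field k] [Field L] [Algebra k L] (n : ℕ)
  (F : Fin n → IntermediateField k L) (P : Set (Fin n)) (T : Finset L),
    (∀ t ∈ T, t ∈ ⨆ i : P, F i) →
    ∃ (g : L) (H : ∀ i, Finset (F i)), g ≠ 0 ∧ (∀ i ∉ P, ∀ h ∈ H i, h = 1) ∧ (∀ i, 1 ∈ H i) ∧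
      ∀ s ∈ (insert 1 T : Set L), g * s ∈ Submodule.span k
        {z : L | ∃ h : ∀ i, F i, (∀ i, h i ∈ H i) ∧ z = ∏ i, (h i : L)}

/-- If `Δ` is at most the divisor of a pluricanonical form `η`, then the upper bound for the
numerical dimension of `K` implies the same bound for `K + Δ`. -/
def S_MULP : Prop := ∀ (k : Type v) (L : Type u) [Field k] [CharZero k]
  [Field L] [Algebra k L] (n m1 : ℕ) (η : (Fin n → Derivation k L L) → L) (T : Finset L)
  (δ : Place k L → ℚ), Algebra.trdeg k L = n → 1 ≤ m1 → IsPluriForm k L n m1 η →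
    (∃ D, η D ≠ 0) →
    (∀ w : Place k L, IsDivisorial w n → ∃ t ∈ T, t ≠ 0 ∧ δ w ≤ - w.ord t) →
    (∀ t ∈ T, ∀ w : Place k L, IsDivisorial w n → RegularAt w n (fun D => t * η D)) →
    ∀ a : ℕ, NumLe k L n (fun _ => False) a → PairNumLe k L n δ a

/-- On a ruled variety, `K + Δ` is not pseudo-effective, if `Δ` is zero along the places which are
trivial on the base. -/
def S_RULEDP : Prop := ∀ (k : Type v) (L : Type u) [Field k] [CharZero k] [IsAlgClosed k]
  [Field L] [Algebra k L] (M : IntermediateField k L) (t : L) (n : ℕ) (δ : Place k L → ℚ),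
    Algebra.trdeg k L = n → Transcendental M t → IntermediateField.adjoin M {t} = ⊤ →
    (∀ w : Place k L, (∀ z ∈ M, w.ord z = 0) → δ w ≤ 0) → ¬ PairPsef k L n δ

/-- As `S_RULEDP`, for `Y × C 1 × ... × C n` with `C i0` rational. -/
def S_RATP : Prop := ∀ (k : Type v) (L : Type u) [Field k] [CharZero k] [IsAlgClosed k]
  [Field L] [Algebra k L] (d n : ℕ) (M : IntermediateField k L)
  (F : Fin n → IntermediateField k L) [∀ i, IsFF k (F i)] [Algebra.EssFiniteType k M]
  (δ : Place k L → ℚ),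
    Algebra.trdeg k M = d → Algebra.trdeg k L = (d + n : ℕ) → M ⊔ (⨆ i, F i) = ⊤ →
    ∀ i0 : Fin n, (∃ t : F i0, k⟮t⟯ = ⊤) →
    (∀ w : Place k L, (∀ z ∈ M ⊔ ⨆ j : {j : Fin n // j ≠ i0}, F j, w.ord z = 0) → δ w ≤ 0) →
    ¬ PairPsef k L (d + n) δ

end Pool.Agent.W619.Y
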