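import Pool.Agent.W619.Y.Stm2

/-! Abundance for quotients of `Y × C 1 × ... × C n`: statements of the parts. -/

set_option autoImplicit false
set_option linter.overlappingInstances false
set_option linter.unusedSectionVars false

universe u v

open FF IntermediateField Pool.Agent.W619.PQ Pool.Agent.W619.PL Pool.Agent.W619.TW
  Pool.Agent.W603.LV

namespace Pool.Agent.W619.Y

/-- The Gauss extension of a place of `M` to the compositum of `M` and the function field `F` of a
curve: it is trivial on `F`, and the order of `∑ β i μ i` with `β i` in `F` linearly independent over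
`k` is the minimum of the orders of the `μ i` in `M`. -/
def S_GAUSS : Prop := ∀ (k : Type v) (L : Type u) [Field k] [CharZero k] [IsAlgClosed k]
  [Field L] [Algebra k L] (M F : IntermediateField k L) [IsFF k F] (d : ℕ),
    Algebra.trdeg k M = d → Algebra.trdeg k L = (d + 1 : ℕ) → M ⊔ F = ⊤ →
    ∀ u : Place k M, ∃ U : Place k L, (∀ μ : M, U.ord (μ : L) = u.ord μ) ∧
      (∀ β : F, U.ord (β : L) = 0) ∧
      (∀ (r : ℕ) (β : Fin r → F) (μ : Fin r → M) (c : ℤ), LinearIndependent k β →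
        Ge U c (∑ i, (β i : L) * (μ i : L)) → ∀ i, Ge u c (μ i)) ∧
      (IsDivisorial u d → IsDivisorial U (d + 1)) ∧
      (∀ D : Derivation k L L, (∀ μ : M, u.Reg μ → ∃ μ' : M, D (μ : L) = (μ' : L) ∧ u.Reg μ') →
        (∀ β : F, ∃ β' : F, D (β : L) = (β' : L)) → Pres U D)

/-- Sections of `m K + A` restricted to the generic curve `F` over `M`. -/
def S_FIB : Prop := ∀ (k : Type v) (L : Type u) [Field k] [CharZero k] [IsAlgClosed k]
  [Field L] [Algebra k L] (M F : IntermediateField k L) [IsFF k F] (d : ℕ),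
    Algebra.trdeg k M = d → Algebra.trdeg k L = (d + 1 : ℕ) → M ⊔ F = ⊤ →
    ∀ (y : Fin d → M), IsTranscendenceBasis k y → ∀ (t : F), Transcendental k t →
    ∀ (E : Fin (d + 1) → Derivation k L L), (∀ μ : M, E 0 (μ : L) = 0) → E 0 (t : L) = 1 →
      (∀ l : Fin d, ∀ β : F, E l.succ (β : L) = 0) →
      (∀ l j : Fin d, E l.succ (y j : L) = if l = j then 1 else 0) →
    ∀ S : Finset L, ∃ (b0 : L) (A0 : ℕ), b0 ≠ 0 ∧ ∀ m : ℕ, ∃ W : Submodule k F,
      FiniteDimensional k W ∧ (Module.finrank k W : ℤ) ≤ max 0 (m * canDeg k F + A0) ∧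
      ∀ ω : (Fin (d + 1) → Derivation k L L) → L,
        IsSec k L (d + 1) (fun _ => False) S m 1 ω →
        b0 * ω E ∈ Submodule.span M ((fun β : F => (β : L)) '' (W : Set F))

/-- The numerical dimension of the product with a curve. -/
def S_ONE : Prop := ∀ (k : Type v) (L : Type u) [Field k] [CharZero k] [IsAlgClosed k]
  [Field L] [Algebra k L] (M F : IntermediateField k L) [IsFF k F] (d a : ℕ),
    Algebra.trdeg k M = d → Algebra.trdeg k L = (d + 1 : ℕ) → M ⊔ F = ⊤ →
    (∀ y : Fin d → M, IsTranscendenceBasis k y →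
      FiniteDimensional (IntermediateField.adjoin k (Set.range y)) M) →
    0 ≤ canDeg k F →
    NumLe k M d (fun _ => False) a →
    (canDeg k F = 0 → NumLe k L (d + 1) (fun _ => False) a) ∧
    NumLe k L (d + 1) (fun _ => False) (a + 1)

/-- Sections of `m K + j A` on a ruled variety vanish if `m / j` is large. -/
def S_RULED2 : Prop := ∀ (k : Type v) (L : Type u) [Field k] [CharZero k] [IsAlgClosed k]
  [Field L] [Algebra k L] (M : IntermediateField k L) (t : L) (n : ℕ),
    Algebra.trdeg k L = n → Transcendental M t → IntermediateField.adjoin M {t} = ⊤ →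
    ∀ S : Finset L, ∃ c : ℕ, ∀ (m j : ℕ) (ω : (Fin n → Derivation k L L) → L),
      IsSec k L n (fun _ => False) S m j ω → (∃ D, ω D ≠ 0) → m ≤ c * j

/-- Growth of the pluricanonical forms on quotients of `Y × C 1 × ... × C n`; the `a l (dy) ^ m` are
forms on `Y`. -/
def S_KOD2 : Prop := ∀ (k : Type v) (L : Type u) [Field k] [CharZero k] [IsAlgClosed k]
  [Field L] [Algebra k L] (d n A : ℕ) (M : IntermediateField k L)
  (F : Fin n → IntermediateField k L) [∀ i, IsFF k (F i)]
  (G : Subgroup (L ≃ₐ[k] L)) [Finite G] (σ : G →* Equiv.Perm (Fin n)),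
    Algebra.trdeg k M = d → Algebra.trdeg k L = (d + n : ℕ) →
    Algebra.IsAlgebraic ↥(M ⊔ ⨆ i, F i) L →
    (∀ g ∈ G, ∀ z ∈ M, g z ∈ M) →
    (∀ (g : G) i, ∀ z ∈ F i, (g : L ≃ₐ[k] L) z ∈ F (σ g i)) →
    ∀ (N m : ℕ), 2 ≤ N → FreeIn N G σ F → 1 ≤ m → Even m →
    ∀ (H : Set (Fin n)) (x c c' : Fin n → L), (∀ (g : G) i, i ∈ H → σ g i ∈ H) →
      (∀ i, x i ∈ Quo G σ F i) → (∀ i, Transcendental k (x i)) →
      (∀ (g : G) i, (g : L ≃ₐ[k] L) (x i) = x (σ g i)) →
      (∀ i, c i ∈ Quo G σ F i) → (∀ i, c i ≠ 0) → (∀ i, c' i ∈ Quo G σ F i) → (∀ i, c' i ≠ 0) →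
      (∀ (g : G) i, (g : L ≃ₐ[k] L) (c i) = c (σ g i)) →
      (∀ (g : G) i, (g : L ≃ₐ[k] L) (c' i) = c' (σ g i)) →
      (∀ i, GoodAt (Quo G σ F i) N m (x i) (c i)) →
      (∀ i, GoodAt (Quo G σ F i) N m (x i) (c' i)) →
      (∀ i ∈ H, Transcendental k (c' i / c i)) →
    ∀ (y : Fin d → M) (a : Fin (A + 1) → M), IsTranscendenceBasis k y → (∀ l, a l ≠ 0) →
      (∀ l, ∀ w : Place k L, IsDivisorial w (d + n) → YGood d m w (fun l => (y l : L)) (a l : L)) →
      AlgebraicIndependent k (fun l : Fin A => a l.succ / a 0) →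
      KodGe k (fixedField G) (d + n) (fun _ => False) (A + H.ncard)

end Pool.Agent.W619.Y
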