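import Pool.Agent.W619.Y.Stm3

/-! Abundance for quotients of `Y × C 1 × ... × C n`: further statements. -/

set_option autoImplicit false
set_option linter.overlappingInstances false
set_option linter.unusedSectionVars false

universe u v

open FF IntermediateField Pool.Agent.W619.PQ Pool.Agent.W619.PL Pool.Agent.W619.TW
  Pool.Agent.W603.LV

namespace Pool.Agent.W619.Y

/-- The elementary symmetric function of degree `r`. -/
noncomputable def esy {ι : Type*} {L : Type*} [Fintype ι] [CommSemiring L] (f : ι → L) (r : ℕ) : L :=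
  ∑ T ∈ (Finset.univ : Finset ι).powersetCard r, ∏ i ∈ T, f i

/-- Symmetric functions of conjugates, with algebraically independent ratios. -/
def S_SYM : Prop := ∀ (k : Type v) (L : Type u) [Field k] [CharZero k] [Field L] [Algebra k L]
  (ι : Type u) [Fintype ι] (i0 : ι) (h : ℕ) (P : ι → Fin (h + 1) → L), (∀ l, P i0 l ≠ 0) →
    AlgebraicIndependent k (fun l : Fin h => P i0 l.succ / P i0 0) →
    ∃ (R : ℕ) (t : Fin (h + 1) → Fin (h + 1)) (r q : Fin (h + 1) → ℕ), 1 ≤ R ∧
      (∀ j, r j * q j = R) ∧ (∀ j, esy (fun i => P i (t j)) (r j) ≠ 0) ∧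
      AlgebraicIndependent k (fun j : Fin h =>
        esy (fun i => P i (t j.succ)) (r j.succ) ^ q j.succ / esy (fun i => P i (t 0)) (r 0) ^ q 0)

/-- The coefficients of a section of `m K + A` with respect to functions on the curve `F` are sections
of `m K + A'` on the other factor. -/
def S_DESC : Prop := ∀ (k : Type v) (L : Type u) [Field k] [CharZero k] [IsAlgClosed k]
  [Field L] [Algebra k L] (M F : IntermediateField k L) [IsFF k F] (d : ℕ),
    Algebra.trdeg k M = d → Algebra.trdeg k L = (d + 1 : ℕ) → M ⊔ F = ⊤ →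
    ∀ (y : Fin d → M), IsTranscendenceBasis k y → ∀ (t : F), Transcendental k t →
    ∀ (E : Fin (d + 1) → Derivation k L L), (∀ μ : M, E 0 (μ : L) = 0) → E 0 (t : L) = 1 →
      (∀ l : Fin d, ∀ β : F, E l.succ (β : L) = 0) →
      (∀ l j : Fin d, E l.succ (y j : L) = if l = j then 1 else 0) →
    ∀ (S : Finset L) (b0 : L), b0 ≠ 0 → ∃ S' : Finset M, ∀ (m : ℕ)
      (ω : (Fin (d + 1) → Derivation k L L) → L), IsSec k L (d + 1) (fun _ => False) S m 1 ω →
      ∀ (r : ℕ) (β : Fin r → F) (μ : Fin r → M), LinearIndependent k β →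
        b0 * ω E = ∑ i, (β i : L) * (μ i : L) →
        ∀ i, IsSec k M d (fun _ => False) S' m 1
          (fun D => μ i * (Matrix.of fun a b => D a (y b)).det ^ m)

end Pool.Agent.W619.Y
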