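import Pool.Agent.W619.Y.Stm6
import Pool.Agent.W619.TW.PDefs

/-! Quotients of `Y × C 1 × ... × C n`, with boundary: statements of the parts. -/

set_option autoImplicit false
set_option linter.overlappingInstances false
set_option linter.unusedSectionVars false

universe u v

open FF IntermediateField Pool.Agent.W619.PQ Pool.Agent.W619.PL Pool.Agent.W619.TW
  Pool.Agent.W603.LV

namespace Pool.Agent.W619.Y

section

variable {k : Type v} {L : Type u} [Field k] [Field L] [Algebra k L] {n : ℕ}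

/-- The condition `GoodAt` at one place. -/
def GoodPl (Q : IntermediateField k L) (N m : ℕ) (x b : L) (w : Place k L) : Prop :=
  ∀ u : L, u ∈ Q → 0 < w.ord u → (∀ z ∈ Q, z ≠ 0 → w.ord u ∣ w.ord z) →
    ∀ ρ : L, (∀ D : Derivation k L L, D x = ρ * D u) →
      (m : ℤ) * w.ord u ≤ N * w.ord (b * (ρ * u) ^ m) ∧ (m : ℤ) ≤ w.ord (b * (ρ * u) ^ m)

/-- The `m`-form `b (dx) ^ m` on the curve `Q` is logarithmic at the place `w`. -/
def LogPl (Q : IntermediateField k L) (m : ℕ) (x b : L) (w : Place k L) : Prop :=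
  ∀ u : L, u ∈ Q → 0 < w.ord u → (∀ z ∈ Q, z ≠ 0 → w.ord u ∣ w.ord z) →
    ∀ ρ : L, (∀ D : Derivation k L L, D x = ρ * D u) → 0 ≤ w.ord (b * (ρ * u) ^ m)

/-- `b (dx) ^ m` is good at the places over the places outside the boundary `Bd` of the quotient, and
logarithmic at the others. -/
def GoodBd {G : Subgroup (L ≃ₐ[k] L)} (Bd : Place k (fixedField G) → Prop)
    (Q : IntermediateField k L) (N m : ℕ) (x b : L) : Prop :=
  ∀ (v : Place k (fixedField G)) (w : Place k L) (e : ℕ), Over w v e →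
    (¬ Bd v → GoodPl Q N m x b w) ∧ (Bd v → LogPl Q m x b w)

end

/-- As `S_REGLOG2`; the forms need to be good at `w` only. -/
def S_REGLOG3 : Prop := ∀ (k : Type v) (L : Type u) [Field k] [CharZero k] [IsAlgClosed k]
  [Field L] [Algebra k L] (d n : ℕ) (F : Fin n → IntermediateField k L) [∀ i, IsFF k (F i)]
  (G : Subgroup (L ≃ₐ[k] L)) [Finite G] (σ : G →* Equiv.Perm (Fin n)),
    (∀ (g : G) i, ∀ z ∈ F i, (g : L ≃ₐ[k] L) z ∈ F (σ g i)) →
    ∀ (N m e : ℕ), 2 ≤ N → FreeIn N G σ F →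
    ∀ (w : Place k L) (h : G) (ζ : k), orderOf h = e → IsPrimitiveRoot ζ e →
      (∀ z : L, z ≠ 0 → Ge w (w.ord z + 1)
        ((h : L ≃ₐ[k] L) z - algebraMap k L (ζ ^ (w.ord z)) * z)) →
      (e = 1 → ∃ i, ∃ z ∈ F i, w.ord z ≠ 0) →
    ∀ (y : Fin d → L) (a : L), YGood d m w y a →
    ∀ (x b : Fin n → L), (∀ i, x i ∈ Quo G σ F i) → (∀ i, Transcendental k (x i)) →
      (∀ (g : G) i, (g : L ≃ₐ[k] L) (x i) = x (σ g i)) →
      (∀ i, b i ∈ Quo G σ F i) → (∀ i, b i ≠ 0) →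
      (∀ i, GoodPl (Quo G σ F i) N m (x i) (b i) w) →
    ∀ D : Fin (d + n) → Derivation k L L, (∀ j, ∀ z, w.Reg (D j z / z)) →
      (∀ j z, (h : L ≃ₐ[k] L) (D j z) = D j ((h : L ≃ₐ[k] L) z)) →
      Ge w (m * e) (a * (∏ i, b i) *
        (Matrix.of fun i j => D j ((Fin.append y x : Fin (d + n) → L) i)).det ^ m)

/-- As `S_REG2`; the forms need to be good at the places over `v` only, and, for logarithmic
vector fields, logarithmic at these places. -/
def S_REG3 : Prop := ∀ (k : Type v) (L : Type u) [Field k] [CharZero k] [IsAlgClosed k]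
  [Field L] [Algebra k L] (d n : ℕ) (F : Fin n → IntermediateField k L) [∀ i, IsFF k (F i)]
  (G : Subgroup (L ≃ₐ[k] L)) [Finite G] (σ : G →* Equiv.Perm (Fin n)),
    Algebra.trdeg k L = (d + n : ℕ) →
    (∀ (g : G) i, ∀ z ∈ F i, (g : L ≃ₐ[k] L) z ∈ F (σ g i)) →
    ∀ (N : ℕ), 2 ≤ N → FreeIn N G σ F →
    ∀ x : Fin n → L, (∀ i, x i ∈ Quo G σ F i) → (∀ i, Transcendental k (x i)) →
      (∀ (g : G) i, (g : L ≃ₐ[k] L) (x i) = x (σ g i)) →
    ∀ v : Place k (fixedField G), IsDivisorial v (d + n) →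
      ∃ (w : Place k L) (e : ℕ), Over w v e ∧
      ∀ (m : ℕ) (b : Fin n → L), (∀ i, b i ∈ Quo G σ F i) → (∀ i, b i ≠ 0) →
      ∀ (y : Fin d → L) (a : L), (∀ w : Place k L, IsDivisorial w (d + n) → YGood d m w y a) →
      ∀ (D : Fin (d + n) → Derivation k (fixedField G) (fixedField G))
        (D' : Fin (d + n) → Derivation k L L),
        (∀ j (f : fixedField G), D' j (f : L) = (D j f : L)) →
        ((∀ i (w' : Place k L) (e' : ℕ), Over w' v e' →
            GoodPl (Quo G σ F i) N m (x i) (b i) w') → (∀ j, Pres v (D j)) →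
          ∀ g : G, Ge w 0 ((g : L ≃ₐ[k] L) (a * (∏ i, b i) *
            (Matrix.of fun i j => D' j ((Fin.append y x : Fin (d + n) → L) i)).det ^ m))) ∧
        ((∀ i (w' : Place k L) (e' : ℕ), Over w' v e' →
            LogPl (Quo G σ F i) m (x i) (b i) w') → (∀ j, ∀ f, v.Reg (D j f / f)) →
          ∀ g : G, Ge w 0 ((g : L ≃ₐ[k] L) (a * (∏ i, b i) *
            (Matrix.of fun i j => D' j ((Fin.append y x : Fin (d + n) → L) i)).det ^ m)))

/-- Effectivity with boundary. -/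
def S_EFF3 : Prop := ∀ (k : Type v) (L : Type u) [Field k] [CharZero k] [IsAlgClosed k]
  [Field L] [Algebra k L] (d n : ℕ) (F : Fin n → IntermediateField k L) [∀ i, IsFF k (F i)]
  (G : Subgroup (L ≃ₐ[k] L)) [Finite G] (σ : G →* Equiv.Perm (Fin n)),
    Algebra.trdeg k L = (d + n : ℕ) →
    (∀ (g : G) i, ∀ z ∈ F i, (g : L ≃ₐ[k] L) z ∈ F (σ g i)) →
    ∀ (Bd : Place k (fixedField G) → Prop) (N m : ℕ), 2 ≤ N → FreeIn N G σ F → 1 ≤ m →
    ∀ x b : Fin n → L, (∀ i, x i ∈ Quo G σ F i) → (∀ i, Transcendental k (x i)) →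
      (∀ (g : G) i, (g : L ≃ₐ[k] L) (x i) = x (σ g i)) →
      (∀ i, b i ∈ Quo G σ F i) → (∀ i, b i ≠ 0) →
      (∀ i, GoodBd Bd (Quo G σ F i) N m (x i) (b i)) →
    ∀ (y : Fin d → L) (a : L), a ≠ 0 →
      (∀ w : Place k L, IsDivisorial w (d + n) → YGood d m w y a) →
      IsTranscendenceBasis k (Fin.append y x : Fin (d + n) → L) →
      IsEff k (fixedField G) (d + n) Bd

/-- `KodTr` with boundary. -/
def KodTrB (k : Type*) (K : Type*) [Field k] [Field K] [Algebra k K] (n : ℕ)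
    (Bd : Place k K → Prop) (h : ℕ) : Prop :=
  ∃ m : ℕ, 1 ≤ m ∧ ∃ ω : Fin (h + 1) → (Fin n → Derivation k K K) → K,
    (∀ l, IsSec k K n Bd {1} m 0 (ω l)) ∧
    ∃ D, (∀ l, ω l D ≠ 0) ∧ AlgebraicIndependent k (fun l : Fin h => ω l.succ D / ω 0 D)

/-- Growth from algebraically independent ratios, with boundary. -/
def S_TRGE3 : Prop := ∀ (k : Type v) (K : Type u) [Field k] [CharZero k] [Field K] [Algebra k K]
  (n h : ℕ) (Bd : Place k K → Prop), Algebra.trdeg k K = n → KodTrB k K n Bd h →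
    KodGe k K n Bd h

/-- As `S_KOD2T`, with boundary. -/
def S_KOD3T : Prop := ∀ (k : Type v) (L : Type u) [Field k] [CharZero k] [IsAlgClosed k]
  [Field L] [Algebra k L] (d n A : ℕ) (M : IntermediateField k L)
  (F : Fin n → IntermediateField k L) [∀ i, IsFF k (F i)]
  (G : Subgroup (L ≃ₐ[k] L)) [Finite G] (σ : G →* Equiv.Perm (Fin n)),
    Algebra.trdeg k M = d → Algebra.trdeg k L = (d + n : ℕ) →
    Algebra.IsAlgebraic ↥(M ⊔ ⨆ i, F i) L →
    (∀ (g : G) i, ∀ z ∈ F i, (g : L ≃ₐ[k] L) z ∈ F (σ g i)) →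
    ∀ (Bd : Place k (fixedField G) → Prop) (N m : ℕ), 2 ≤ N → FreeIn N G σ F → 1 ≤ m → Even m →
    ∀ (H : Set (Fin n)) (x c c' : Fin n → L), (∀ (g : G) i, i ∈ H → σ g i ∈ H) →
      (∀ i, x i ∈ Quo G σ F i) → (∀ i, Transcendental k (x i)) →
      (∀ (g : G) i, (g : L ≃ₐ[k] L) (x i) = x (σ g i)) →
      (∀ i, c i ∈ Quo G σ F i) → (∀ i, c i ≠ 0) → (∀ i, c' i ∈ Quo G σ F i) → (∀ i, c' i ≠ 0) →
      (∀ (g : G) i, (g : L ≃ₐ[k] L) (c i) = c (σ g i)) →
      (∀ (g : G) i, (g : L ≃ₐ[k] L) (c' i) = c' (σ g i)) →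
      (∀ i, GoodBd Bd (Quo G σ F i) N m (x i) (c i)) →
      (∀ i, GoodBd Bd (Quo G σ F i) N m (x i) (c' i)) →
      (∀ i ∈ H, Transcendental k (c' i / c i)) →
    ∀ (y : Fin d → M) (a : Fin (A + 1) → M), IsTranscendenceBasis k y → (∀ l, a l ≠ 0) →
      (∀ l, ∀ w : Place k L, IsDivisorial w (d + n) → YGood d m w (fun l => (y l : L)) (a l : L)) →
      AlgebraicIndependent k (fun l : Fin A => a l.succ / a 0) →
      KodTrB k (fixedField G) (d + n) Bd (A + H.ncard)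

/-- Pseudo-effectivity and numerical dimension of pairs under finite extensions. -/
def S_TRANSP : Prop := ∀ (k : Type v) (K L : Type u) [Field k] [CharZero k] [Field K] [Field L]
  [Algebra k K] [Algebra k L] [Algebra K L] [IsScalarTower k K L] [FiniteDimensional K L]
  (n : ℕ), Algebra.trdeg k K = n →
  (∀ y : Fin n → K, IsTranscendenceBasis k y →
    FiniteDimensional (IntermediateField.adjoin k (Set.range y)) K) →
  ∀ (δ : Place k K → ℚ) (δ' : Place k L → ℚ),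
    (∀ (w : Place k L) (v : Place k K) (e : ℕ), Over w v e → (e : ℚ) * δ v ≤ δ' w) →
    (PairPsef k K n δ → PairPsef k L n δ') ∧
    ∀ h, PairNumLe k L n δ' h → PairNumLe k K n δ h

end Pool.Agent.W619.Y
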