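import Pool.Agent.W619.Y.FinP

/-! Uniruled varieties: the canonical divisor is not pseudo-effective. -/

set_option autoImplicit false
set_option linter.overlappingInstances false
set_option linter.unusedSectionVars false

universe u v

open Polynomial FF IntermediateField Pool.Agent.W619.PQ Pool.Agent.W619.PL Pool.Agent.W619.TW
  Pool.Agent.W619.X

namespace Pool.Agent.W619.Y

open Pool.Agent.W603.LV

section

variable {k : Type v} {M : Type u} [Field k] [CharZero k] [IsAlgClosed k] [Field M] [Algebra k M]

/-- The field `M(t)` as an extension of the subfield `M`. -/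
theorem ratFunc_ruled : ∃ M' : IntermediateField k (RatFunc M),
    Transcendental M' (RatFunc.X : RatFunc M) ∧
      IntermediateField.adjoin M' {(RatFunc.X : RatFunc M)} = ⊤ := by
  let φ : M →ₐ[k] RatFunc M := IsScalarTower.toAlgHom k M (RatFunc M)
  let M' : IntermediateField k (RatFunc M) := φ.fieldRange
  let _ : Algebra M M' := (φ.rangeRestrict : M →ₐ[k] φ.range).toRingHom.toAlgebra
  have t1 : IsScalarTower M M' (RatFunc M) := IsScalarTower.of_algebraMap_eq fun c => rfl
  have hsurj : Function.Surjective (algebraMap M M') := φ.rangeRestrict_surjective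
  refine ⟨M', ?_, ?_⟩
  · intro h
    apply RatFunc.transcendental_X (K := M)
    have h1 : Algebra.IsAlgebraic M M' := ⟨fun z => by
      obtain ⟨y, rfl⟩ := hsurj z
      exact isAlgebraic_algebraMap y⟩
    exact h.restrictScalars M
  · rw [eq_top_iff]
    intro z _
    have h1 : z ∈ IntermediateField.adjoin M {(RatFunc.X : RatFunc M)} := by
      rw [RatFunc.adjoin_X]; trivial
    have h2 : IntermediateField.adjoin M {(RatFunc.X : RatFunc M)} ≤
        (IntermediateField.adjoin M' {(RatFunc.X : RatFunc M)}).restrictScalars M := by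
      rw [adjoin_simple_le_iff, mem_restrictScalars]
      exact mem_adjoin_simple_self M' _
    exact h2 h1

end

section

variable {k : Type v} {K : Type u} [Field k] [CharZero k] [IsAlgClosed k] [Field K] [Algebra k K]

/-- Uniruled varieties: the canonical divisor is not pseudo-effective, and `m K + A` has no
sections for large `m`. -/
theorem uniruled_neg [Algebra.EssFiniteType k K] (n : ℕ) (hn : Algebra.trdeg k K = n)
    (h : IsUniruled k K n) :
    ¬ IsPsef k K n (fun _ => False) ∧ NumNeg k K n (fun _ => False) := by
  obtain ⟨M, _, _, hM, htr, ⟨f⟩⟩ := h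
  let _ : Algebra K (RatFunc M) := f.toRingHom.toAlgebra
  have t1 : IsScalarTower k K (RatFunc M) := IsScalarTower.of_algebraMap_eq fun c => by
    change _ = f (algebraMap k K c)
    rw [f.commutes]
  have hFF : IsFF M (RatFunc M) := by
    refine IsFF.of_finite (f := (RatFunc.X : RatFunc M)) RatFunc.transcendental_X ?_
    rw [RatFunc.adjoin_X]
    exact Module.Finite.of_surjective (Algebra.linearMap (⊤ : IntermediateField M (RatFunc M))
      (RatFunc M)) fun z => ⟨⟨z, trivial⟩, rfl⟩
  have hess0 : Algebra.EssFiniteType M (RatFunc M) := hFF.ess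
  have hessR : Algebra.EssFiniteType k (RatFunc M) := Algebra.EssFiniteType.comp k M (RatFunc M)
  have hR : Algebra.trdeg k (RatFunc M) = n := by
    rw [← trdeg_add_eq k M (A := RatFunc M), hFF.trdeg]
    exact htr
  obtain ⟨y, hy⟩ := exists_fin_basis (k := k) n hn
  have hyR : AlgebraicIndependent k (fun i => f (y i)) := hy.1.map' f.injective
  have hyb : IsTranscendenceBasis k (fun i => f (y i)) := by
    refine hyR.isTranscendenceBasis_of_lift_trdeg_le_of_finite ?_
    rw [hR]
    simp
  have halg : Algebra.IsAlgebraic K (RatFunc M) := by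
    have h1 : Algebra.IsAlgebraic (IntermediateField.adjoin k (Set.range fun i => f (y i)))
      (RatFunc M) := hyb.isAlgebraic_field
    refine ⟨fun z => ?_⟩
    have h2 := h1.isAlgebraic z
    have hle : IntermediateField.adjoin k (Set.range fun i => f (y i)) ≤ f.fieldRange := by
      rw [adjoin_le_iff]
      rintro _ ⟨i, rfl⟩
      exact ⟨y i, rfl⟩
    let e : K ≃ₐ[k] f.fieldRange := AlgEquiv.ofInjectiveField f
    let g : IntermediateField.adjoin k (Set.range fun i => f (y i)) →+* K :=
      (e.symm : f.fieldRange →+* K).comp (inclusion hle).toRingHom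
    refine h2.ringHom_of_comp_eq g (RingHom.id _) g.injective ?_
    ext w
    change f (e.symm (inclusion hle w)) = (w : RatFunc M)
    have h3 : e (e.symm (inclusion hle w)) = inclusion hle w := e.apply_symm_apply _
    exact congrArg Subtype.val h3
  have hfd : FiniteDimensional K (RatFunc M) := by
    have h1 : Algebra.EssFiniteType K (RatFunc M) := Algebra.EssFiniteType.of_comp k K (RatFunc M)
    obtain ⟨s, hs⟩ := IntermediateField.fg_top K (RatFunc M)
    have h2 : FiniteDimensional K (IntermediateField.adjoin K (s : Set (RatFunc M))) :=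
      IntermediateField.finiteDimensional_adjoin fun x _ => (halg.isAlgebraic x).isIntegral
    rw [hs] at h2
    exact h2.equiv IntermediateField.topEquiv.toLinearEquiv
  have hT := pTRANS k K (RatFunc M) n hn (fun y hy => fin_over y hy) (fun _ => False)
  rw [bdUp_false] at hT
  obtain ⟨M', h1, h2⟩ := ratFunc_ruled (k := k) (M := M)
  refine ⟨fun h3 => pRULED k (RatFunc M) M' RatFunc.X n hR h1 h2 (hT.1 h3), hT.2.1 fun S => ?_⟩
  obtain ⟨c, hc⟩ := Pool.Agent.W52.PG.RULED2.main k (RatFunc M) M' RatFunc.X n hR h1 h2 S
  refine ⟨c + 1, fun m hm hI => ?_⟩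
  obtain ⟨ω, hω, hs⟩ := hI
  have h5 := hω.ne_zero 0
  have h6 := hc m 1 (ω 0) (hs 0) (Function.ne_iff.1 h5)
  omega

end

end Pool.Agent.W619.Y
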