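import Pool.Agent.W619.Y.Low

/-! The upper bound for groups permuting the factors. -/

set_option autoImplicit false
set_option linter.overlappingInstances false
set_option linter.unusedSectionVars false

universe u v

open Polynomial FF IntermediateField Pool.Agent.W619.PQ Pool.Agent.W619.PL Pool.Agent.W619.TW
  Pool.Agent.W619.X

namespace Pool.Agent.W619.Y

open Pool.Agent.W603.LV

section

variable {k : Type v} {L : Type u} [Field k] [CharZero k] [IsAlgClosed k] [Field L] [Algebra k L]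

theorem bdUp_false {K : Type u} [Field K] [Algebra k K] [Algebra K L] :
    BdUp (k := k) (L := L) (fun _ : Place k K => False) = fun _ => False := by
  funext w
  simp [BdUp]

/-- The product of the curves itself. -/
theorem up_bot (n : ℕ) (hn : Algebra.trdeg k L = n)
    (F : Fin n → IntermediateField k L) (hF : ∀ i, IsFF k (F i)) (hsup : ⨆ i, F i = ⊤) :
    ((∃ i, ∃ t : F i, k⟮t⟯ = ⊤) →
      ¬ IsPsef k (fixedField (⊥ : Subgroup (L ≃ₐ[k] L))) n (fun _ => False) ∧
      NumNeg k (fixedField (⊥ : Subgroup (L ≃ₐ[k] L))) n (fun _ => False)) ∧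
    ((∀ i, ¬ ∃ t : F i, k⟮t⟯ = ⊤) →
      NumLe k (fixedField (⊥ : Subgroup (L ≃ₐ[k] L))) n (fun _ => False)
        {i | ¬ IsElliptic (F i)}.ncard) := by
  have hst : ∀ i, ∀ g ∈ (⊥ : Subgroup (L ≃ₐ[k] L)), ∀ z ∈ F i, g z ∈ F i := by
    intro i g hg z hz
    rw [Subgroup.mem_bot] at hg
    rw [hg]
    exact hz
  have hδ : ∀ i, ∃ δ : Place k ↥(F i ⊓ fixedField (⊥ : Subgroup (L ≃ₐ[k] L))) → ℚ,
      OrbPos (inf_le_left : F i ⊓ fixedField (⊥ : Subgroup (L ≃ₐ[k] L)) ≤ F i) ∅ δ := by
    intro i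
    have := hF i
    obtain ⟨⟨δ, h1, h2, -⟩, -⟩ := delta_exists (F i) (⊥ : Subgroup (L ≃ₐ[k] L)) (hst i) ∅
      Set.finite_empty 7 (by norm_num)
    exact ⟨δ, h1, Or.inr ⟨7, h2, Or.inl le_rfl⟩⟩
  choose δ hδ using hδ
  have hrot : RTCond (⊥ : Subgroup (L ≃ₐ[k] L)) F (fun _ => ∅) δ := by
    intro g hg hg1
    exact absurd ((Subgroup.mem_bot).1 hg) hg1
  have h1 := minimal_x n hn F hF hsup ⊥ hst δ (fun i => Or.inl (hδ i)) hrot
  have h2 := kn_x_compact n hn F hF hsup ⊥ hst δ (fun i => Or.inl (hδ i)) hrot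
  exact ⟨fun hi => ⟨(h1.1 hi).1, h2.1 hi⟩, fun hi => (h2.2 hi).2⟩

theorem fin_over_adjoin (n : ℕ) [Algebra.EssFiniteType k L] (K : IntermediateField k L)
    [Algebra.IsAlgebraic K L] (y : Fin n → K) (hy : IsTranscendenceBasis k y) :
    FiniteDimensional (IntermediateField.adjoin k (Set.range y)) K := by
  set K0 := IntermediateField.adjoin k (Set.range y) with hK0
  let iA : Algebra K0 L := inferInstance
  have t1 : IsScalarTower K0 K L := inferInstance
  have t2 : IsScalarTower k K0 L := inferInstance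
  have hess : Algebra.EssFiniteType K0 L := Algebra.EssFiniteType.of_comp k K0 L
  have halg1 : Algebra.IsAlgebraic K0 K := hy.isAlgebraic_field
  have halg2 : Algebra.IsAlgebraic K0 L := Algebra.IsAlgebraic.trans K0 K L
  obtain ⟨s, hs⟩ := IntermediateField.fg_top K0 L
  have h1 : FiniteDimensional K0 (IntermediateField.adjoin K0 (s : Set L)) :=
    IntermediateField.finiteDimensional_adjoin fun x _ =>
      (halg2.isAlgebraic x).isIntegral
  rw [hs] at h1
  have h2 : FiniteDimensional K0 L := h1.equiv IntermediateField.topEquiv.toLinearEquiv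
  exact Module.Finite.of_injective (IsScalarTower.toAlgHom K0 K L).toLinearMap
    (algebraMap K L).injective

theorem upper_mixed (hTR : S_TRANS.{u, v}) (n : ℕ) (hn : Algebra.trdeg k L = n)
    (F : Fin n → IntermediateField k L) (hF : ∀ i, IsFF k (F i)) (hsup : ⨆ i, F i = ⊤)
    (G : Subgroup (L ≃ₐ[k] L)) [Finite G] :
    ((∃ i, ∃ t : F i, k⟮t⟯ = ⊤) →
      ¬ IsPsef k (fixedField G) n (fun _ => False) ∧ NumNeg k (fixedField G) n (fun _ => False)) ∧
    ((∀ i, ¬ ∃ t : F i, k⟮t⟯ = ⊤) →
      NumLe k (fixedField G) n (fun _ => False) {i | ¬ IsElliptic (F i)}.ncard) := by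
  have hle : fixedField G ≤ fixedField (⊥ : Subgroup (L ≃ₐ[k] L)) := by
    intro z hz g
    have := g.2
    rw [Subgroup.mem_bot] at this
    change (g : L ≃ₐ[k] L) z = z
    rw [this]
    rfl
  let _ : Algebra (fixedField G) (fixedField (⊥ : Subgroup (L ≃ₐ[k] L))) :=
    (inclusion hle).toRingHom.toAlgebra
  have t1 : IsScalarTower k (fixedField G) (fixedField (⊥ : Subgroup (L ≃ₐ[k] L))) :=
    IsScalarTower.of_algebraMap_eq fun c => rfl
  have t2 : IsScalarTower (fixedField G) (fixedField (⊥ : Subgroup (L ≃ₐ[k] L))) L :=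
    IsScalarTower.of_algebraMap_eq fun c => rfl
  have hfinL : FiniteDimensional (fixedField G) L := by
    have hGal : IsGaloisGroup G (fixedField G) L := isGaloisGroup_fixed G
    exact IsGaloisGroup.finiteDimensional G (fixedField G) L
  have f1 : FiniteDimensional (fixedField G) (fixedField (⊥ : Subgroup (L ≃ₐ[k] L))) :=
    Module.Finite.of_injective
      ((IsScalarTower.toAlgHom (fixedField G) (fixedField (⊥ : Subgroup (L ≃ₐ[k] L))) L).toLinearMap)
      Subtype.val_injective
  have hess : Algebra.EssFiniteType k L := by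
    have h1 : Algebra.EssFiniteType k ↥(⨆ i, F i) :=
      essFiniteType_iff.2 (fg_iSup fun j => essFiniteType_iff.1 (IsFF.ess))
    rw [hsup] at h1
    exact (Algebra.EssFiniteType.iff_of_algEquiv (IntermediateField.topEquiv (F := k) (E := L))).1 h1
  have hnK : Algebra.trdeg k (fixedField G) = n := by
    rw [← hn, ← trdeg_add_eq k (fixedField G) (A := L), trdeg_eq_zero (R := fixedField G) (A := L), add_zero]
  have h := hTR k (fixedField G) (fixedField (⊥ : Subgroup (L ≃ₐ[k] L))) n hnK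
    (fun y hy => fin_over_adjoin n (fixedField G) y hy) (fun _ => False)
  rw [bdUp_false] at h
  obtain ⟨h1, h2⟩ := up_bot n hn F hF hsup
  exact ⟨fun hi => ⟨fun hp => (h1 hi).1 (h.1 hp), h.2.1 (h1 hi).2⟩, fun hi => h.2.2 _ (h2 hi)⟩

end

end Pool.Agent.W619.Y
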